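import Pool.Agent.MP_77f003_co.H4.LT0

/-!
LtLanes along a geodesic: from `k` lanes and a system of jumps to `k + 1` lanes.
-/

namespace Pool.Agent.MP_77f003_co.H49

open SimpleGraph

variable {V : Type}

/-- LtLanes together with a system of jumps. -/
structure LtS (G : SimpleGraph V) (p : ℕ → V) (m k K K₁ W W₂ M D s : ℕ) (L : ℕ → ℕ → Set V)
    (n : ℕ) (J : ℕ → Set V) (a b js je : ℕ → ℕ) (α β : ℕ → V) : Prop where
  geo : LtGeo G p m
  lanes : LtLanes G p m k K₁ W L
  hK : 2 * K < K₁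
  n1 : 1 ≤ n
  a0 : a 0 = 0 ∧ a 1 = 0 ∧ b 0 = 0
  bn : b n = m ∧ b (n + 1) = m ∧ a (n + 1) = m
  run : ∀ i ≤ n + 1, ∀ t, a i ≤ t → t ≤ b i → b i ≤ t + D → Run G p W₂ (J i) (α i) (a i) (β i) t
  land : ∀ i < n, je i < k ∧ b i ≤ m ∧ β i ∈ L (je i) (b i)
  dep : ∀ i < n, js (i + 2) < k ∧ a (i + 2) ≤ m ∧ α (i + 2) ∈ L (js (i + 2)) (a (i + 2)) ∧
    b i ≤ a (i + 2) + D
  win : ∀ i, i + 1 < n → b i + s ≤ b (i + 1) ∧ b i + s ≤ a (i + 3) ∧ a (i + 2) + s ≤ b (i + 1) ∧
    a (i + 2) + s ≤ a (i + 3)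
  fin : ∀ i ≤ n + 1, ∀ w ≤ m, (2 ≤ i → w + M < a i ∨ a i + M < w) →
    (i < n → w + M < b i ∨ b i + M < w) → Far G K {y | G.dist (p w) y ≤ W + K} (J i)
  fla : ∀ i ≤ n + 1, ∀ j < k, ∀ w ≤ m, (2 ≤ i → j ≠ js i ∨ w + M < a i ∨ a i + M < w) →
    (i < n → j ≠ je i ∨ w + M < b i ∨ b i + M < w) → Far G K (L j w) (J i)
  fjj : ∀ i i', i < i' → i' ≤ n + 1 → (i' = i + 2 → je i ≠ js i') → Far G K (J i') (J i)

/-- The region used long ago. -/
def LtOld (G : SimpleGraph V) (p : ℕ → V) (m K W M : ℕ) (J : ℕ → Set V) (o i : ℕ) : Set V :=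
  {z | ∃ w ≤ m, w + (M + 2 * W + 2 * K + 1) ≤ o ∧ G.dist (p w) z ≤ W + K} ∪ {z | ∃ i' < i, z ∈ J i'}

/-- The nominal landing time of a jump. -/
def ltE (m n : ℕ) (a b : ℕ → ℕ) (i : ℕ) : ℕ := if i < n then min (b i) (a (i + 2)) else m

/-- The state of the tokens at time `u` with the free lane `η`, on the jumps `i` and `i + 1`. -/
structure LtSt (G : SimpleGraph V) (p : ℕ → V) (m k K W W₃ M : ℕ) (L : ℕ → ℕ → Set V) (n : ℕ)
    (J : ℕ → Set V) (a b : ℕ → ℕ) (β : ℕ → V) (u o η i : ℕ) (T : ℕ → Set V) : Prop where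
  hη : η < k
  past : ∀ i' < i, b i' + M < u ∧ a (i' + 2) + M < u ∨ i = n
  sub : ∀ j < k, j ≠ η → T j ⊆ LtOld G p m K W M J o i ∪ LtSeg L j 0 u
  subA : T k ⊆ LtOld G p m K W M J o i ∪ J i
  subB : T (k + 1) ⊆ LtOld G p m K W M J o i ∪ J (i + 1)
  run : ∀ j < k, j ≠ η → ∃ x y, y ∈ L j u ∧ Run G p W₃ (T j) x 0 y u
  runA : ∃ x, Run G p W₃ (T k) x 0 (β i) (ltE m n a b i)
  runB : ∃ x, Run G p W₃ (T (k + 1)) x 0 (β (i + 1)) (ltE m n a b (i + 1))
  far : ∀ j < k + 2, ∀ j' < k + 2, j ≠ η → j' ≠ η → j ≠ j' → Far G K (T j) (T j')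

/-- A set that only the token `q` may touch. -/
def LtClr (G : SimpleGraph V) (p : ℕ → V) (m k K W M : ℕ) (L : ℕ → ℕ → Set V) (J : ℕ → Set V)
    (u o η i : ℕ) (N : Set V) (q : ℕ) : Prop :=
  Far G K N (LtOld G p m K W M J o i) ∧ (∀ j < k, j ≠ η → j ≠ q → Far G K N (LtSeg L j 0 u)) ∧
    (q ≠ k → Far G K N (J i)) ∧ (q ≠ k + 1 → Far G K N (J (i + 1)))

variable {G : SimpleGraph V} {p : ℕ → V} {m k K K₁ W W₂ W₃ M D s : ℕ} {L : ℕ → ℕ → Set V}
  {n : ℕ} {J : ℕ → Set V} {a b js je : ℕ → ℕ} {α β : ℕ → V} {u o η i : ℕ} {T : ℕ → Set V}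

theorem LtOld.mono {o' i' : ℕ} (h : o ≤ o') (h' : i ≤ i') :
    LtOld G p m K W M J o i ⊆ LtOld G p m K W M J o' i' := by
  rintro z (⟨w, a1, a2, a3⟩ | ⟨j, a1, a2⟩)
  exacts [Or.inl ⟨w, a1, by omega, a3⟩, Or.inr ⟨j, by omega, a2⟩]

theorem lt_far_empty (S : Set V) : Far G K ∅ S := fun _ h => h.elim

theorem LtClr.empty (q : ℕ) : LtClr G p m k K W M L J u o η i ∅ q :=
  ⟨lt_far_empty _, fun _ _ _ _ => lt_far_empty _, fun _ => lt_far_empty _, fun _ => lt_far_empty _⟩

theorem LtClr.union {N N' : Set V} {q : ℕ} (h : LtClr G p m k K W M L J u o η i N q)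
    (h' : LtClr G p m k K W M L J u o η i N' q) : LtClr G p m k K W M L J u o η i (N ∪ N') q :=
  ⟨h.1.union h'.1, fun j a1 a2 a3 => (h.2.1 j a1 a2 a3).union (h'.2.1 j a1 a2 a3),
    fun a1 => (h.2.2.1 a1).union (h'.2.2.1 a1), fun a1 => (h.2.2.2 a1).union (h'.2.2.2 a1)⟩

theorem LtSt.clr (S : LtSt G p m k K W W₃ M L n J a b β u o η i T) {N : Set V} {q : ℕ}
    (h : LtClr G p m k K W M L J u o η i N q) {j : ℕ} (h1 : j < k + 2) (h2 : j ≠ η) (h3 : j ≠ q) :
    Far G K N (T j) := by
  rcases lt_trichotomy j k with hj | rfl | hj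
  · exact (h.1.union' (h.2.1 j hj h2 h3)).mono le_rfl (S.sub j hj h2)
  · exact (h.1.union' (h.2.2.1 h3.symm)).mono le_rfl S.subA
  · obtain rfl : j = k + 1 := by omega
    exact (h.1.union' (h.2.2.2 h3.symm)).mono le_rfl S.subB

theorem LtS.seg_far (H : LtS G p m k K K₁ W W₂ M D s L n J a b js je α β) {j j' x y x' y' : ℕ}
    (hj : j < k) (hj' : j' < k) (hne : j ≠ j') (hy : y ≤ m) (hy' : y' ≤ m) :
    Far G K (LtSeg L j x y) (LtSeg L j' x' y') := fun z hz z' hz' =>
  le_trans (by have := H.hK; omega) (H.lanes.seg_far hj hj' hne hy hy' z hz z' hz')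

theorem LtSt.ext (H : LtS G p m k K K₁ W W₂ M D s L n J a b js je α β)
    (S : LtSt G p m k K W W₃ M L n J a b β u o η i T) {η' u' j₀ : ℕ} (hu : u' ≤ m) (π : ℕ → ℕ)
    (N : ℕ → Set V) (h1 : ∀ j < k + 2, j ≠ η' → π j < k + 2 ∧ π j ≠ η)
    (h2 : ∀ j < k + 2, ∀ j' < k + 2, j ≠ η' → j' ≠ η' → j ≠ j' → π j ≠ π j')
    (h3 : ∀ j < k, j ≠ η' → j ≠ j₀ → N j ⊆ LtSeg L j u u')
    (h4 : ∀ j < k + 2, k ≤ j → j ≠ j₀ → N j = ∅)
    (h5 : ∀ j < k + 2, j ≠ η' → LtClr G p m k K W M L J u o η i (N j) (π j))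
    (h6 : ∀ j < k, j ≠ η' → j ≠ j₀ → Far G K (N j₀) (N j)) :
    ∀ j < k + 2, ∀ j' < k + 2, j ≠ η' → j' ≠ η' → j ≠ j' →
      Far G K (T (π j) ∪ N j) (T (π j') ∪ N j') := by
  intro j a1 j' b1 a2 b2 hne
  have e1 := h1 j a1 a2
  have e2 := h1 j' b1 b2
  have e3 := h2 j a1 j' b1 a2 b2 hne
  refine ((S.far _ e1.1 _ e2.1 e1.2 e2.2 e3).union' (S.clr (h5 j' b1 b2) e1.1 e1.2 e3).symm).union
    ((S.clr (h5 j a1 a2) e2.1 e2.2 e3.symm).union' ?_)
  have key : ∀ j < k + 2, j ≠ η' → j ≠ j₀ → Far G K (N j₀) (N j) := by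
    intro j c1 c2 c3
    rcases lt_or_ge j k with c4 | c4
    · exact h6 j c4 c2 c3
    · rw [h4 j c1 c4 c3]
      exact (lt_far_empty _).symm
  by_cases c1 : j = j₀
  · exact c1 ▸ key j' b1 b2 (c1 ▸ hne.symm)
  by_cases c2 : j' = j₀
  · exact c2 ▸ (key j a1 a2 c1).symm
  rcases lt_or_ge j k with c3 | c3
  · rcases lt_or_ge j' k with c4 | c4
    · exact (H.seg_far c3 c4 hne hu hu).mono (h3 j c3 a2 c1) (h3 j' c4 b2 c2)
    · rw [h4 j' b1 c4 c2]
      exact (lt_far_empty _).symm
  · rw [h4 j a1 c3 c1]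
    exact lt_far_empty _

theorem LtS.mono (H : LtS G p m k K K₁ W W₂ M D s L n J a b js je α β) {i i' : ℕ} (h : i < i')
    (h' : i' < n) : b i + s ≤ b i' ∧ b i + s ≤ a (i' + 2) ∧ a (i + 2) + s ≤ b i' ∧
      a (i + 2) + s ≤ a (i' + 2) := by
  induction h with
  | refl => exact H.win i h'
  | @step j h ih =>
    have e1 := ih (by omega)
    have e2 := H.win j h'
    simp only [Nat.succ_eq_add_one, add_assoc, Nat.reduceAdd] at *
    omega

variable [Fact G.Connected]

theorem LtSt.clr_seg (H : LtS G p m k K K₁ W W₂ M D s L n J a b js je α β)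
    (S : LtSt G p m k K W W₃ M L n J a b β u o η i T) (hi : i < n) (ho : o ≤ u) (hu : u ≤ m)
    {j x y q : ℕ} (hj : j < k) (hx : u ≤ x) (hy : y ≤ m) (hq : j = η ∨ j = q)
    (h1 : q ≠ k → j ≠ je i ∨ y + M < b i) (h2 : i + 1 < n → y + M < b (i + 1)) :
    LtClr G p m k K W M L J u o η i (LtSeg L j x y) q := by
  have hp : ∀ i' < i, b i' + M < u ∧ a (i' + 2) + M < u := fun i' h =>
    (S.past i' h).resolve_right hi.ne
  have hp' : ∀ i', 2 ≤ i' → i' ≤ i + 1 → a i' + M < u := fun i' c1 c2 => by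
    obtain ⟨l, rfl⟩ : ∃ l, i' = l + 2 := ⟨i' - 2, by omega⟩
    exact (hp l (by omega)).2
  refine ⟨?_, fun j' c1 c2 c3 => H.seg_far hj c1 (by omega) hy hu, fun c1 => ?_, fun _ => ?_⟩
  · rintro z ⟨w, a1, a2, a3⟩ z' (⟨w', b1, b2, b3⟩ | ⟨i', b1, b2⟩)
    · have := H.geo.sep (a2.trans hy) b1 (H.lanes.near j hj w (a2.trans hy) z a3) b3
      omega
    · refine H.fla i' (by omega) j hj w (a2.trans hy) (fun c => ?_) (fun _ => ?_) z a3 z' b2
      · have := hp' i' c (by omega)
        omega
      · have := hp i' b1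
        omega
  · rintro z ⟨w, a1, a2, a3⟩
    refine H.fla i (by omega) j hj w (a2.trans hy) (fun c => ?_) (fun _ => ?_) z a3
    · have := hp' i c (by omega)
      omega
    · have := h1 c1
      omega
  · rintro z ⟨w, a1, a2, a3⟩
    refine H.fla (i + 1) (by omega) j hj w (a2.trans hy) (fun c => ?_) (fun c => ?_) z a3
    · have := hp' (i + 1) c le_rfl
      omega
    · have := h2 c
      omega

theorem LtSt.go (H : LtS G p m k K K₁ W W₂ M D s L n J a b js je α β)
    (S : LtSt G p m k K W W₃ M L n J a b β u o η i T) (hW : W ≤ W₃) {j u' : ℕ} (hj : j < k)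
    (hj' : j ≠ η) (h : u ≤ u') (hu : u' ≤ m) :
    ∃ x y, y ∈ L j u' ∧ Run G p W₃ (T j ∪ LtSeg L j u u') x 0 y u' := by
  obtain ⟨x, y, h1, h2⟩ := S.run j hj hj'
  obtain ⟨z, hz⟩ := H.lanes.ne j hj u' hu
  exact ⟨x, z, hz, (h2.mono Set.subset_union_left le_rfl).trans
    ((H.lanes.seg_run hj h hu h1 hz).mono Set.subset_union_right hW)⟩

theorem LtSt.go_sub (S : LtSt G p m k K W W₃ M L n J a b β u o η i T) {j u' o' i' : ℕ} (hj : j < k)
    (hj' : j ≠ η) (h : u ≤ u') (ho : o ≤ o') (hi : i ≤ i') :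
    T j ∪ LtSeg L j u u' ⊆ LtOld G p m K W M J o' i' ∪ LtSeg L j 0 u' :=
  Set.union_subset ((S.sub j hj hj').trans (Set.union_subset_union (LtOld.mono ho hi)
    (LtSeg.mono le_rfl h))) ((LtSeg.mono (Nat.zero_le _) le_rfl).trans Set.subset_union_right)

theorem LtS.seg_old (H : LtS G p m k K K₁ W W₂ M D s L n J a b js je α β) {j x y o i : ℕ}
    (hj : j < k) (hy : y ≤ m) (ho : y + (M + 2 * W + 2 * K + 1) ≤ o) :
    LtSeg L j x y ⊆ LtOld G p m K W M J o i := fun z ⟨w, _, a2, a3⟩ =>
  Or.inl ⟨w, a2.trans hy, by omega,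
    (H.lanes.near j hj w (a2.trans hy) z a3).trans (Nat.le_add_right _ _)⟩

theorem LtSt.adv (H : LtS G p m k K K₁ W W₂ M D s L n J a b js je α β)
    (S : LtSt G p m k K W W₃ M L n J a b β u o η i T) (hW : W ≤ W₃) (hi : i < n) (ho : o ≤ u)
    {u' : ℕ} (h : u ≤ u') (hb : u' + M < b i) :
    ∃ T', LtSt G p m k K W W₃ M L n J a b β u' u' η i T' := by
  have hu : u' ≤ m := by have := (H.land i hi).2.1; omega
  have hb' : i + 1 < n → u' + M < b (i + 1) := fun c => by have := H.win i c; omega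
  refine ⟨fun j => T j ∪ if j < k then LtSeg L j u u' else ∅, S.hη,
    fun i' c => by have := S.past i' c; omega, fun j c1 c2 => ?_, ?_, ?_, fun j c1 c2 => ?_, ?_, ?_,
    S.ext H (j₀ := η) hu id _ (fun j c1 c2 => ⟨c1, c2⟩) (fun j _ j' _ _ _ c => c)
      (fun j c1 _ _ => by simp [c1]) (fun j _ c2 _ => by simp [c2]) (fun j c1 c2 => ?_)
      fun j c1 c2 c3 => ?_⟩
  · simpa [c1] using S.go_sub c1 c2 h (ho.trans h) le_rfl
  · simpa using S.subA.trans (Set.union_subset_union_left _ (LtOld.mono (ho.trans h) le_rfl))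
  · simpa using S.subB.trans (Set.union_subset_union_left _ (LtOld.mono (ho.trans h) le_rfl))
  · simpa [c1] using S.go H hW c1 c2 h hu
  · simpa using S.runA
  · simpa using S.runB
  · split_ifs with c3
    · exact S.clr_seg H hi ho (h.trans hu) c3 le_rfl hu (Or.inr rfl) (fun _ => Or.inr hb) hb'
    · exact LtClr.empty _
  · simp only [S.hη, c1, if_true]
    exact H.seg_far S.hη c1 c2.symm hu hu

theorem LtSt.move (H : LtS G p m k K K₁ W W₂ M D s L n J a b js je α β)
    (S : LtSt G p m k K W W₃ M L n J a b β u o η i T) (hW : 5 * W + 3 * K ≤ W₃) (hi : i < n)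
    (ho : o ≤ u) {u' : ℕ} (h : u + 2 * (2 * W + K) + (M + 2 * W + 2 * K + 1) ≤ u')
    (hb : u' + M < b i) {j₁ v v' : ℕ} {l : Set V} {x x' : V} (hj : j₁ < k) (hne : j₁ ≠ η)
    (hv : v ≤ m) (hv' : v' ≤ m) (hx : x ∈ L η v) (hx' : x' ∈ L j₁ v') (hl : Lk G l x x')
    (hn : ∀ z ∈ l, G.dist (p (u + (2 * W + K))) z ≤ W + K)
    (hf : ∀ j' < k, j' ≠ η → j' ≠ j₁ → ∀ w ≤ m, Far G K l (L j' w)) :
    ∃ T', LtSt G p m k K W W₃ M L n J a b β u' u' j₁ i T' := by
  have hu : u' ≤ m := by have := (H.land i hi).2.1; omega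
  have hb' : i + 1 < n → u' + M < b (i + 1) := fun c => by have := H.win i c; omega
  have hη := S.hη
  set t := u + (2 * W + K) with ht
  set y := u + 2 * (2 * W + K) with hy
  have e1 := H.geo.sep (show t ≤ m by omega) hv (hn x hl.left) (H.lanes.near η hη v hv x hx)
  have e2 := H.geo.sep (show t ≤ m by omega) hv' (hn x' hl.right) (H.lanes.near j₁ hj v' hv' x' hx')
  rw [SimpleGraph.dist_self] at e1 e2
  have hp : ∀ i' < i, b i' + M < u ∧ a (i' + 2) + M < u := fun i' h =>
    (S.past i' h).resolve_right hi.ne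
  have hp' : ∀ i', 2 ≤ i' → i' ≤ i + 1 → a i' + M < u := fun i' c1 c2 => by
    obtain ⟨l, rfl⟩ : ∃ l, i' = l + 2 := ⟨i' - 2, by omega⟩
    exact (hp l (by omega)).2
  have hlf : ∀ j' < k, j' ≠ η → j' ≠ j₁ → ∀ c d, d ≤ m → Far G K l (LtSeg L j' c d) :=
    fun j' c1 c2 c3 c d c4 z hz z' ⟨w, _, d2, d3⟩ => hf j' c1 c2 c3 w (d2.trans c4) z hz z' d3
  have hlJ : ∀ i' ≤ i + 1, Far G K l (J i') := by
    intro i' c1
    refine (H.fin i' (by omega) t (by omega) (fun c => ?_) fun c => ?_).mono hn le_rfl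
    · have := hp' i' c c1
      omega
    · rcases lt_trichotomy i' i with c2 | rfl | c2
      · have := hp i' c2
        omega
      · omega
      · obtain rfl : i' = i + 1 := by omega
        have := hb' c
        omega
  refine ⟨fun j => T (if j = η then j₁ else j) ∪ if j = η then LtSeg L j₁ u y ∪ l ∪ LtSeg L η u u'
      else if j < k then LtSeg L j u u' else ∅, hj,
    fun i' c => by have := S.past i' c; omega, fun j c1 c2 => ?_, ?_, ?_, fun j c1 c2 => ?_, ?_, ?_,
    S.ext H (j₀ := η) hu (fun j => if j = η then j₁ else j) _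
      (fun j c1 c2 => by split_ifs <;> omega) (fun j _ j' _ _ _ c => by split_ifs <;> omega)
      (fun j c1 _ c3 => by simp [c1, c3]) (fun j _ c2 c3 => by simp [c2, c3]) (fun j c1 c2 => ?_)
      fun j c1 c2 c3 => ?_⟩
  · by_cases c3 : j = η
    · subst c3
      simp only [if_true]
      refine Set.union_subset ((S.sub j₁ hj hne).trans (Set.union_subset ?_ ?_))
        (Set.union_subset (Set.union_subset ?_ fun z hz => ?_) ?_)
      · exact (LtOld.mono (by omega) le_rfl).trans Set.subset_union_left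
      · exact (H.seg_old hj (by omega) (by omega)).trans Set.subset_union_left
      · exact (H.seg_old hj (by omega) (by omega)).trans Set.subset_union_left
      · exact Or.inl (Or.inl ⟨t, by omega, by omega, hn z hz⟩)
      · exact (LtSeg.mono (Nat.zero_le _) le_rfl).trans Set.subset_union_right
    · simpa [c1, c3] using S.go_sub c1 c3 (show u ≤ u' by omega) (show o ≤ u' by omega) le_rfl
  · simpa [hη.ne'] using
      S.subA.trans (Set.union_subset_union_left _ (LtOld.mono (show o ≤ u' by omega) le_rfl))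
  · simpa [show k + 1 ≠ η by omega] using
      S.subB.trans (Set.union_subset_union_left _ (LtOld.mono (show o ≤ u' by omega) le_rfl))
  · by_cases c3 : j = η
    · subst c3
      simp only [if_true]
      obtain ⟨x₀, y₀, d1, d2⟩ := S.run j₁ hj hne
      obtain ⟨z₀, hz₀⟩ := H.lanes.ne j c1 u (by omega)
      obtain ⟨z₁, hz₁⟩ := H.lanes.ne j c1 u' hu
      refine ⟨x₀, z₁, hz₁, ((d2.mono Set.subset_union_left le_rfl).trans
        (Run.lk (S := LtSeg L j₁ u y ∪ l ∪ LtSeg L j u y) (y := z₀) ?_ ?_ ?_)).trans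
        ((H.lanes.seg_run c1 (by omega) hu hz₀ hz₁).mono (fun z hz => Or.inr (Or.inr hz))
          (by omega))⟩
      · exact (((H.lanes.seg_lk hj (by omega) le_rfl (by omega) (by omega) (by omega) d1 hx').mono
          fun z hz => Or.inl (Or.inl hz)).trans (hl.symm.mono fun z hz => Or.inl (Or.inr hz))).trans
          ((H.lanes.seg_lk c1 (by omega) (by omega) (by omega) le_rfl (by omega) hx hz₀).mono
            fun z hz => Or.inr hz)
      · exact (Set.union_subset_union_right _ (LtSeg.mono le_rfl (by omega))).trans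
          Set.subset_union_right
      · rintro z ((hz | hz) | hz)
        · exact (H.lanes.seg_near H.geo (e := 2 * (2 * W + K)) hj (by omega) (by omega) (by omega)
            (by omega) z hz).trans (by omega)
        · exact (H.geo.near (e := 2 * W + K) (by omega) (by omega) (by omega) (by omega)
            (hn z hz)).trans (by omega)
        · exact (H.lanes.seg_near H.geo (e := 2 * (2 * W + K)) c1 (by omega) (by omega) (by omega)
            (by omega) z hz).trans (by omega)
    · simpa [c1, c3] using S.go H (by omega) c1 c3 (show u ≤ u' by omega) hu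
  · simpa [hη.ne'] using S.runA
  · simpa [show k + 1 ≠ η by omega] using S.runB
  · by_cases c3 : j = η
    · simp only [c3, if_true]
      refine ((S.clr_seg H hi ho (by omega) hj le_rfl (by omega) (Or.inr rfl)
        (fun _ => Or.inr (by omega)) fun c => by have := hb' c; omega).union ⟨?_,
        fun j' d1 d2 d3 => hlf j' d1 d2 d3 _ _ (by omega), fun _ => hlJ i (by omega),
        fun _ => hlJ _ le_rfl⟩).union
        (S.clr_seg H hi ho (by omega) hη le_rfl hu (Or.inl rfl) (fun _ => Or.inr hb) hb')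
      rintro z hz z' (⟨w', b1, b2, b3⟩ | ⟨i', b1, b2⟩)
      · have := H.geo.sep (show t ≤ m by omega) b1 (hn z hz) b3
        omega
      · exact hlJ i' (by omega) z hz z' b2
    · simp only [c3, if_false]
      split_ifs with c4
      · exact S.clr_seg H hi ho (by omega) c4 le_rfl hu (Or.inr rfl) (fun _ => Or.inr hb) hb'
      · exact LtClr.empty _
  · simp only [c1, c3, if_true, if_false]
    exact ((H.seg_far hj c1 (Ne.symm c2) (by omega) hu).union (hlf j c1 c3 c2 _ _ hu)).union
      (H.seg_far hη c1 (Ne.symm c3) hu hu)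

theorem LtSt.reach (H : LtS G p m k K K₁ W W₂ M D s L n J a b js je α β)
    (S : LtSt G p m k K W W₃ M L n J a b β u o η i T) (hW : 5 * W + 3 * K ≤ W₃) (hi : i < n)
    (ho : o ≤ u) (hb : u + k * (M + 6 * W + 4 * K + 1) + M < b i) {j : ℕ} (hj : j < k) :
    ∃ T', LtSt G p m k K W W₃ M L n J a b β (u + k * (M + 6 * W + 4 * K + 1))
      (u + k * (M + 6 * W + 4 * K + 1)) j i T' := by
  classical
  set c := M + 6 * W + 4 * K + 1 with hc
  have key : ∀ r ≤ k, ∃ R : Finset ℕ, R ⊆ Finset.range k ∧ (r + 1 ≤ R.card ∨ R = Finset.range k) ∧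
      ∀ j ∈ R, ∃ T', LtSt G p m k K W W₃ M L n J a b β (u + r * c) (u + r * c) j i T' := by
    intro r
    induction r with
    | zero =>
      refine fun _ => ⟨{η}, by simpa using S.hη, by simp, fun j hj => ?_⟩
      rw [Finset.mem_singleton.1 hj]
      exact S.adv H (by omega) hi ho (by omega) (by omega)
    | succ r ih =>
      intro hr
      obtain ⟨R, h1, h2, h3⟩ := ih (by omega)
      have e1 := Nat.mul_le_mul_right c hr
      have e2 : (r + 1) * c = r * c + c := Nat.succ_mul _ _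
      have h4 : ∀ j ∈ R, ∃ T', LtSt G p m k K W W₃ M L n J a b β (u + (r + 1) * c)
          (u + (r + 1) * c) j i T' := fun j hj => by
        obtain ⟨T', S'⟩ := h3 j hj
        exact S'.adv H (by omega) hi le_rfl (by omega) (by omega)
      by_cases hR : R = Finset.range k
      · exact ⟨R, h1, Or.inr hR, h4⟩
      obtain ⟨j₀, a1, a2⟩ := Finset.exists_of_ssubset (lt_of_le_of_ne h1 hR)
      obtain ⟨η₀, a3⟩ := Finset.card_pos.1 (show 0 < R.card by have := h2.resolve_right hR; omega)
      have hm := (H.land i hi).2.1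
      obtain ⟨η₁, b1, b2, j₁, b3, b4, l, v, v', x, x', b5, b6, b7, b8, b9, b10, b11⟩ :=
        H.lanes.link H.hK (t := u + r * c + (2 * W + K)) (by omega) (R : Set ℕ)
          (Finset.mem_range.1 (h1 a3)) a3 (Finset.mem_range.1 a1) a2
      refine ⟨insert j₁ R, Finset.insert_subset (Finset.mem_range.2 b3) h1, Or.inl ?_,
        fun j hj => ?_⟩
      · rw [Finset.card_insert_of_notMem b4]
        have := h2.resolve_right hR
        omega
      · rcases Finset.mem_insert.1 hj with rfl | hj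
        · obtain ⟨T', S'⟩ := h3 η₁ b2
          exact S'.move H hW hi le_rfl (by omega) (by omega) b3 (fun e => b4 (e ▸ b2)) b5 b6 b7 b8
            b9 b10 b11
        · exact h4 j hj
  obtain ⟨R, h1, h2, h3⟩ := key k le_rfl
  have := Finset.card_le_card h1
  rw [Finset.card_range] at this
  exact h3 j (h2.resolve_left (by omega) ▸ Finset.mem_range.2 hj)

theorem LtSt.event (H : LtS G p m k K K₁ W W₂ M D s L n J a b js je α β)
    (S : LtSt G p m k K W W₃ M L n J a b β u o (je i) i T) (hW : W + D ≤ W₃) (hW' : W₂ ≤ W₃)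
    (hi : i < n) (ho : o ≤ u) (h1 : u ≤ b i) (h2 : u ≤ a (i + 2)) {u' : ℕ} (h3 : b i ≤ u')
    (h4 : a (i + 2) ≤ u') (hu : u' ≤ m) (hb : i + 1 < n → u' + M < b (i + 1))
    (hb' : i + 1 < n → b i + M < u' ∧ a (i + 2) + M < u') :
    ∃ η' T', LtSt G p m k K W W₃ M L n J a b β u'
      (max (b i) (a (i + 2)) + (M + 2 * W + 2 * K + 1)) η' (i + 1) T' := by
  obtain ⟨hη, l2, l3⟩ := H.land i hi
  obtain ⟨hj, d2, d3, d4⟩ := H.dep i hi
  set η := je i with hη'
  set j₂ := js (i + 2) with hj₂
  set o' := max (b i) (a (i + 2)) + (M + 2 * W + 2 * K + 1) with ho'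
  have hp : ∀ i' < i, b i' + M < u ∧ a (i' + 2) + M < u := fun i' h =>
    (S.past i' h).resolve_right hi.ne
  have hpast : ∀ i' < i + 1, b i' + M < u' ∧ a (i' + 2) + M < u' ∨ i + 1 = n := by
    intro i' c
    by_cases c1 : i + 1 < n
    · rcases Nat.lt_succ_iff_lt_or_eq.1 c with c | rfl
      · have := hp i' c
        omega
      · exact Or.inl (hb' c1)
    · omega
  have hb2 : i + 2 < n → u' + M < b (i + 2) := fun c => by
    have := H.win (i + 1) c
    have := hb (by omega)
    simp only [add_assoc, Nat.reduceAdd] at *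
    omega
  have hJ : Run G p W₃ (J (i + 2)) (α (i + 2)) (a (i + 2)) (β (i + 2)) (ltE m n a b (i + 2)) := by
    refine (H.run (i + 2) (by omega) _ ?_ ?_ ?_).mono le_rfl hW' <;> unfold ltE <;>
      split_ifs with c
    · have := H.mono (show i < i + 2 by omega) c
      omega
    · exact d2
    · exact min_le_left _ _
    · have := H.bn
      rcases (show i + 2 = n ∨ i + 2 = n + 1 by omega) with e | e <;> rw [e] <;> omega
    · have := (H.dep (i + 2) c).2.2.2
      omega
    · have := H.bn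
      rcases (show i + 2 = n ∨ i + 2 = n + 1 by omega) with e | e <;> rw [e] <;> omega
  have hJl : ∀ j < k, j ≠ j₂ → ∀ x, Far G K (J (i + 2)) (LtSeg L j x u') := by
    rintro j c1 c2 x z hz z' ⟨w, -, a2, a3⟩
    rw [dcomm]
    exact H.fla (i + 2) (by omega) j c1 w (a2.trans hu) (fun _ => Or.inl c2)
      (fun c => by have := hb2 c; omega) z' a3 z hz
  have hJc : ∀ q, (q = j₂ ∨ j₂ = η) → (q ≠ k → η ≠ j₂) →
      LtClr G p m k K W M L J u o η i (J (i + 2)) q := by
    intro q c1 c2
    refine ⟨?_, fun j a1 a2 a3 => (hJl j a1 (by omega) 0).mono le_rfl (LtSeg.mono le_rfl (by omega)),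
      fun c => H.fjj i (i + 2) (by omega) (by omega) fun _ => c2 c,
      fun _ => H.fjj (i + 1) (i + 2) (by omega) (by omega) fun c => by omega⟩
    rintro z hz z' (⟨w', b1, b2, b3⟩ | ⟨i', b1, b2⟩)
    · rw [dcomm]
      exact H.fin (i + 2) (by omega) w' b1 (fun _ => by omega)
        (fun c => by have := hb2 c; omega) z' b3 z hz
    · exact H.fjj i' (i + 2) (by omega) (by omega) (fun c => by omega) z hz z' b2
  have hA : T k ⊆ LtOld G p m K W M J o' (i + 1) :=
    S.subA.trans (Set.union_subset (LtOld.mono (by omega) (by omega))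
      fun z hz => Or.inr ⟨i, by omega, hz⟩)
  have hB : T (k + 1) ⊆ LtOld G p m K W M J o' (i + 1) ∪ J (i + 1) :=
    S.subB.trans (Set.union_subset_union_left _ (LtOld.mono (by omega) (by omega)))
  obtain ⟨x₀, hx₀⟩ := S.runA
  rw [ltE, if_pos hi] at hx₀
  by_cases hP : j₂ = η
  · refine ⟨η, fun j => T (if j = k then k + 1 else if j = k + 1 then k else j) ∪
        if j < k then LtSeg L j u u' else if j = k then ∅ else
          LtSeg L η (min (b i) (a (i + 2))) (max (b i) (a (i + 2))) ∪ J (i + 2), hη, hpast,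
      fun j c1 c2 => ?_, ?_, ?_, fun j c1 c2 => ?_, ?_, ?_,
      S.ext H (j₀ := k + 1) hu (fun j => if j = k then k + 1 else if j = k + 1 then k else j) _
        (fun j c1 c2 => by split_ifs <;> omega) (fun j _ j' _ _ _ c => by split_ifs <;> omega)
        (fun j c1 _ c3 => by simp [c1])
        (fun j _ c2 c3 => by simp [show j = k by omega]) (fun j c1 c2 => ?_)
        fun j c1 c2 c3 => ?_⟩
    · simpa [c1, c1.ne, show j ≠ k + 1 by omega] using
        S.go_sub c1 c2 (show u ≤ u' by omega) (show o ≤ o' by omega) (Nat.le_succ i)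
    · simpa using hB
    · simp only [show ¬ k + 1 < k by omega, show k + 1 ≠ k by omega, if_true, if_false]
      exact Set.union_subset (hA.trans Set.subset_union_left)
        (Set.union_subset_union_left _ (H.seg_old hη (by omega) le_rfl))
    · simpa [c1, c1.ne, show j ≠ k + 1 by omega] using
        S.go H (by omega) c1 c2 (show u ≤ u' by omega) hu
    · simpa using S.runB
    · simp only [show ¬ k + 1 < k by omega, show k + 1 ≠ k by omega, if_true, if_false]
      refine ⟨x₀, ((hx₀.mono Set.subset_union_left le_rfl).trans (Run.mono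
        (T := LtSeg L η (min (b i) (a (i + 2))) (max (b i) (a (i + 2)))) (W := W + D) ?_
        (fun z hz => Or.inr (Or.inl hz)) hW)).trans
        (hJ.mono (fun z hz => Or.inr (Or.inr hz)) le_rfl)⟩
      rw [hP] at d3
      rcases le_total (b i) (a (i + 2)) with c | c
      · rw [min_eq_left c, max_eq_right c]
        exact (H.lanes.seg_run hη c d2 l3 d3).mono le_rfl (by omega)
      · rw [min_eq_right c, max_eq_left c]
        exact Run.lk (H.lanes.seg_lk hη l2 c le_rfl le_rfl c l3 d3) le_rfl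
          (H.lanes.seg_near H.geo hη l2 d2 (by omega) d4)
    · by_cases c3 : j < k
      · simp only [c3, c3.ne, show j ≠ k + 1 by omega, if_true, if_false]
        exact S.clr_seg H hi ho (by omega) c3 le_rfl hu (Or.inr rfl) (fun _ => Or.inl c2) hb
      by_cases c4 : j = k
      · simp only [c4, lt_irrefl, if_true, if_false]
        exact LtClr.empty _
      · simp only [show j = k + 1 by omega, show ¬ k + 1 < k by omega,
          show k + 1 ≠ k by omega, if_true, if_false]
        exact (S.clr_seg H hi ho (by omega) hη (by omega) (by omega) (Or.inl rfl)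
          (fun c => absurd rfl c) fun c => by have := hb c; omega).union
          (hJc k (Or.inr hP) fun c => absurd rfl c)
    · simp only [c1, show ¬ k + 1 < k by omega, show k + 1 ≠ k by omega, if_true, if_false]
      exact (H.seg_far hη c1 c2.symm (by omega) hu).union (hJl j c1 (hP ▸ c2) u)
  · refine ⟨j₂, fun j => T (if j = η then k else if j = k then k + 1 else
          if j = k + 1 then j₂ else j) ∪
        if j = η then LtSeg L η (b i) u' else if j < k then LtSeg L j u u' else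
          if j = k then ∅ else LtSeg L j₂ u (a (i + 2)) ∪ J (i + 2), hj, hpast,
      fun j c1 c2 => ?_, ?_, ?_, fun j c1 c2 => ?_, ?_, ?_,
      S.ext H (j₀ := k + 1) hu (fun j => if j = η then k else if j = k then k + 1 else
          if j = k + 1 then j₂ else j) _
        (fun j c1 c2 => by split_ifs <;> omega) (fun j _ j' _ _ _ c => by split_ifs <;> omega)
        (fun j c1 _ c3 => ?_)
        (fun j _ c2 c3 => by simp [show j = k by omega, hη.ne']) (fun j c1 c2 => ?_)
        fun j c1 c2 c3 => ?_⟩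
    · by_cases c3 : j = η
      · simp only [c3, if_true]
        exact Set.union_subset_union hA (LtSeg.mono (Nat.zero_le _) le_rfl)
      · simpa [c1, c1.ne, c3, show j ≠ k + 1 by omega] using
          S.go_sub c1 c3 (show u ≤ u' by omega) (show o ≤ o' by omega) (Nat.le_succ i)
    · simpa [hη.ne'] using hB
    · simp only [show ¬ k + 1 < k by omega, show k + 1 ≠ k by omega, show k + 1 ≠ η by omega,
        if_true, if_false]
      refine Set.union_subset ((S.sub j₂ hj hP).trans (Set.union_subset ?_ ?_))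
        (Set.union_subset_union_left _ (H.seg_old hj d2 (by omega)))
      · exact (LtOld.mono (by omega) (by omega)).trans Set.subset_union_left
      · exact (H.seg_old hj (by omega) (by omega)).trans Set.subset_union_left
    · by_cases c3 : j = η
      · simp only [c3, if_true]
        obtain ⟨z, hz⟩ := H.lanes.ne η hη u' hu
        exact ⟨x₀, z, hz, ((hx₀.mono Set.subset_union_left le_rfl).trans
          (Run.stall (min_le_left _ _) (Or.inr (show β i ∈ LtSeg L η (b i) u' from
            ⟨_, le_rfl, h3, l3⟩)) fun t e1 e2 =>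
            (H.geo.near (e := D) (by omega) l2 (by omega) (by omega)
              (H.lanes.near η hη _ l2 _ l3)).trans hW)).trans
          ((H.lanes.seg_run hη h3 hu l3 hz).mono Set.subset_union_right (by omega))⟩
      · simpa [c1, c1.ne, c3, show j ≠ k + 1 by omega] using
          S.go H (by omega) c1 c3 (show u ≤ u' by omega) hu
    · simpa [hη.ne'] using S.runB
    · simp only [show ¬ k + 1 < k by omega, show k + 1 ≠ k by omega, show k + 1 ≠ η by omega,
        if_true, if_false]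
      obtain ⟨x, y, e1, e2⟩ := S.run j₂ hj hP
      exact ⟨x, ((e2.mono Set.subset_union_left le_rfl).trans
        ((H.lanes.seg_run hj h2 d2 e1 d3).mono (fun z hz => Or.inr (Or.inl hz)) (by omega))).trans
        (hJ.mono (fun z hz => Or.inr (Or.inr hz)) le_rfl)⟩
    · by_cases c4 : j = η
      · simp only [c4, if_true]
        exact LtSeg.mono h1 le_rfl
      · simp [c1, c4]
    · by_cases c5 : j = η
      · simp only [c5, if_true]
        exact S.clr_seg H hi ho (by omega) hη h1 hu (Or.inl rfl) (fun c => absurd rfl c) hb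
      by_cases c3 : j < k
      · simp only [c3, c3.ne, c5, show j ≠ k + 1 by omega, if_true, if_false]
        exact S.clr_seg H hi ho (by omega) c3 le_rfl hu (Or.inr rfl) (fun _ => Or.inl c5) hb
      by_cases c4 : j = k
      · simp only [c4, hη.ne', lt_irrefl, if_true, if_false]
        exact LtClr.empty _
      · simp only [show j = k + 1 by omega, show ¬ k + 1 < k by omega,
          show k + 1 ≠ k by omega, show k + 1 ≠ η by omega, if_true, if_false]
        exact (S.clr_seg H hi ho (by omega) hj le_rfl d2 (Or.inr rfl)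
          (fun _ => Or.inl hP) fun c => by have := hb c; omega).union
          (hJc j₂ (Or.inl rfl) fun _ => Ne.symm hP)
    · simp only [show ¬ k + 1 < k by omega, show k + 1 ≠ k by omega, show k + 1 ≠ η by omega,
        if_false]
      split_ifs with c4
      · exact (H.seg_far hj hη hP d2 hu).union (hJl η hη (Ne.symm hP) _)
      · exact (H.seg_far hj c1 c2.symm d2 hu).union (hJl j c1 c2 u)

theorem LtS.lanes_succ (H : LtS G p m k K K₁ W W₂ M D s L n J a b js je α β)
    (hs : (k + 1) * (M + 6 * W + 4 * K + 1) + M + 1 ≤ s) :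
    ∃ L', LtLanes G p m (k + 1) K (W₂ + 5 * W + 3 * K + D) L' := by
  set W₃ := W₂ + 5 * W + 3 * K + D with hW₃
  obtain ⟨a0, a1, b0⟩ := H.a0
  obtain ⟨bn, bn1, an⟩ := H.bn
  have n1 := H.n1
  rw [Nat.succ_mul] at hs
  have hb1 : 1 < n → M < b 1 := fun c => by
    have := H.win 0 c
    simp only [zero_add] at this
    omega
  have S0 : LtSt G p m k K W W₃ M L n J a b β 0 0 (je 0) 0
      fun j => if j < k then L j 0 else if j = k then J 0 else J 1 := by
    have hf : ∀ j < k, j ≠ je 0 → ∀ j' < k + 2, j ≠ j' →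
        Far G K (L j 0) (if j' < k then L j' 0 else if j' = k then J 0 else J 1) := by
      intro j c1 c2 j' c3 c4
      split_ifs with c5 c6
      · exact fun x hx y hy => le_trans (by have := H.hK; omega)
          (H.lanes.far j c1 j' c5 c4 0 (Nat.zero_le _) 0 (Nat.zero_le _) x hx y hy)
      · exact H.fla 0 (by omega) j c1 0 (Nat.zero_le _) (by omega) fun _ => Or.inl c2
      · exact H.fla 1 (by omega) j c1 0 (Nat.zero_le _) (by omega)
          fun c => by have := hb1 c; omega
    refine ⟨(H.land 0 n1).1, by simp, fun j c1 _ => ?_, by simp, by simp, fun j c1 _ => ?_,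
      ⟨α 0, ?_⟩, ⟨α 1, ?_⟩, fun j c1 j' c2 c3 c4 c5 => ?_⟩
    · simp only [c1, if_true]
      exact fun z hz => Or.inr ⟨0, le_rfl, le_rfl, hz⟩
    · obtain ⟨y, hy⟩ := H.lanes.ne j c1 0 (Nat.zero_le _)
      simp only [c1, if_true]
      exact ⟨y, y, hy, Run.stall le_rfl hy fun u _ e => (H.geo.near (e := 0) (by omega)
        (Nat.zero_le _) (by omega) (by omega) (H.lanes.near j c1 0 (Nat.zero_le _) y hy)).trans
        (by omega)⟩
    · have := (H.run 0 (by omega) 0 (by omega) (by omega) (by omega)).mono le_rfl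
        (show W₂ ≤ W₃ by omega)
      rw [a0] at this
      simpa [ltE, show 0 < n from n1, b0] using this
    · have := (H.run 1 (by omega) (ltE m n a b 1) (by omega) ?_ ?_).mono le_rfl
        (show W₂ ≤ W₃ by omega)
      · rw [a1] at this
        simpa using this
      · unfold ltE
        split_ifs with c
        · exact min_le_left _ _
        · rw [show 1 = n by omega, bn]
      · unfold ltE
        split_ifs with c
        · have := (H.dep 1 c).2.2.2
          omega
        · rw [show 1 = n by omega, bn]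
          omega
    · by_cases d1 : j < k
      · simpa [d1] using hf j d1 c3 j' c2 c5
      by_cases d2 : j' < k
      · simpa [d2] using (hf j' d2 c4 j c1 c5.symm).symm
      have := H.fjj 0 1 (by omega) (by omega) (by omega)
      by_cases d3 : j = k
      · simpa [d1, d2, d3, show j' ≠ k by omega] using this.symm
      · simpa [d1, d2, d3, show j' = k by omega] using this
  have key : ∀ i < n, ∃ u o T, o ≤ u ∧ u ≤ b i ∧ u ≤ a (i + 2) ∧
      LtSt G p m k K W W₃ M L n J a b β u o (je i) i T := by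
    intro i
    induction i with
    | zero => exact fun _ => ⟨0, 0, _, le_rfl, Nat.zero_le _, Nat.zero_le _, S0⟩
    | succ i ih =>
      intro hi
      obtain ⟨u, o, T, c1, c2, c3, S⟩ := ih (by omega)
      have e1 := H.win i hi
      have e2 := (H.land _ hi).2.1
      obtain ⟨η', T', S'⟩ := S.event H (by omega) (by omega) (by omega) c1 c2 c3
        (u' := max (b i) (a (i + 2)) + (M + 2 * W + 2 * K + 1)) (by omega) (by omega) (by omega)
        (fun _ => by omega) fun _ => by omega
      obtain ⟨T'', S''⟩ := S'.reach H (by omega) hi le_rfl (by omega) (H.land _ hi).1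
      exact ⟨_, _, T'', le_rfl, by omega, by rw [show i + 1 + 2 = i + 3 from rfl]; omega, S''⟩
  obtain ⟨i, rfl⟩ : ∃ i, n = i + 1 := ⟨n - 1, by omega⟩
  obtain ⟨u, o, T, c1, c2, c3, S⟩ := key i (by omega)
  obtain ⟨η, T', S'⟩ := S.event H (by omega) (by omega) (by omega) c1 c2 c3 (u' := m)
    (H.land i (by omega)).2.1 (H.dep i (by omega)).2.1 le_rfl (by omega) (by omega)
  have hη := S'.hη
  refine lanes_of_runs (T := fun j => T' (if j < η then j else j + 1)) (fun j hj => ?_)
    fun j c1 j' c2 c3 => S'.far _ (by split_ifs <;> omega) _ (by split_ifs <;> omega)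
      (by split_ifs <;> omega) (by split_ifs <;> omega) (by split_ifs <;> omega)
  have e1 : (if j < η then j else j + 1) < k + 2 := by split_ifs <;> omega
  have e2 : (if j < η then j else j + 1) ≠ η := by split_ifs <;> omega
  generalize (if j < η then j else j + 1) = q at e1 e2
  rcases lt_trichotomy q k with hq | rfl | hq
  · obtain ⟨x, y, -, h⟩ := S'.run q hq e2
    exact ⟨x, y, h⟩
  · obtain ⟨x, h⟩ := S'.runA
    exact ⟨x, _, by simpa [ltE] using h⟩
  · obtain rfl : q = k + 1 := by omega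
    obtain ⟨x, h⟩ := S'.runB
    exact ⟨x, _, by simpa [ltE] using h⟩

end Pool.Agent.MP_77f003_co.H49
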