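import Pool.Agent.MP_77f003_co.H4.LTA
import Pool.Agent.MP_77f003_co.H4.LTB

/-!
The lane theorem.
-/

namespace Pool.Agent.MP_77f003_co.H49

open SimpleGraph

variable {V : Type} {G : SimpleGraph V} {p : ℕ → V} {m k K W : ℕ} {L : ℕ → ℕ → Set V}

/-- The distance to the lanes with a nearest point. -/
structure LtF (G : SimpleGraph V) (m k : ℕ) (L : ℕ → ℕ → Set V) (δ fj fu : V → ℕ) (fy : V → V) :
    Prop where
  j : ∀ x, fj x < k
  u : ∀ x, fu x ≤ m
  y : ∀ x, fy x ∈ L (fj x) (fu x)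
  d : ∀ x, G.dist x (fy x) = δ x
  le : ∀ x, ∀ j < k, ∀ u ≤ m, ∀ y ∈ L j u, δ x ≤ G.dist x y

theorem LtLanes.exists_foot (H : LtLanes G p m k K W L) (hk : 1 ≤ k) :
    ∃ δ fj fu fy, LtF G m k L δ fj fu fy := by
  classical
  have hex : ∀ x, ∃ n, ∃ j < k, ∃ u ≤ m, ∃ y ∈ L j u, G.dist x y = n := fun x => by
    obtain ⟨y, hy⟩ := H.ne 0 hk 0 (Nat.zero_le _)
    exact ⟨_, 0, hk, 0, Nat.zero_le _, y, hy, rfl⟩
  choose fj h1 fu h2 fy h3 h4 using fun x => Nat.find_spec (hex x)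
  exact ⟨fun x => Nat.find (hex x), fj, fu, fy, h1, h2, h3, h4,
    fun x j a1 u a2 y a3 => Nat.find_min' _ ⟨j, a1, u, a2, y, a3, rfl⟩⟩

variable [Fact G.Connected] {δ fj fu : V → ℕ} {fy : V → V}

theorem LtF.lip (F : LtF G m k L δ fj fu fy) (x y : V) : δ x ≤ δ y + G.dist x y := by
  have e1 := F.le x _ (F.j y) _ (F.u y) _ (F.y y)
  have e2 := tri (G := G) x y (fy y)
  rw [F.d] at e2
  omega

theorem LtF.down (F : LtF G m k L δ fj fu fy) (x : V) (h : 0 < δ x) :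
    ∃ y, G.Adj x y ∧ δ y + 1 = δ x := by
  obtain ⟨z, h1, h2⟩ := exists_step (G := G) (x := x) (y := fy x) (k := δ x - 1)
    (by rw [F.d]; omega)
  have e1 := F.le z _ (F.j x) _ (F.u x) _ (F.y x)
  have e2 := F.lip x z
  rw [dist_adj h1] at e2
  exact ⟨z, h1, by omega⟩

theorem LtF.near (F : LtF G m k L δ fj fu fy) (H : LtLanes G p m k K W L) (x : V) :
    G.dist (p (fu x)) x ≤ W + δ x := by
  have e1 := H.near _ (F.j x) _ (F.u x) _ (F.y x)
  have e2 := tri (G := G) (p (fu x)) (fy x) x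
  rw [dcomm (fy x), F.d] at e2
  omega

theorem LtGeo.time (h : LtGeo G p m) {u r : ℕ} {x : V} (hu : u ≤ m) (hx : G.dist (p u) x ≤ r) :
    G.dist (p 0) x ≤ u + r ∧ u ≤ G.dist (p 0) x + r := by
  have e1 := h 0 u (Nat.zero_le _) hu
  have e2 := tri (G := G) (p 0) (p u) x
  have e3 := tri (G := G) (p 0) x (p u)
  rw [dcomm x] at e3
  omega

theorem LtF.leg (F : LtF G m k L δ fj fu fy) {x z : V} (hz : z ∈ LtI G x (fy x)) :
    G.dist x z + δ z ≤ δ x ∧ G.dist z (fy x) ≤ δ z := by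
  have e1 : G.dist x z + G.dist z (fy x) ≤ G.dist x (fy x) := hz
  have e2 := F.le z _ (F.j x) _ (F.u x) _ (F.y x)
  have e3 := F.lip x z
  rw [F.d] at e1
  omega

theorem LtF.leg_far (F : LtF G m k L δ fj fu fy) (H : LtLanes G p m k (6 * K) W L) (x : V) {j w : ℕ}
    (hj : j < k) (hne : j ≠ fj x) (hw : w ≤ m) : Far G K (L j w) (LtI G x (fy x)) := by
  intro y hy z hz
  have e1 := F.leg hz
  have e2 := F.le z j hj w hw y hy
  have e3 := H.far j hj _ (F.j x) hne w hw _ (F.u x) y hy _ (F.y x)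
  have e4 := tri (G := G) y z (fy x)
  rw [dcomm] at e2
  omega

theorem LtF.dep (F : LtF G m k L δ fj fu fy) (H : LtLanes G p m k (6 * K) W L) {U : ℕ} {x x' : V}
    (hx : δ x = U) (c : Prop) (hx' : c → δ x' = U) :
    ∃ (P : Set V) (j a : ℕ) (y : V), j < k ∧ a ≤ m ∧ y ∈ L j a ∧ Lk G P y x ∧
      (∀ z ∈ P, G.dist x z ≤ 3 * U + K) ∧
      (∀ z ∈ P, ∃ z', G.dist z z' ≤ K ∧
        (z' ∈ LtI G x (fy x) ∨ c ∧ fj x' = j ∧ z' ∈ LtI G x' (fy x'))) ∧
      (∀ j' < k, j' ≠ j → ∀ w ≤ m, Far G K (L j' w) P) ∧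
      (c → fj x' ≠ j → Far G K P (LtI G x' (fy x'))) := by
  by_cases hc : c ∧ fj x' ≠ fj x ∧ ¬ Far G K (LtI G x (fy x)) (LtI G x' (fy x'))
  · obtain ⟨c1, c2, c3⟩ := hc
    unfold Far at c3
    push Not at c3
    obtain ⟨z₁, h1, z₂, h2, h3⟩ := c3
    have e1 := F.leg h1
    have e2 := F.leg h2
    have e3 := H.far _ (F.j x') _ (F.j x) c2 _ (F.u x') _ (F.u x) _ (F.y x') _ (F.y x)
    have e4 := tri (G := G) (fy x') z₂ (fy x)
    have e5 := tri (G := G) z₂ z₁ (fy x)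
    have e6 := F.lip z₂ z₁
    have e7 := hx' c1
    rw [dcomm (fy x') z₂] at e4
    rw [dcomm z₂ z₁] at e5 e6
    refine ⟨LtI G x z₁ ∪ LtI G z₁ z₂ ∪ LtI G x' (fy x'), fj x', fu x', fy x', F.j _, F.u _, F.y _,
      ?_, ?_, ?_, fun j' a1 a2 w a3 => ?_, fun _ h => absurd rfl h⟩
    · refine (Lk.trans (Lk.geo fun z hz => Or.inr ?_)
        ((LtI.lk _ _).symm.mono fun z hz => Or.inl (Or.inr hz))).trans
        ((LtI.lk _ _).symm.mono fun z hz => Or.inl (Or.inl hz))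
      have a1 : G.dist x' z₂ + G.dist z₂ (fy x') ≤ G.dist x' (fy x') := h2
      have a2 := tri (G := G) x' z₂ z
      rw [dcomm (fy x') z, dcomm z z₂, dcomm (fy x') z₂] at hz
      change G.dist x' z + G.dist z (fy x') ≤ G.dist x' (fy x')
      omega
    · rintro z ((hz | hz) | hz)
      · have : G.dist x z + G.dist z z₁ ≤ G.dist x z₁ := hz
        omega
      · have : G.dist z₁ z + G.dist z z₂ ≤ G.dist z₁ z₂ := hz
        have := tri (G := G) x z₁ z
        omega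
      · have a1 := F.leg hz
        have a2 := tri (G := G) x z₁ z
        have a3 := tri (G := G) z₁ z₂ z
        have a4 := tri (G := G) z₂ x' z
        rw [dcomm z₂ x'] at a4
        omega
    · rintro z ((hz | hz) | hz)
      · refine ⟨z, by simp, Or.inl ?_⟩
        have a1 : G.dist x z + G.dist z z₁ ≤ G.dist x z₁ := hz
        have a2 : G.dist x z₁ + G.dist z₁ (fy x) ≤ G.dist x (fy x) := h1
        have a3 := tri (G := G) z z₁ (fy x)
        change G.dist x z + G.dist z (fy x) ≤ G.dist x (fy x)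
        omega
      · have : G.dist z₁ z + G.dist z z₂ ≤ G.dist z₁ z₂ := hz
        exact ⟨z₂, by omega, Or.inr ⟨c1, rfl, h2⟩⟩
      · exact ⟨z, by simp, Or.inr ⟨c1, rfl, hz⟩⟩
    · refine Far.union' (Far.union' (fun y hy z hz => ?_) fun y hy z hz => ?_)
        (F.leg_far H x' a1 a2 a3)
      · have b1 : G.dist x z + G.dist z z₁ ≤ G.dist x z₁ := hz
        have b2 := F.le z j' a1 w a3 y hy
        have b3 := F.lip z₁ z
        have b4 := F.lip x z
        have b5 := F.lip x z₁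
        have b6 : G.dist x z₁ + G.dist z₁ (fy x) ≤ G.dist x (fy x) := h1
        rw [dcomm] at b2
        omega
      · have b1 : G.dist z₁ z + G.dist z z₂ ≤ G.dist z₁ z₂ := hz
        have b2 := F.le z j' a1 w a3 y hy
        have b3 := F.lip z₁ z
        rw [dcomm] at b2
        omega
  · refine ⟨LtI G x (fy x), fj x, fu x, fy x, F.j _, F.u _, F.y _, (LtI.lk _ _).symm,
      fun z hz => ?_, fun z hz => ⟨z, by simp, Or.inl hz⟩,
      fun j' a1 a2 w a3 => F.leg_far H x a1 a2 a3, fun c1 c2 => ?_⟩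
    · have := F.leg hz
      omega
    · by_contra c3
      exact hc ⟨c1, c2, c3⟩

theorem LtF.jump (F : LtF G m k L δ fj fu fy) (H : LtLanes G p m k K W L) (hp : LtGeo G p m)
    (hk : 1 ≤ k) {U g Λ t : ℕ} (hU : W < U) (hg : 1 ≤ g) (ht : t ≤ m)
    (h : LtDet G p m (g + 2 * (W + U)) Λ t) : ∃ (w : ℕ → V) (n : ℕ), n ≤ Λ ∧
      (∀ i < n, G.Adj (w i) (w (i + 1))) ∧ δ (w 0) = U ∧ δ (w n) = U ∧ (∀ i ≤ n, U ≤ δ (w i)) ∧
      G.dist (p 0) (w 0) + g ≤ t ∧ t + g ≤ G.dist (p 0) (w n) := by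
  classical
  obtain ⟨a, b, n, w, h1, h2, h3, h4, h5, h6, h7, h8⟩ := h
  have hδ : ∀ u ≤ m, δ (p u) ≤ W := fun u hu => by
    obtain ⟨y, hy⟩ := H.ne 0 hk u hu
    exact (F.le _ 0 hk u hu y hy).trans (H.near 0 hk u hu y hy)
  have hs : ∀ i ≤ n, δ (w i) ≤ U →
      G.dist (p 0) (w i) + g ≤ t ∨ t + g ≤ G.dist (p 0) (w i) := by
    intro i hi hd
    have e1 := F.near H (w i)
    have e2 := hp.time (F.u (w i)) e1
    have e3 := h8 i hi
    by_contra hc
    have := hp.near (e := g + W + U) ht (F.u (w i)) (by omega) (by omega) e1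
    omega
  have f1 : G.dist (p 0) (w 0) = a := by rw [h5, hp 0 a (Nat.zero_le _) (by omega)]; rfl
  have f2 : G.dist (p 0) (w n) = b := by rw [h6, hp 0 b (Nat.zero_le _) h3]; rfl
  have d1 : δ (w 0) ≤ W := h5 ▸ hδ a (by omega)
  have d2 : δ (w n) ≤ W := h6 ▸ hδ b h3
  set P : ℕ → Prop := fun i => δ (w i) ≤ U ∧ G.dist (p 0) (w i) + g ≤ t with hP
  have e1 : P (Nat.findGreatest P n) := Nat.findGreatest_spec (Nat.zero_le n)
    ⟨by omega, by have := hs 0 (Nat.zero_le _) (by omega); omega⟩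
  have e2 := Nat.findGreatest_le (P := P) n
  have e0 : ∀ i, Nat.findGreatest P n < i → i ≤ n → ¬ P i :=
    fun i a1 a2 => Nat.findGreatest_is_greatest a1 a2
  set i₀ := Nat.findGreatest P n with hi₀
  have e3 : i₀ < n := lt_of_le_of_ne e2 fun h => by
    have := e1.2
    rw [h] at this
    omega
  have hex : ∃ i, i₀ < i ∧ δ (w i) ≤ U := ⟨n, e3, by omega⟩
  have e4 := Nat.find_min' hex ⟨e3, (by omega : δ (w n) ≤ U)⟩
  obtain ⟨e5, e6⟩ := Nat.find_spec hex
  have e7 : ∀ i, i₀ < i → i < Nat.find hex → U < δ (w i) := fun i a1 a2 => by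
    by_contra hc
    exact Nat.find_min hex a2 ⟨a1, by omega⟩
  set i₁ := Nat.find hex with hi₁
  have e8 : t + g ≤ G.dist (p 0) (w i₁) :=
    (hs i₁ e4 e6).resolve_left fun hc => e0 i₁ e5 e4 ⟨e6, hc⟩
  have e9 : i₀ + 1 < i₁ := by
    by_contra hc
    have a1 := tri (G := G) (p 0) (w i₀) (w (i₀ + 1))
    rw [dist_adj (h7 i₀ e3), show i₀ + 1 = i₁ by omega] at a1
    have := e1.2
    omega
  have g1 : δ (w i₀) = U := by
    have a1 := F.lip (w (i₀ + 1)) (w i₀)
    rw [dist_adj (h7 i₀ e3).symm] at a1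
    have := e7 (i₀ + 1) (Nat.lt_succ_self _) e9
    have := e1.1
    omega
  have g2 : δ (w i₁) = U := by
    have a1 := F.lip (w (i₁ - 1)) (w (i₁ - 1 + 1))
    rw [dist_adj (h7 _ (by omega)), show i₁ - 1 + 1 = i₁ by omega] at a1
    have := e7 (i₁ - 1) (by omega) (by omega)
    omega
  refine ⟨fun i => w (i₀ + i), i₁ - i₀, by omega, fun i hi => h7 _ (by omega), g1, ?_,
    fun i hi => ?_, e1.2, ?_⟩
  · simpa [Nat.add_sub_cancel' e5.le] using g2
  · rcases Nat.eq_zero_or_pos i with rfl | a1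
    · exact g1.ge
    · rcases hi.lt_or_eq with a2 | rfl
      · exact (e7 _ (by omega) (by omega)).le
      · simpa [Nat.add_sub_cancel' e5.le] using g2.ge
  · simpa [Nat.add_sub_cancel' e5.le] using e8

omit [Fact G.Connected] in
theorem lt_mono {a b : ℕ → ℕ} {n s : ℕ} (H : ∀ i, i + 1 < n → b i + s ≤ b (i + 1) ∧
    b i + s ≤ a (i + 3) ∧ a (i + 2) + s ≤ b (i + 1) ∧ a (i + 2) + s ≤ a (i + 3)) {i i' : ℕ}
    (h : i < i') (h' : i' < n) : b i + s ≤ b i' ∧ b i + s ≤ a (i' + 2) ∧ a (i + 2) + s ≤ b i' ∧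
      a (i + 2) + s ≤ a (i' + 2) := by
  induction h with
  | refl => exact H i h'
  | @step j h ih =>
    have e1 := ih (by omega)
    have e2 := H j h'
    simp only [Nat.succ_eq_add_one, add_assoc, Nat.reduceAdd] at *
    omega

theorem LtF.system (F : LtF G m k L δ fj fu fy) (H : LtLanes G p m k (6 * K) W L) (hp : LtGeo G p m)
    (hk : 1 ≤ k) (hK : 1 ≤ K) {U Λ s s' Q C N : ℕ} {x : ℕ → V} {st en : ℕ → ℕ}
    (hQ : Q = 4 * K + 1) (hU : 6 * Q + 6 + 2 * W + 2 * K ≤ U) (hC : C = W + 2 * (3 * U + K))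
    (hs : 2 * C + K ≤ s) (hs' : s + 2 * C ≤ s')
    (J : LtJ G δ (fun z => G.dist (p 0) z) U Λ s' Q m x N st en) :
    ∃ Js a b js je α β, LtS G p m k K (6 * K) W
      (9 * (W + ltB U Λ s' Q) + 2 * (ltB U Λ s' Q + 2 * (2 * s' + 2 * C) + C + Λ) + 1)
      (C + W + 2 * K) (2 * s' + 2 * C) s L N Js a b js je α β := by
  set B := ltB U Λ s' Q with hB
  set D := 2 * s' + 2 * C with hD
  have n1 := J.n1
  obtain ⟨y₀, hy₀⟩ := H.ne 0 hk 0 (Nat.zero_le _)
  obtain ⟨y₁, hy₁⟩ := H.ne 0 hk m le_rfl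
  have hcore : ∀ i, 1 ≤ i → i ≤ N → ∀ r, st i ≤ r → r ≤ en i → ∀ w ≤ m,
      ∀ y, G.dist (p w) y ≤ W + K → K ≤ G.dist y (x r) := by
    intro i a1 a2 r a3 a4 w a5 y hy
    obtain ⟨z, hz⟩ := H.ne 0 hk w a5
    have e1 := (J.dep i a1 a2 r a3 a4).1
    have e2 := F.le (x r) 0 hk w a5 z hz
    have e3 := H.near 0 hk w a5 z hz
    have e4 := tri (G := G) (x r) y z
    have e5 := tri (G := G) y (p w) z
    rw [dcomm y (p w)] at e5
    rw [dcomm y]
    omega
  have hleg : ∀ i, 1 ≤ i → i ≤ N → ∀ r, st i ≤ r → r ≤ en i → δ (x r) = U →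
      ∀ z ∈ LtI G (x r) (fy (x r)), ∀ i', 1 ≤ i' → i' ≤ N → i ≠ i' → ∀ r', st i' ≤ r' →
      r' ≤ en i' → 2 * K ≤ G.dist z (x r') := by
    intro i a1 a2 r a3 a4 a5 z hz i' b1 b2 hne r' b3 b4
    have e1 := J.key i a1 a2 i' b1 b2 hne r r' a3 a4 b3 b4
    have e2 := F.leg hz
    have e3 := tri (G := G) (x r) z (x r')
    have e4 := F.lip (x r') z
    rw [dcomm] at e4
    omega
  have hLD : ∀ i, ∃ (P : Set V) (j b : ℕ) (y : V), (N ≤ i → P = ∅ ∧ b = m) ∧
      (i = 0 → P = {y} ∧ b = 0 ∧ j = 0 ∧ y = y₀) ∧ (i = N → y = x (en N)) ∧ (i = N + 1 → y = y₁) ∧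
      (1 ≤ i → i < N → P = LtI G (x (en i)) (fy (x (en i))) ∧ j = fj (x (en i)) ∧
        y = fy (x (en i)) ∧ b = fu (x (en i))) := by
    intro i
    by_cases c1 : i = 0
    · exact ⟨{y₀}, 0, 0, y₀, by omega, by simp, by omega, by omega, by omega⟩
    by_cases c2 : i < N
    · exact ⟨_, _, _, _, by omega, by omega, by omega, by omega, fun _ _ => ⟨rfl, rfl, rfl, rfl⟩⟩
    by_cases c3 : i = N
    · exact ⟨∅, 0, m, x (en N), by simp, by omega, by simp, by omega, by omega⟩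
    · exact ⟨∅, 0, m, y₁, by simp, by omega, by omega, by simp, by omega⟩
  choose LD je b β l1 l2 l3 l4 l5 using hLD
  have hDP : ∀ i, ∃ (P : Set V) (j a : ℕ) (y : V), (i ≤ 1 → P = ∅ ∧ a = 0) ∧ (i = 0 → y = y₀) ∧
      (i = 1 → y = x (st 1)) ∧ (i = N + 1 → P = {y} ∧ a = m ∧ j = 0 ∧ y = y₁) ∧
      (2 ≤ i → i ≤ N → j < k ∧ a ≤ m ∧ y ∈ L j a ∧ Lk G P y (x (st i)) ∧
        (∀ z ∈ P, G.dist (x (st i)) z ≤ 3 * U + K) ∧
        (∀ z ∈ P, ∃ z', G.dist z z' ≤ K ∧ (z' ∈ LtI G (x (st i)) (fy (x (st i))) ∨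
          3 ≤ i ∧ fj (x (en (i - 2))) = j ∧ z' ∈ LtI G (x (en (i - 2))) (fy (x (en (i - 2)))))) ∧
        (∀ j' < k, j' ≠ j → ∀ w ≤ m, Far G K (L j' w) P) ∧
        (3 ≤ i → fj (x (en (i - 2))) ≠ j →
          Far G K P (LtI G (x (en (i - 2))) (fy (x (en (i - 2))))))) := by
    intro i
    by_cases c1 : i = 0
    · exact ⟨∅, 0, 0, y₀, by simp, by simp, by omega, by omega, by omega⟩
    by_cases c2 : i = 1
    · exact ⟨∅, 0, 0, x (st 1), by simp, by omega, by simp, by omega, by omega⟩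
    by_cases c3 : i ≤ N
    · obtain ⟨P, j, a, y, h⟩ := F.dep H (J.ds i (by omega) c3) (3 ≤ i)
        fun c => J.de (i - 2) (by omega) (by omega)
      exact ⟨P, j, a, y, by omega, by omega, by omega, by omega, fun _ _ => h⟩
    · exact ⟨{y₁}, 0, m, y₁, by omega, by omega, by omega, by simp, by omega⟩
  choose DP js a α d1 d2 d3 d4 d5 using hDP
  have hland : ∀ i < N, je i < k ∧ b i ≤ m ∧ β i ∈ L (je i) (b i) := by
    intro i hi
    rcases Nat.eq_zero_or_pos i with rfl | c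
    · obtain ⟨-, e2, e3, e4⟩ := l2 0 rfl
      rw [e2, e3, e4]
      exact ⟨hk, Nat.zero_le _, hy₀⟩
    · obtain ⟨-, e2, e3, e4⟩ := l5 i c hi
      rw [e2, e3, e4]
      exact ⟨F.j _, F.u _, F.y _⟩
  have hdep : ∀ i, 2 ≤ i → i ≤ N + 1 → js i < k ∧ a i ≤ m ∧ α i ∈ L (js i) (a i) := by
    intro i c hi
    rcases hi.lt_or_eq with hi | hi
    · obtain ⟨e1, e2, e3, -⟩ := d5 i c (by omega)
      exact ⟨e1, e2, e3⟩
    · obtain ⟨-, e2, e3, e4⟩ := d4 i hi
      rw [e2, e3, e4]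
      exact ⟨hk, le_rfl, hy₁⟩
  have hLn : ∀ i, ∀ z ∈ LD i, i < N ∧ G.dist (p (b i)) z ≤ C := by
    intro i z hz
    have hi : i < N := by
      by_contra hc
      simp [(l1 i (by omega)).1] at hz
    refine ⟨hi, ?_⟩
    obtain ⟨e1, e2, e3⟩ := hland i hi
    have e4 := H.near _ e1 _ e2 _ e3
    rcases Nat.eq_zero_or_pos i with rfl | c
    · rw [(l2 0 rfl).1] at hz
      rw [hz]
      omega
    · obtain ⟨a1, -, a3, -⟩ := l5 i c hi
      rw [a1] at hz
      have e5 := F.leg hz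
      have e6 := J.de i c hi.le
      have e7 := tri (G := G) (p (b i)) (β i) z
      rw [dcomm (β i), a3] at e7
      rw [a3] at e4
      omega
  have hDn : ∀ i ≤ N + 1, ∀ z ∈ DP i, 2 ≤ i ∧ G.dist (p (a i)) z ≤ C := by
    intro i hi z hz
    have c : 2 ≤ i := by
      by_contra hc
      simp [(d1 i (by omega)).1] at hz
    refine ⟨c, ?_⟩
    obtain ⟨e1, e2, e3⟩ := hdep i c hi
    have e4 := H.near _ e1 _ e2 _ e3
    rcases hi.lt_or_eq with hi | hi
    · obtain ⟨-, -, -, a1, a2, -⟩ := d5 i c (by omega)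
      have e5 := a2 z hz
      have e6 := a2 _ a1.left
      have e7 := tri (G := G) (p (a i)) (α i) z
      have e8 := tri (G := G) (α i) (x (st i)) z
      rw [dcomm (α i) (x _)] at e8
      omega
    · rw [(d4 i hi).1] at hz
      rw [hz]
      omega
  have hLl : ∀ i < N, ∀ j < k, j ≠ je i → ∀ w ≤ m, Far G K (L j w) (LD i) := by
    intro i hi j c1 c2 w c3
    rcases Nat.eq_zero_or_pos i with rfl | c
    · obtain ⟨e1, e2, e3⟩ := hland 0 hi
      rw [(l2 0 rfl).1]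
      rintro y hy z rfl
      have := H.far j c1 _ e1 c2 w c3 _ e2 y hy _ e3
      omega
    · obtain ⟨a1, a2, -⟩ := l5 i c hi
      rw [a1]
      exact F.leg_far H _ c1 (a2 ▸ c2) c3
  have hDl : ∀ i, 2 ≤ i → i ≤ N + 1 → ∀ j < k, j ≠ js i → ∀ w ≤ m, Far G K (L j w) (DP i) := by
    intro i c hi j c1 c2 w c3
    rcases hi.lt_or_eq with hi' | hi'
    · exact (d5 i c (by omega)).2.2.2.2.2.2.1 j c1 c2 w c3
    · obtain ⟨e1, e2, e3⟩ := hdep i c hi
      rw [(d4 i hi').1]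
      rintro y hy z rfl
      have := H.far j c1 _ e1 c2 w c3 _ e2 y hy _ e3
      omega
  have hbt : ∀ i, 1 ≤ i → i < N →
      G.dist (p 0) (x (en i)) ≤ b i + C ∧ b i ≤ G.dist (p 0) (x (en i)) + C := fun i c hi =>
    hp.time (hland i hi).2.1 (hLn i _ ((l5 i c hi).1 ▸ (LtI.lk _ _).left)).2
  have hat : ∀ i, 2 ≤ i → i ≤ N →
      G.dist (p 0) (x (st i)) ≤ a i + C ∧ a i ≤ G.dist (p 0) (x (st i)) + C := fun i c hi =>
    hp.time (hdep i c (by omega)).2.1 (hDn i (by omega) _ (d5 i c hi).2.2.2.1.right).2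
  have b0 := (l2 0 rfl).2.1
  have an := (d4 _ rfl).2.1
  have hwin : ∀ i, i + 1 < N → b i + s ≤ b (i + 1) ∧ b i + s ≤ a (i + 3) ∧
      a (i + 2) + s ≤ b (i + 1) ∧ a (i + 2) + s ≤ a (i + 3) := by
    intro i hi
    have e1 := J.ov (i + 1) (by omega) hi
    have e2 := hbt (i + 1) (by omega) hi
    have e3 := hat (i + 2) (by omega) hi
    have e4 := (hland (i + 1) hi).2.1
    have e5 : 1 ≤ i → b i + s ≤ b (i + 1) := fun c => by
      have := (J.two i (i + 1) c (by omega) hi).2.2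
      have := hbt i c (by omega)
      omega
    simp only [add_assoc, Nat.reduceAdd] at e1
    by_cases c : i + 2 < N
    · have e6 := (J.two (i + 1) (i + 2) (by omega) (by omega) c).2.1
      have e7 := hat (i + 3) (by omega) c
      have e8 : 1 ≤ i → b i + s ≤ a (i + 3) := fun c' => by
        have := J.three i (i + 2) c' le_rfl c
        have := hbt i c' (by omega)
        simp only [add_assoc, Nat.reduceAdd] at *
        omega
      simp only [add_assoc, Nat.reduceAdd] at e6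
      rcases Nat.eq_zero_or_pos i with rfl | c'
      · omega
      · have := e5 c'
        have := e8 c'
        omega
    · rw [show i + 3 = N + 1 by omega, an]
      rcases Nat.eq_zero_or_pos i with rfl | c'
      · omega
      · have := e5 c'
        omega
  have hsep : ∀ {u v : ℕ} {y z : V}, u ≤ m → v ≤ m → G.dist (p u) y ≤ C → G.dist (p v) z ≤ C →
      u + s ≤ v ∨ v + s ≤ u → K ≤ G.dist y z := by
    intro u v y z c1 c2 c3 c4 c5
    have := hp.sep c1 c2 c3 c4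
    omega
  set X : ℕ → Set V := fun i => {z | ∃ r, 1 ≤ i ∧ i ≤ N ∧ st i ≤ r ∧ r ≤ en i ∧ z = x r} with hX
  have hXL : ∀ i i', i ≠ i' → Far G K (LD i) (X i') := by
    rintro i i' hne z hz _ ⟨r, a1, a2, a3, a4, rfl⟩
    obtain ⟨hi, -⟩ := hLn i z hz
    rcases Nat.eq_zero_or_pos i with rfl | c
    · obtain ⟨e1, e2, e3⟩ := hland 0 hi
      rw [(l2 0 rfl).1] at hz
      exact hz ▸ hcore i' a1 a2 r a3 a4 _ e2 _ ((H.near _ e1 _ e2 _ e3).trans (by omega))
    · rw [(l5 i c hi).1] at hz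
      have := hleg i c hi.le _ (J.le i c hi.le) le_rfl (J.de i c hi.le) z hz i' a1 a2 hne r a3 a4
      omega
  have hXD : ∀ i ≤ N + 1, ∀ i', i ≠ i' → (i = i' + 2 → je i' ≠ js i) → Far G K (DP i) (X i') := by
    rintro i hi i' hne hc z hz _ ⟨r, a1, a2, a3, a4, rfl⟩
    obtain ⟨c, -⟩ := hDn i hi z hz
    rcases hi.lt_or_eq with hi' | hi'
    · obtain ⟨z', e1, e2⟩ := (d5 i c (by omega)).2.2.2.2.2.1 z hz
      have e3 := tri (G := G) z' z (x r)
      rw [dcomm z' z] at e3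
      rcases e2 with e2 | ⟨e2, e4, e5⟩
      · have := hleg i (by omega) (by omega) _ le_rfl (J.le i (by omega) (by omega))
          (J.ds i (by omega) (by omega)) z' e2 i' a1 a2 hne r a3 a4
        omega
      · have := hleg (i - 2) (by omega) (by omega) _ (J.le _ (by omega) (by omega)) le_rfl
          (J.de _ (by omega) (by omega)) z' e5 i' a1 a2 (fun e => hc (by omega) (by
            rw [← e, ← e4]
            exact (l5 _ (by omega) (by omega)).2.1)) r a3 a4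
        omega
    · obtain ⟨e1, e2, e3⟩ := hdep i c hi
      rw [(d4 i hi').1] at hz
      exact hz ▸ hcore i' a1 a2 r a3 a4 _ e2 _ ((H.near _ e1 _ e2 _ e3).trans (by omega))
  have hLD : ∀ i, ∀ i' ≤ N + 1, (i' = i + 2 → je i ≠ js i') → Far G K (DP i') (LD i) := by
    intro i i' hi' hc z hz y hy
    obtain ⟨a1, a2⟩ := hLn i y hy
    obtain ⟨b1, b2⟩ := hDn i' hi' z hz
    obtain ⟨l, rfl⟩ : ∃ l, i' = l + 2 := ⟨i' - 2, by omega⟩
    rcases lt_trichotomy l i with c | rfl | c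
    · exact hsep (hdep _ b1 hi').2.1 (hland i a1).2.1 b2 a2 (Or.inl (lt_mono hwin c a1).2.2.1)
    · have hc := hc rfl
      rcases Nat.eq_zero_or_pos l with rfl | c
      · obtain ⟨e1, e2, e3⟩ := hland 0 a1
        rw [(l2 0 rfl).1] at hy
        rw [hy, dcomm]
        exact hDl _ b1 hi' _ e1 hc _ e2 _ e3 z hz
      rcases hi'.lt_or_eq with c' | c'
      · obtain ⟨e1, e2, -⟩ := l5 l c a1
        exact (d5 _ b1 (by omega)).2.2.2.2.2.2.2 (by omega) (e2 ▸ hc) z hz y (e1 ▸ hy)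
      · obtain ⟨e1, e2, e3⟩ := hdep _ b1 hi'
        rw [(d4 _ c').1] at hz
        exact hz ▸ hLl l a1 _ e1 hc.symm _ e2 _ e3 y hy
    · exact hsep (hdep _ b1 hi').2.1 (hland i a1).2.1 b2 a2
        (Or.inr (lt_mono hwin c (by omega)).2.1)
  refine ⟨fun i => X i ∪ DP i ∪ LD i, a, b, js, je, α, β, hp, H, by omega, n1,
    ⟨(d1 0 (by omega)).2, (d1 1 le_rfl).2, b0⟩, ⟨(l1 N le_rfl).2, (l1 _ (by omega)).2, an⟩,
    fun i hi t c1 c2 c3 => ?_, hland, fun i hi => ?_, hwin, fun i hi w c1 c2 c3 => ?_,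
    fun i hi j c0 w c1 c2 c3 => ?_, fun i i' c1 c2 c3 => ?_⟩
  · by_cases i0 : i = 0
    · subst i0
      obtain ⟨e1, -, -, e2⟩ := l2 0 rfl
      rw [(d1 0 (by omega)).2, d2 0 rfl, show t = 0 by omega, e2]
      exact Run.stall le_rfl (Or.inr (by rw [e1, e2]; rfl)) fun u _ e => by
        rw [Nat.le_zero.1 e]
        exact (H.near 0 hk 0 (Nat.zero_le _) _ hy₀).trans (by omega)
    by_cases i1 : i = N + 1
    · obtain ⟨e1, e2, -, e3⟩ := d4 i i1
      have := (l1 i (by omega)).2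
      rw [l4 i i1, show t = m by omega, e2, e3]
      exact Run.stall le_rfl (Or.inl (Or.inr (by rw [e1, e3]; rfl))) fun u e e' => by
        rw [show u = m by omega]
        exact (H.near 0 hk m le_rfl _ hy₁).trans (by omega)
    have g1 : 1 ≤ i := by omega
    have g2 : i ≤ N := by omega
    have g3 := J.le i g1 g2
    have hbm : b i ≤ m := by
      rcases g2.lt_or_eq with c | c
      · exact (hland i c).2.1
      · exact (l1 i c.ge).2.le
    have hr : ∀ r, st i ≤ r → r ≤ en i → G.dist (p (fu (x r))) (x r) ≤ W + B := fun r a1 a2 =>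
      (F.near H _).trans (by have := (J.dep i g1 g2 r a1 a2).2; omega)
    have hr' : ∀ r, st i ≤ r → r ≤ en i → G.dist (p 0) (x r) ≤ fu (x r) + (W + B) ∧
        fu (x r) ≤ G.dist (p 0) (x r) + (W + B) := fun r a1 a2 => hp.time (F.u _) (hr r a1 a2)
    have sa : G.dist (p 0) (x (st i)) ≤ a i + (C + Λ) ∧ a i ≤ G.dist (p 0) (x (st i)) + C := by
      rcases g1.lt_or_eq with c | c
      · have := hat i c g2
        omega
      · have e1 := J.f0
        have e2 := (d1 i c.ge).2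
        rw [c] at e1
        omega
    have sb : G.dist (p 0) (x (en i)) ≤ b i + (C + W + B) ∧
        b i ≤ G.dist (p 0) (x (en i)) + (C + Λ) := by
      rcases g2.lt_or_eq with c | c
      · have := hbt i g1 c
        omega
      · have e1 := J.fn
        have e2 := (l1 i c.ge).2
        have e3 := hr' _ g3 le_rfl
        have e4 := F.u (x (en i))
        rw [← c] at e1
        omega
    have hw := run_walk (T := X i ∪ DP i ∪ LD i) hp (t := fun r => fu (x r))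
      (B := B + 3 * (W + B) + D + C + Λ) (E := W + B) g3 c1 (by omega) (J.adj i g1 g2)
      (fun r a1 a2 => ⟨Or.inl (Or.inl ⟨r, g1, g2, a1, a2, rfl⟩), F.u _, hr r a1 a2, ?_, ?_⟩)
      (by have := hr' _ le_rfl g3; omega) (by have := hr' _ g3 le_rfl; omega)
      fun r r' a1 a2 a3 => ?_
    · refine (Run.trans ?_ (hw.mono le_rfl (by omega))).trans ?_
      · rcases g1.lt_or_eq with c | c
        · exact Run.lk (d5 i c g2).2.2.2.1 (fun z hz => Or.inl (Or.inr hz))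
            fun z hz => (hDn i hi z hz).2.trans (by omega)
        · rw [d3 i c.symm, c]
          refine Run.stall le_rfl (Or.inl (Or.inl ⟨_, g1, g2, le_rfl, g3, rfl⟩)) fun u e e' => ?_
          have := hr' _ le_rfl g3
          exact (hp.near (e := W + B + C + Λ) (by omega) (F.u _) (by omega) (by omega)
            (hr _ le_rfl g3)).trans (by omega)
      · rcases g2.lt_or_eq with c | c
        · obtain ⟨e1, -, e3, -⟩ := l5 i g1 c
          exact Run.lk (S := LD i) (by rw [e1, e3]; exact LtI.lk _ _) (fun z hz => Or.inr hz)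
            fun z hz => (hp.near (e := D) (by omega) hbm (by omega) (by omega)
              (hLn i z hz).2).trans (by omega)
        · rw [l3 i c, ← c]
          refine Run.stall le_rfl (Or.inl (Or.inl ⟨_, g1, g2, g3, le_rfl, rfl⟩)) fun u e e' => ?_
          have := hr' _ g3 le_rfl
          exact (hp.near (e := 2 * (W + B) + C + Λ + D) (by omega) (F.u _) (by omega) (by omega)
            (hr _ g3 le_rfl)).trans (by omega)
    · have := J.back i g1 g2 _ r le_rfl a1 a2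
      have := hr' r a1 a2
      omega
    · have := J.back i g1 g2 r _ a1 a2 le_rfl
      have := hr' r a1 a2
      omega
    · have := J.back i g1 g2 r r' a1 a2 a3
      have := hr' r a1 (by omega)
      have := hr' r' (by omega) a3
      omega
  · obtain ⟨e1, e2, e3⟩ := hdep (i + 2) (by omega) (by omega)
    refine ⟨e1, e2, e3, ?_⟩
    rcases Nat.eq_zero_or_pos i with rfl | c
    · omega
    by_cases c' : i + 1 < N
    · have := (J.two i (i + 1) c (by omega) c').1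
      have := hbt i c hi
      have := hat (i + 2) (by omega) c'
      simp only [add_assoc, Nat.reduceAdd] at *
      omega
    · have := (hland i hi).2.1
      rw [show i + 2 = N + 1 by omega, an]
      omega
  · rintro y hy z ((⟨r, a1, a2, a3, a4, rfl⟩ | hz) | hz)
    · exact hcore i a1 a2 r a3 a4 w c1 y hy
    · obtain ⟨e1, e2⟩ := hDn i hi z hz
      have := hp.sep c1 (hdep i e1 hi).2.1 hy e2
      have := c2 e1
      omega
    · obtain ⟨e1, e2⟩ := hLn i z hz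
      have := hp.sep c1 (hland i e1).2.1 hy e2
      have := c3 e1
      omega
  · intro y hy
    have hy' := H.near j c0 w c1 y hy
    rintro z ((⟨r, a1, a2, a3, a4, rfl⟩ | hz) | hz)
    · exact hcore i a1 a2 r a3 a4 w c1 y (by omega)
    · obtain ⟨e1, e2⟩ := hDn i hi z hz
      rcases c2 e1 with c | c
      · exact hDl i e1 hi j c0 c w c1 y hy z hz
      · have := hp.sep c1 (hdep i e1 hi).2.1 hy' e2
        omega
    · obtain ⟨e1, e2⟩ := hLn i z hz
      rcases c3 e1 with c | c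
      · exact hLl i e1 j c0 c w c1 y hy z hz
      · have := hp.sep c1 (hland i e1).2.1 hy' e2
        omega
  · refine ((Far.union' (Far.union' ?_ (hXD i (by omega) i' c1.ne (by omega)).symm)
      (hXL i i' c1.ne).symm).union (Far.union' (Far.union' (hXD i' c2 i c1.ne' c3) ?_)
      (hLD i i' c2 c3))).union (Far.union' (Far.union' (hXL i' i c1.ne')
      (hLD i' i (by omega) (by omega)).symm) ?_)
    · rintro _ ⟨r', b1, b2, b3, b4, rfl⟩ _ ⟨r, a1, a2, a3, a4, rfl⟩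
      have := J.key i' b1 b2 i a1 a2 c1.ne' r' r b3 b4 a3 a4
      omega
    · intro z' hz' z hz
      obtain ⟨e1, e2⟩ := hDn i (by omega) z hz
      obtain ⟨e3, e4⟩ := hDn i' c2 z' hz'
      have := (lt_mono hwin (show i - 2 < i' - 2 by omega) (by omega)).2.2.2
      rw [show i - 2 + 2 = i by omega, show i' - 2 + 2 = i' by omega] at this
      exact hsep (hdep _ e3 c2).2.1 (hdep _ e1 (by omega)).2.1 e4 e2 (Or.inr this)
    · intro z' hz' z hz
      obtain ⟨e1, e2⟩ := hLn i z hz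
      obtain ⟨e3, e4⟩ := hLn i' z' hz'
      exact hsep (hland _ e3).2.1 (hland _ e1).2.1 e4 e2 (Or.inr (lt_mono hwin c1 e3).1)

theorem lt_step (k K W : ℕ) (R : ℕ → ℕ) (hk : 1 ≤ k) (hK : 1 ≤ K) : ∃ W' ρ : ℕ, ∀ {V : Type}
    (G : SimpleGraph V) [Fact G.Connected] (p : ℕ → V) (m : ℕ) (L : ℕ → ℕ → Set V), LtGeo G p m →
    W' ≤ m → LtLanes G p m k (6 * K) W L → (∀ t, R ρ ≤ t → t + R ρ ≤ m → LtDet G p m ρ (R ρ) t) →
    ∃ L', LtLanes G p m (k + 1) K W' L' := by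
  obtain ⟨Q, hQ⟩ : ∃ Q, Q = 4 * K + 1 := ⟨_, rfl⟩
  obtain ⟨U, hU⟩ : ∃ U, U = 6 * Q + 6 + 2 * W + 2 * K := ⟨_, rfl⟩
  obtain ⟨C, hC⟩ : ∃ C, C = W + 2 * (3 * U + K) := ⟨_, rfl⟩
  obtain ⟨s, hs⟩ : ∃ s, s = (k + 1) * (C + W + 2 * K + 6 * W + 4 * K + 1) + (C + W + 2 * K) + 1 +
    (2 * C + K) := ⟨_, rfl⟩
  obtain ⟨g, hg⟩ : ∃ g, g = 5 * (s + 2 * C) + 2 * (Q + 1) := ⟨_, rfl⟩
  obtain ⟨Λ, hΛ⟩ : ∃ Λ, Λ = R (g + 2 * (W + U)) := ⟨_, rfl⟩
  refine ⟨9 * (W + ltB U Λ (s + 2 * C) Q) + 2 * (ltB U Λ (s + 2 * C) Q +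
    2 * (2 * (s + 2 * C) + 2 * C) + C + Λ) + 1 + 5 * W + 3 * K + (2 * (s + 2 * C) + 2 * C),
    g + 2 * (W + U), fun G _ p m L hp hm H hd => ?_⟩
  obtain ⟨δ, fj, fu, fy, F⟩ := H.exists_foot hk
  have D : LtD G δ (fun z => G.dist (p 0) z) U Λ (s + 2 * C) Q g m :=
    ⟨F.lip, fun x y => by have := tri (G := G) (p 0) y x; rwa [dcomm y x] at this, F.down,
      by omega, by omega, by omega, by omega, by omega, fun t a1 a2 =>
        F.jump H hp hk (by omega) (by omega) (by omega) (hΛ ▸ hd t (hΛ ▸ a1) (hΛ ▸ a2))⟩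
  obtain ⟨x, N, st, en, J⟩ := D.jumps
  obtain ⟨Js, a, b, js, je, α, β, S⟩ := F.system H hp hk hK hQ hU.ge hC (s := s) (by omega) le_rfl J
  exact S.lanes_succ (by omega)

theorem laneSpec : LaneSpec := by
  have key : ∀ k K (R : ℕ → ℕ), 1 ≤ K → ∃ W ρ : ℕ, ∀ {V : Type} (G : SimpleGraph V)
      [Fact G.Connected] (p : ℕ → V) (m : ℕ), LtGeo G p m → W ≤ m →
      (∀ r ≤ ρ, ∀ t, R r ≤ t → t + R r ≤ m → LtDet G p m r (R r) t) →
      ∃ L, LtLanes G p m (k + 1) K W L := by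
    intro k
    induction k with
    | zero =>
      refine fun K R _ => ⟨1, 0, fun G _ p m hp _ _ => lanes_of_runs (T := fun _ => Set.univ)
        (fun j _ => ⟨p 0, p m, ?_⟩) fun i _ j _ _ => by omega⟩
      have := run_walk (T := Set.univ) hp (x := p) (t := id) (B := 0) (E := 0) (Nat.zero_le m)
        (Nat.zero_le m) le_rfl (fun i _ a2 => dist_eq_one_iff_adj.1 (by
          rw [hp i (i + 1) (by omega) a2]; omega))
        (fun i _ a2 => ⟨trivial, a2, by simp, by simp, a2⟩) le_rfl le_rfl fun i i' _ a2 _ => a2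
      exact this
    | succ k ih =>
      intro K R hK
      obtain ⟨W, ρ, h⟩ := ih (6 * K) R (by omega)
      obtain ⟨W', ρ', h'⟩ := lt_step (k + 1) K W R (by omega) hK
      refine ⟨W + W', ρ + ρ', fun G _ p m hp hm hd => ?_⟩
      obtain ⟨L, H⟩ := h G p m hp (by omega) fun r hr => hd r (by omega)
      obtain ⟨L', H'⟩ := h' G p m L hp (by omega) H (hd ρ' (by omega))
      exact ⟨L', H'.mono le_rfl le_rfl (by omega)⟩
  intro k K R
  obtain ⟨W, ρ, h⟩ := key k (K + 1) R (by omega)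
  refine ⟨W, ρ, fun G _ p m hp hm hd => ?_⟩
  obtain ⟨L, H⟩ := h G p m hp hm hd
  exact ⟨L, H.mono (by omega) (by omega) le_rfl⟩

end Pool.Agent.MP_77f003_co.H49
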