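import Pool.Agent.MP_77f003_co.H49.USpec

/-!
LtLanes along a geodesic: definitions, the statement, runs, segments and links.
-/

namespace Pool.Agent.MP_77f003_co.H49

open SimpleGraph

variable {V : Type}

/-- A geodesic segment with parameters `0, …, m`. -/
def LtGeo (G : SimpleGraph V) (p : ℕ → V) (m : ℕ) : Prop :=
  ∀ a b, a ≤ b → b ≤ m → G.dist (p a) (p b) = b - a

/-- `k` lanes of width `W` along `p`, pairwise at distance at least `K`. -/
structure LtLanes (G : SimpleGraph V) (p : ℕ → V) (m k K W : ℕ) (L : ℕ → ℕ → Set V) : Prop where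
  ne : ∀ j < k, ∀ u ≤ m, (L j u).Nonempty
  conn : ∀ j < k, ∀ u ≤ m, Conn G (L j u)
  near : ∀ j < k, ∀ u ≤ m, ∀ x ∈ L j u, G.dist (p u) x ≤ W
  meet : ∀ j < k, ∀ u < m, (L j u ∩ L j (u + 1)).Nonempty
  far : ∀ i < k, ∀ j < k, i ≠ j → ∀ u ≤ m, ∀ v ≤ m, Far G K (L i u) (L j v)

/-- A detour of length at most `R` round the ball of radius `r` about `p t`. -/
def LtDet (G : SimpleGraph V) (p : ℕ → V) (m r R t : ℕ) : Prop :=
  ∃ (a b n : ℕ) (w : ℕ → V), a < t ∧ t < b ∧ b ≤ m ∧ n ≤ R ∧ w 0 = p a ∧ w n = p b ∧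
    (∀ i < n, G.Adj (w i) (w (i + 1))) ∧ ∀ i ≤ n, r < G.dist (p t) (w i)

/-- The lane theorem: short detours at all times and scales give many far lanes. -/
def LaneSpec : Prop := ∀ (k K : ℕ) (R : ℕ → ℕ), ∃ W ρ : ℕ, ∀ {V : Type} (G : SimpleGraph V)
  [Fact G.Connected] (p : ℕ → V) (m : ℕ), LtGeo G p m → W ≤ m →
  (∀ r ≤ ρ, ∀ t, R r ≤ t → t + R r ≤ m → LtDet G p m r (R r) t) → ∃ L, LtLanes G p m k K W L

/-- A route inside `T` from `x` at time `a` to `y` at time `b` that stays near `p`. -/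
def Run (G : SimpleGraph V) (p : ℕ → V) (W : ℕ) (T : Set V) (x : V) (a : ℕ) (y : V) (b : ℕ) :
    Prop :=
  a ≤ b ∧ ∃ c : ℕ → V, c a = x ∧ c (b + 1) = y ∧
    ∀ u, a ≤ u → u ≤ b → Lk G (T ∩ {z | G.dist (p u) z ≤ W}) (c u) (c (u + 1))

/-- A part of a lane. -/
def LtSeg (L : ℕ → ℕ → Set V) (j u v : ℕ) : Set V := {x | ∃ w, u ≤ w ∧ w ≤ v ∧ x ∈ L j w}

variable {G : SimpleGraph V} {p : ℕ → V} {m k K W : ℕ} {L : ℕ → ℕ → Set V} {T : Set V}

theorem Run.mono {T' : Set V} {W' a b : ℕ} {x y : V} (h : Run G p W T x a y b) (hT : T ⊆ T')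
    (hW : W ≤ W') : Run G p W' T' x a y b := by
  obtain ⟨h1, c, h2, h3, h4⟩ := h
  exact ⟨h1, c, h2, h3, fun u a1 a2 => (h4 u a1 a2).mono fun z hz => ⟨hT hz.1, le_trans hz.2 hW⟩⟩

theorem Run.lk {a : ℕ} {x y : V} {S : Set V} (h : Lk G S x y) (hS : S ⊆ T)
    (hW : ∀ z ∈ S, G.dist (p a) z ≤ W) : Run G p W T x a y a := by
  refine ⟨le_rfl, fun u => if u ≤ a then x else y, by simp, by simp, fun u a1 a2 => ?_⟩
  obtain rfl : u = a := by omega
  simpa using h.mono (T := T ∩ {z | G.dist (p u) z ≤ W}) fun z hz => ⟨hS hz, hW z hz⟩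

theorem Run.stall {a b : ℕ} {y : V} (h : a ≤ b) (hy : y ∈ T)
    (hW : ∀ u, a ≤ u → u ≤ b → G.dist (p u) y ≤ W) : Run G p W T y a y b :=
  ⟨h, fun _ => y, rfl, rfl, fun u a1 a2 => Lk.refl ⟨hy, hW u a1 a2⟩⟩

theorem Run.trans {a b d : ℕ} {x y z : V} (h : Run G p W T x a y b) (h' : Run G p W T y b z d) :
    Run G p W T x a z d := by
  obtain ⟨h1, c, h2, h3, h4⟩ := h
  obtain ⟨k1, c', k2, k3, k4⟩ := h'
  refine ⟨h1.trans k1, fun u => if u ≤ b then c u else c' u, by simp [h1, h2],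
    by simp [show ¬ d + 1 ≤ b by omega, k3], fun u a1 a2 => ?_⟩
  rcases lt_trichotomy u b with hu | rfl | hu
  · simpa [hu.le, Nat.succ_le_of_lt hu] using h4 u a1 hu.le
  · have := (h4 u a1 le_rfl).trans (h3 ▸ k2 ▸ k4 u le_rfl a2)
    simpa using this
  · simpa [show ¬ u ≤ b by omega, show ¬ u + 1 ≤ b by omega] using k4 u hu.le a2

theorem lanes_of_runs {T : ℕ → Set V} (h : ∀ j < k, ∃ x y, Run G p W (T j) x 0 y m)
    (hf : ∀ i < k, ∀ j < k, i ≠ j → Far G K (T i) (T j)) : ∃ L, LtLanes G p m k K W L := by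
  have : ∀ j, ∃ c : ℕ → V, j < k →
      ∀ u ≤ m, Lk G (T j ∩ {z | G.dist (p u) z ≤ W}) (c u) (c (u + 1)) := by
    intro j
    by_cases hj : j < k
    · obtain ⟨x, y, -, c, -, -, h4⟩ := h j hj
      exact ⟨c, fun _ u hu => h4 u (Nat.zero_le _) hu⟩
    · exact ⟨p, fun h => absurd h hj⟩
  choose c hc using this
  refine ⟨fun j u => {z | Lk G (T j ∩ {z | G.dist (p u) z ≤ W}) (c j u) z},
    fun j hj u hu => ⟨_, hc j hj u hu⟩, fun j hj u hu x hx y hy => ?_,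
    fun j hj u hu x hx => (Lk.right hx).2,
    fun j hj u hu => ⟨c j (u + 1), hc j hj u hu.le, Lk.refl (hc j hj (u + 1) hu).left⟩,
    fun i hi j hj hne u hu v hv x hx y hy => hf i hi j hj hne x (Lk.right hx).1 y (Lk.right hy).1⟩
  obtain ⟨P, -, a2, a3, a4⟩ := (Lk.trans (Lk.symm hx) hy).fin
  exact (a4 x a3).mono fun z hz => Lk.trans hy ((a4 z hz).symm.mono a2)

theorem LtLanes.mono {k' K' W' : ℕ} (h : LtLanes G p m k K W L) (hk : k' ≤ k) (hK : K' ≤ K)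
    (hW : W ≤ W') : LtLanes G p m k' K' W' L :=
  ⟨fun j hj => h.ne j (by omega), fun j hj => h.conn j (by omega),
    fun j hj u hu x hx => (h.near j (by omega) u hu x hx).trans hW, fun j hj => h.meet j (by omega),
    fun i hi j hj hne u hu v hv x hx y hy =>
      hK.trans (h.far i (by omega) j (by omega) hne u hu v hv x hx y hy)⟩

theorem LtSeg.mono {j u v u' v' : ℕ} (h : u' ≤ u) (h' : v ≤ v') : LtSeg L j u v ⊆ LtSeg L j u' v' :=
  fun _ ⟨w, a1, a2, a3⟩ => ⟨w, h.trans a1, a2.trans h', a3⟩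

theorem LtLanes.seg_run (H : LtLanes G p m k K W L) {j u v : ℕ} (hj : j < k) (h : u ≤ v) (hv : v ≤ m)
    {y z : V} (hy : y ∈ L j u) (hz : z ∈ L j v) : Run G p W (LtSeg L j u v) y u z v := by
  induction h generalizing z with
  | refl =>
    exact Run.lk (H.conn j hj u hv y hy z hz) (fun x hx => ⟨u, le_rfl, le_rfl, hx⟩)
      (H.near j hj u hv)
  | @step v h ih =>
    have h : u ≤ v := h
    obtain ⟨c, c1, c2⟩ := H.meet j hj v hv
    refine (((ih (by omega) c1).mono (LtSeg.mono le_rfl (Nat.le_succ v)) le_rfl).trans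
      (Run.stall (Nat.le_succ v) ⟨v, h, Nat.le_succ v, c1⟩ fun t a1 a2 => ?_)).trans
      (Run.lk (H.conn j hj _ hv c c2 z hz) (fun x hx => ⟨v + 1, by omega, le_rfl, hx⟩)
        (H.near j hj _ hv))
    rcases a1.lt_or_eq with a1 | rfl
    · obtain rfl : t = v + 1 := by omega
      exact H.near j hj _ hv c c2
    · exact H.near j hj _ (by omega) c c1

theorem Run.toLk {a b : ℕ} {x y : V} (h : Run G p W T x a y b) : Lk G T x y := by
  obtain ⟨h1, c, rfl, rfl, h4⟩ := h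
  induction h1 with
  | refl => exact (h4 a le_rfl le_rfl).mono Set.inter_subset_left
  | @step b h1 ih =>
    exact (ih fun u a1 a2 => h4 u a1 (by omega)).trans
      ((h4 (b + 1) (Nat.le_succ_of_le h1) le_rfl).mono Set.inter_subset_left)

theorem LtLanes.seg_lk (H : LtLanes G p m k K W L) {j u v w w' : ℕ} (hj : j < k) (hv : v ≤ m)
    (h1 : u ≤ w) (h2 : w ≤ v) (h3 : u ≤ w') (h4 : w' ≤ v) {y z : V} (hy : y ∈ L j w)
    (hz : z ∈ L j w') : Lk G (LtSeg L j u v) y z := by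
  rcases le_total w w' with h | h
  · exact (H.seg_run hj h (by omega) hy hz).toLk.mono (LtSeg.mono h1 h4)
  · exact (H.seg_run hj h (by omega) hz hy).toLk.symm.mono (LtSeg.mono h3 h2)

theorem LtLanes.seg_far (H : LtLanes G p m k K W L) {i j u v u' v' : ℕ} (hi : i < k) (hj : j < k)
    (hne : i ≠ j) (hv : v ≤ m) (hv' : v' ≤ m) : Far G K (LtSeg L i u v) (LtSeg L j u' v') :=
  fun x ⟨w, _, a2, a3⟩ y ⟨w', _, b2, b3⟩ =>
    H.far i hi j hj hne w (a2.trans hv) w' (b2.trans hv') x a3 y b3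

theorem Lk.exists_seq {S : Set V} {x y : V} (h : Lk G S x y) : ∃ (w : ℕ → V) (n : ℕ), w 0 = x ∧
    w n = y ∧ (∀ i < n, G.Adj (w i) (w (i + 1))) ∧ ∀ i, w i ∈ S := by
  obtain ⟨q, hq⟩ := h
  exact ⟨q.getVert, q.length, q.getVert_zero, q.getVert_length, fun i hi => q.adj_getVert_succ hi,
    fun i => hq _ (q.getVert_mem_support i)⟩

theorem lt_lk_seq {w : ℕ → V} {a b : ℕ} (h : a ≤ b)
    (ha : ∀ i, a ≤ i → i < b → G.Adj (w i) (w (i + 1))) {S : Set V}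
    (hS : ∀ i, a ≤ i → i ≤ b → w i ∈ S) : Lk G S (w a) (w b) := by
  induction h with
  | refl => exact Lk.refl (hS a le_rfl le_rfl)
  | @step b h ih =>
    have h : a ≤ b := h
    exact (ih (fun i a1 a2 => ha i a1 (by omega)) fun i a1 a2 => hS i a1 (by omega)).trans
      (Lk.adj (ha b h (by omega)) (hS b h (by omega)) (hS _ (by omega) le_rfl))

variable [Fact G.Connected]

theorem LtGeo.le (h : LtGeo G p m) {a b e : ℕ} (ha : a ≤ m) (hb : b ≤ m) (h1 : a ≤ b + e)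
    (h2 : b ≤ a + e) : G.dist (p a) (p b) ≤ e := by
  rcases le_total a b with hab | hab
  · rw [h a b hab hb]
    omega
  · rw [dcomm, h b a hab ha]
    omega

theorem LtGeo.near (h : LtGeo G p m) {a b e r : ℕ} {x : V} (ha : a ≤ m) (hb : b ≤ m)
    (h1 : a ≤ b + e) (h2 : b ≤ a + e) (hx : G.dist (p b) x ≤ r) : G.dist (p a) x ≤ r + e := by
  have e1 := h.le ha hb h1 h2
  have e2 := tri (G := G) (p a) (p b) x
  omega

theorem LtGeo.sep (h : LtGeo G p m) {a b r r' : ℕ} {x y : V} (ha : a ≤ m) (hb : b ≤ m)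
    (hx : G.dist (p a) x ≤ r) (hy : G.dist (p b) y ≤ r') :
    b ≤ a + r + r' + G.dist x y ∧ a ≤ b + r + r' + G.dist x y := by
  have e1 := tri (G := G) (p a) x (p b)
  have e2 := tri (G := G) x y (p b)
  rw [dcomm y] at e2
  rcases le_total a b with hab | hab
  · have := h a b hab hb
    omega
  · have := h b a hab ha
    rw [dcomm] at this
    omega

theorem LtLanes.seg_near (H : LtLanes G p m k K W L) (hp : LtGeo G p m) {j u v t e : ℕ} (hj : j < k)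
    (hv : v ≤ m) (ht : t ≤ m) (h1 : t ≤ u + e) (h2 : v ≤ t + e) :
    ∀ x ∈ LtSeg L j u v, G.dist (p t) x ≤ W + e := fun x ⟨w, a1, a2, a3⟩ =>
  hp.near ht (a2.trans hv) (by omega) (by omega) (H.near j hj w (a2.trans hv) x a3)

/-- The points on geodesics between two points. -/
def LtI (G : SimpleGraph V) (x y : V) : Set V := {z | G.dist x z + G.dist z y ≤ G.dist x y}

theorem LtI.lk (x y : V) : Lk G (LtI G x y) x y := Lk.geo fun _ h => h

theorem LtLanes.link {K₁ : ℕ} (H : LtLanes G p m k K₁ W L) (hK : 2 * K < K₁) {t : ℕ} (ht : t ≤ m)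
    (R : Set ℕ) {η₀ j₀ : ℕ} (h1 : η₀ < k) (h2 : η₀ ∈ R) (h3 : j₀ < k) (h4 : j₀ ∉ R) :
    ∃ η < k, η ∈ R ∧ ∃ j < k, j ∉ R ∧ ∃ (l : Set V) (v v' : ℕ) (x x' : V), v ≤ m ∧ v' ≤ m ∧
      x ∈ L η v ∧ x' ∈ L j v' ∧ Lk G l x x' ∧ (∀ z ∈ l, G.dist (p t) z ≤ W + K) ∧
      ∀ j' < k, j' ≠ η → j' ≠ j → ∀ w ≤ m, Far G K l (L j' w) := by
  classical
  obtain ⟨y₀, hy₀⟩ := H.ne η₀ h1 t ht
  obtain ⟨y₁, hy₁⟩ := H.ne j₀ h3 t ht
  have hb : ∀ y, G.dist (p t) y ≤ W → Lk G {z | G.dist (p t) z ≤ W} (p t) y :=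
    fun y hy => Lk.ball fun z hz => le_trans hz hy
  obtain ⟨w, n, w0, wn, wa, wS⟩ := ((hb y₀ (H.near _ h1 t ht _ hy₀)).symm.trans
    (hb y₁ (H.near _ h3 t ht _ hy₁))).exists_seq
  set P : ℕ → Prop := fun i => ∃ η < k, η ∈ R ∧ ∃ v ≤ m, ∃ x ∈ L η v, G.dist (w i) x ≤ K with hP
  set P' : ℕ → Prop := fun i => ∃ η < k, η ∉ R ∧ ∃ v ≤ m, ∃ x ∈ L η v, G.dist (w i) x ≤ K with hP'
  have e1 : P (Nat.findGreatest P n) :=
    Nat.findGreatest_spec (Nat.zero_le n) ⟨η₀, h1, h2, t, ht, y₀, hy₀, by simp [w0]⟩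
  have e2 := Nat.findGreatest_le (P := P) n
  set a := Nat.findGreatest P n with ha
  have hex : ∃ b, a ≤ b ∧ P' b := ⟨n, e2, j₀, h3, h4, t, ht, y₁, hy₁, by simp [wn]⟩
  have e3 := Nat.find_min' hex ⟨e2, j₀, h3, h4, t, ht, y₁, hy₁, by simp [wn]⟩
  obtain ⟨e4, j, b1, b2, v', b3, x', b4, b5⟩ := Nat.find_spec hex
  set b := Nat.find hex with hb'
  obtain ⟨η, a1, a2, v, a3, x, a4, a5⟩ := e1
  have hI : ∀ (y z : V) (i u : ℕ), i < k → u ≤ m → z ∈ L i u → G.dist y z ≤ K → ∀ j' < k, j' ≠ i →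
      ∀ w ≤ m, Far G K (LtI G y z) (L j' w) := by
    intro y z i u c1 c2 c3 c4 j' c5 c6 u' c7 q hq q' hq'
    have d1 := H.far i c1 j' c5 c6.symm u c2 u' c7 z c3 q' hq'
    have d2 := tri (G := G) z q q'
    have d3 : G.dist y q + G.dist q z ≤ G.dist y z := hq
    rw [dcomm z q] at d2
    omega
  have hI' : ∀ (i : ℕ) (z : V), G.dist (w i) z ≤ K → ∀ q ∈ LtI G (w i) z,
      G.dist (p t) q ≤ W + K := by
    intro i z c1 q hq
    have d1 : G.dist (p t) (w i) ≤ W := wS i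
    have d2 := tri (G := G) (p t) (w i) q
    have d3 : G.dist (w i) q + G.dist q z ≤ G.dist (w i) z := hq
    omega
  refine ⟨η, a1, a2, j, b1, b2, LtI G (w a) x ∪ {z | ∃ i, a < i ∧ i < b ∧ z = w i} ∪ LtI G (w b) x',
    v, v', x, x', a3, b3, a4, b4, ?_, ?_, fun j' c1 c2 c3 u c4 => ?_⟩
  · refine ((LtI.lk _ _).symm.mono fun z hz => Or.inl (Or.inl hz)).trans (Lk.trans
      (lt_lk_seq e4 (fun i _ c2 => wa i (by omega)) fun i c1 c2 => ?_)
      ((LtI.lk _ _).mono fun z hz => Or.inr hz))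
    rcases c1.lt_or_eq with c1 | rfl
    · rcases c2.lt_or_eq with c2 | rfl
      · exact Or.inl (Or.inr ⟨i, c1, c2, rfl⟩)
      · exact Or.inr (LtI.lk _ _).left
    · exact Or.inl (Or.inl (LtI.lk _ _).left)
  · rintro z ((hz | ⟨i, -, -, rfl⟩) | hz)
    · exact hI' _ _ a5 z hz
    · exact le_trans (wS i) (Nat.le_add_right _ _)
    · exact hI' _ _ b5 z hz
  · refine ((hI _ _ _ _ a1 a3 a4 a5 j' c1 c2 u c4).union ?_).union
      (hI _ _ _ _ b1 b3 b4 b5 j' c1 c3 u c4)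
    rintro z ⟨i, d1, d2, rfl⟩ q hq
    by_contra hc
    by_cases hR : j' ∈ R
    · exact Nat.findGreatest_is_greatest d1 (by omega) ⟨j', c1, hR, u, c4, q, hq, by omega⟩
    · exact Nat.find_min hex d2 ⟨d1.le, j', c1, hR, u, c4, q, hq, by omega⟩

theorem run_walk (hp : LtGeo G p m) {x : ℕ → V} {t : ℕ → ℕ} {r₀ r₁ a b B E : ℕ} (hr : r₀ ≤ r₁)
    (hab : a ≤ b) (hb : b ≤ m) (hadj : ∀ i, r₀ ≤ i → i < r₁ → G.Adj (x i) (x (i + 1)))
    (hT : ∀ i, r₀ ≤ i → i ≤ r₁ → x i ∈ T ∧ t i ≤ m ∧ G.dist (p (t i)) (x i) ≤ E ∧ a ≤ t i + B ∧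
      t i ≤ b + B) (h0 : t r₀ ≤ a + B) (h1 : b ≤ t r₁ + B)
    (hback : ∀ i i', r₀ ≤ i → i ≤ i' → i' ≤ r₁ → t i ≤ t i' + B) :
    Run G p (3 * E + 2 * B + 1) T (x r₀) a (x r₁) b := by
  have key : ∀ r, r₀ ≤ r → r ≤ r₁ → ∃ τ, τ ≤ b ∧ Run G p (3 * E + 2 * B + 1) T (x r₀) a (x r) τ ∧
      t r ≤ τ + B ∧ ∀ i, r ≤ i → i ≤ r₁ → τ ≤ t i + B := by
    intro r h
    induction h with
    | refl =>
      intro _
      obtain ⟨a1, a2, a3, a4, a5⟩ := hT r₀ le_rfl hr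
      exact ⟨a, hab, Run.stall le_rfl a1 fun u b1 b2 =>
        (hp.near (e := B) (by omega) a2 (by omega) (by omega) a3).trans (by omega), h0,
        fun i b1 b2 => (hT i b1 b2).2.2.2.1⟩
    | @step r h ih =>
      intro h'
      have h : r₀ ≤ r := h
      simp only [Nat.succ_eq_add_one] at *
      obtain ⟨τ, c1, c2, c3, c4⟩ := ih (by omega)
      obtain ⟨a1, a2, a3, a4, a5⟩ := hT r h (by omega)
      obtain ⟨b1, b2, b3, b4, b5⟩ := hT (r + 1) (by omega) h'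
      have hd := hadj r h h'
      have e1 := hp.sep a2 b2 a3 b3
      rw [dist_adj hd] at e1
      have e2 := c4 r le_rfl (by omega)
      have e3 := c4 (r + 1) (by omega) h'
      refine ⟨min b (max τ (t (r + 1))), by omega, (c2.trans (Run.lk (S := {x r, x (r + 1)})
        (Lk.adj hd (by simp) (by simp)) ?_ ?_)).trans (Run.stall (by omega) b1 fun u d1 d2 => ?_),
        by omega, fun i d1 d2 => ?_⟩
      · rintro z (rfl | rfl)
        exacts [a1, b1]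
      · rintro z (rfl | rfl)
        · exact (hp.near (e := B) (by omega) a2 (by omega) (by omega) a3).trans (by omega)
        · exact (hp.near (e := 2 * E + B + 1) (by omega) b2 (by omega) (by omega) b3).trans
            (by omega)
      · exact (hp.near (e := 2 * E + B + 1) (by omega) b2 (by omega) (by omega) b3).trans
          (by omega)
      · have := c4 i (by omega) d2
        have := hback (r + 1) i (by omega) d1 d2
        omega
  obtain ⟨τ, c1, c2, c3, c4⟩ := key r₁ hr le_rfl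
  obtain ⟨a1, a2, a3, a4, a5⟩ := hT r₁ hr le_rfl
  exact c2.trans (Run.stall c1 a1 fun u b1 b2 =>
    (hp.near (e := B) (by omega) a2 (by omega) (by omega) a3).trans (by omega))

end Pool.Agent.MP_77f003_co.H49
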