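import Pool.Agent.MP_77f003_co.H49.USpec

/-!
LtLanes along a geodesic, first part: a cheapest route made of walks and backward teleports.
-/

namespace Pool.Agent.MP_77f003_co.H49

open SimpleGraph

variable {V : Type}

/-- The data of the route problem: a depth `δ`, a time `f` and constants. -/
structure LtD (G : SimpleGraph V) (δ f : V → ℕ) (W Λ s Q g m : ℕ) : Prop where
  dl : ∀ x y, δ x ≤ δ y + G.dist x y
  fl : ∀ x y, f x ≤ f y + G.dist x y
  down : ∀ x, 0 < δ x → ∃ y, G.Adj x y ∧ δ y + 1 = δ x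
  s1 : 1 ≤ s
  q1 : 1 ≤ Q
  g1 : 5 * s ≤ g
  g2 : 2 * (Q + 1) ≤ g
  m1 : 2 * Λ ≤ m
  sj : ∀ t, Λ ≤ t → t + Λ ≤ m → ∃ (w : ℕ → V) (n : ℕ), n ≤ Λ ∧
    (∀ i < n, G.Adj (w i) (w (i + 1))) ∧ δ (w 0) = W ∧ δ (w n) = W ∧ (∀ i ≤ n, W ≤ δ (w i)) ∧
    f (w 0) + g ≤ t ∧ t + g ≤ f (w n)

/-- The price of a vertex. -/
def ltC (δ : V → ℕ) (W Λ s : ℕ) (x : V) : ℕ :=
  if W ≤ δ x ∧ δ x ≤ W + Λ then 1 else s * (Λ + 1)

/-- The price of a teleport. -/
def ltT (f : V → ℕ) (Λ s Q : ℕ) (y z : V) : ℕ :=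
  s * (Λ + 1) * Q + (Λ + 1) * Q * (3 * s + f z - f y)

/-- Points reached by a route of a given price. -/
inductive LtR (G : SimpleGraph V) (δ f : V → ℕ) (W Λ s Q : ℕ) : V → ℕ → Prop
  | start (x : V) : δ x = W → f x ≤ Λ → LtR G δ f W Λ s Q x 0
  | step (y z : V) (c : ℕ) : LtR G δ f W Λ s Q y c → G.Adj y z →
      LtR G δ f W Λ s Q z (c + ltC δ W Λ s z)
  | tel (y z : V) (c : ℕ) : LtR G δ f W Λ s Q y c → δ y = W → δ z = W →
      LtR G δ f W Λ s Q z (c + ltT f Λ s Q y z)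

/-- Points reached by a route of at most a given price. -/
def LtLe (G : SimpleGraph V) (δ f : V → ℕ) (W Λ s Q : ℕ) (y : V) (c : ℕ) : Prop :=
  ∃ c' ≤ c, LtR G δ f W Λ s Q y c'

variable {G : SimpleGraph V} {δ f : V → ℕ} {W Λ s Q g m : ℕ}

theorem LtLe.mono {y : V} {c c' : ℕ} (h : LtLe G δ f W Λ s Q y c) (hc : c ≤ c') :
    LtLe G δ f W Λ s Q y c' := by
  obtain ⟨a, h1, h2⟩ := h
  exact ⟨a, h1.trans hc, h2⟩

theorem LtLe.step {y z : V} {c : ℕ} (h : LtLe G δ f W Λ s Q y c) (ha : G.Adj y z) :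
    LtLe G δ f W Λ s Q z (c + ltC δ W Λ s z) := by
  obtain ⟨a, h1, h2⟩ := h
  exact ⟨_, by omega, h2.step _ _ _ ha⟩

theorem LtLe.tel {y z : V} {c : ℕ} (h : LtLe G δ f W Λ s Q y c) (hy : δ y = W) (hz : δ z = W) :
    LtLe G δ f W Λ s Q z (c + ltT f Λ s Q y z) := by
  obtain ⟨a, h1, h2⟩ := h
  exact ⟨_, by omega, h2.tel _ _ _ hy hz⟩

theorem ltC_le (hs : 1 ≤ s) (x : V) : ltC δ W Λ s x ≤ s * (Λ + 1) := by
  unfold ltC
  split_ifs
  · nlinarith
  · exact le_rfl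

theorem ltC_pos (hs : 1 ≤ s) (x : V) : 1 ≤ ltC δ W Λ s x := by
  unfold ltC
  split_ifs
  · exact le_rfl
  · nlinarith

theorem ltC_mid {x : V} (h1 : W ≤ δ x) (h2 : δ x ≤ W + Λ) : ltC δ W Λ s x = 1 := if_pos ⟨h1, h2⟩

theorem ltC_out {x : V} (h : ¬ (W ≤ δ x ∧ δ x ≤ W + Λ)) : ltC δ W Λ s x = s * (Λ + 1) := if_neg h

theorem ltT_free {y z : V} (h : 3 * s + f z ≤ f y) : ltT f Λ s Q y z = s * (Λ + 1) * Q := by
  unfold ltT
  rw [Nat.sub_eq_zero_of_le h]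
  simp

theorem LtLe.walk {w : ℕ → V} {n c e : ℕ} (h : LtLe G δ f W Λ s Q (w 0) c)
    (ha : ∀ i < n, G.Adj (w i) (w (i + 1))) (he : ∀ i < n, ltC δ W Λ s (w (i + 1)) ≤ e) :
    LtLe G δ f W Λ s Q (w n) (c + e * n) := by
  induction n with
  | zero => simpa using h
  | succ n ih =>
    refine ((ih (fun i hi => ha i (by omega)) fun i hi => he i (by omega)).step
      (ha n (by omega))).mono ?_
    have := he n (by omega)
    rw [Nat.mul_succ]
    omega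

variable [Fact G.Connected]

theorem LtLe.geo (hs : 1 ≤ s) {y : V} {c : ℕ} (h : LtLe G δ f W Λ s Q y c) (z : V) :
    LtLe G δ f W Λ s Q z (c + s * (Λ + 1) * G.dist y z) := by
  obtain ⟨w, h0, h1, h2⟩ := exists_geo (G := G) y z
  have := LtLe.walk (w := w) (h0 ▸ h) h2 fun i _ => ltC_le hs _
  rwa [h1] at this

theorem LtD.adj (H : LtD G δ f W Λ s Q g m) {x y : V} (h : G.Adj x y) :
    δ x ≤ δ y + 1 ∧ δ y ≤ δ x + 1 ∧ f x ≤ f y + 1 ∧ f y ≤ f x + 1 := by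
  have e1 := H.dl x y
  have e2 := H.dl y x
  have e3 := H.fl x y
  have e4 := H.fl y x
  rw [dist_adj h] at e1 e3
  rw [dist_adj h.symm] at e2 e4
  exact ⟨e1, e2, e3, e4⟩

theorem LtD.foot (H : LtD G δ f W Λ s Q g m) (e : ℕ) : ∀ x, δ x = W + e → e ≤ Λ →
    ∃ y, δ y = W ∧ f x ≤ f y + e ∧ f y ≤ f x + e ∧
      (∀ c, LtLe G δ f W Λ s Q x c → LtLe G δ f W Λ s Q y (c + e)) ∧
      ∀ c, LtLe G δ f W Λ s Q y c → LtLe G δ f W Λ s Q x (c + e) := by
  induction e with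
  | zero => exact fun x hx _ => ⟨x, hx, le_rfl, le_rfl, fun _ h => h, fun _ h => h⟩
  | succ e ih =>
    intro x hx he
    obtain ⟨z, hz, hz'⟩ := H.down x (by omega)
    obtain ⟨y, h1, h2, h3, h4, h5⟩ := ih z (by omega) (by omega)
    have := H.adj hz
    refine ⟨y, h1, by omega, by omega, fun c hc => ?_, fun c hc => ?_⟩
    · have := hc.step hz
      rw [ltC_mid (by omega) (by omega)] at this
      exact (h4 _ this).mono (by omega)
    · have := (h5 c hc).step hz.symm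
      rw [ltC_mid (by omega) (by omega)] at this
      exact this

/-- Either the end is reached or a point of late time. -/
def LtAv (G : SimpleGraph V) (δ f : V → ℕ) (W Λ s Q m c t : ℕ) : Prop :=
  ∃ y, δ y = W ∧ LtLe G δ f W Λ s Q y c ∧ (m ≤ f y + Λ ∨ t ≤ f y)

theorem LtD.first (H : LtD G δ f W Λ s Q g m) : LtAv G δ f W Λ s Q m Λ (Λ + g) := by
  obtain ⟨w, n, h1, h2, h3, h4, h5, h6, h7⟩ := H.sj Λ le_rfl (by have := H.m1; omega)
  refine ⟨w n, h4, ?_, Or.inr h7⟩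
  refine (LtLe.walk (e := 1) ⟨0, le_rfl, .start _ h3 (by omega)⟩ h2 fun i hi => ?_).mono (by omega)
  have e1 := H.dl (w (i + 1)) (w 0)
  have e2 := dist_geo_le h2 (Nat.zero_le (i + 1)) hi
  rw [dcomm] at e2
  rw [ltC_mid (h5 (i + 1) hi) (by omega)]

theorem LtD.av_step (H : LtD G δ f W Λ s Q g m) {c t : ℕ} (h : LtAv G δ f W Λ s Q m c t) :
    LtAv G δ f W Λ s Q m (c + (s * (Λ + 1) * Q + Λ)) (t + g) := by
  obtain ⟨y, h1, h2, h3⟩ := h
  by_cases he : m ≤ f y + Λ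
  · exact ⟨y, h1, h2.mono (by omega), Or.inl he⟩
  by_cases hy : f y < Λ
  · obtain ⟨z, e1, e2, e3⟩ := H.first
    exact ⟨z, e1, e2.mono (by omega), by omega⟩
  obtain ⟨w, n, a1, a2, a3, a4, a5, a6, a7⟩ := H.sj (f y) (by omega) (by omega)
  have e1 := h2.tel h1 a3
  rw [ltT_free (by have := H.g1; omega)] at e1
  refine ⟨w n, a4, (LtLe.walk (e := 1) e1 a2 fun i hi => ?_).mono (by omega), by omega⟩
  have e1 := H.dl (w (i + 1)) (w 0)
  have e2 := dist_geo_le a2 (Nat.zero_le (i + 1)) hi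
  rw [dcomm] at e2
  rw [ltC_mid (a5 (i + 1) hi) (by omega)]

theorem LtD.av_iter (H : LtD G δ f W Λ s Q g m) {c t : ℕ} (h : LtAv G δ f W Λ s Q m c t) (q : ℕ) :
    LtAv G δ f W Λ s Q m (c + q * (s * (Λ + 1) * Q + Λ)) (t + q * g) := by
  induction q with
  | zero => simpa using h
  | succ q ih =>
    have := H.av_step ih
    rwa [add_assoc, add_assoc t, ← Nat.succ_mul, ← Nat.succ_mul] at this

omit [Fact G.Connected] in
theorem LtR.path {z : V} {c : ℕ} (h : LtR G δ f W Λ s Q z c) :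
    ∃ (x : ℕ → V) (n : ℕ) (tp : ℕ → Prop) (φ : ℕ → ℕ), x n = z ∧ φ n = c ∧ δ (x 0) = W ∧
      f (x 0) ≤ Λ ∧ φ 0 = 0 ∧ ∀ r < n,
        (tp r → δ (x r) = W ∧ δ (x (r + 1)) = W ∧
          φ (r + 1) = φ r + ltT f Λ s Q (x r) (x (r + 1))) ∧
        (¬ tp r → G.Adj (x r) (x (r + 1)) ∧ φ (r + 1) = φ r + ltC δ W Λ s (x (r + 1))) := by
  induction h with
  | start x h1 h2 => exact ⟨fun _ => x, 0, fun _ => True, fun _ => 0, rfl, rfl, h1, h2, rfl, by simp⟩
  | step y z c _ ha ih =>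
    obtain ⟨x, n, tp, φ, rfl, rfl, h1, h2, h3, h4⟩ := ih
    refine ⟨fun r => if r ≤ n then x r else z, n + 1, fun r => r < n ∧ tp r,
      fun r => if r ≤ n then φ r else φ n + ltC δ W Λ s z, by simp, by simp, by simpa, by simpa,
      by simpa, fun r hr => ?_⟩
    rcases Nat.lt_succ_iff_lt_or_eq.1 hr with hr | rfl
    · simpa [hr, hr.le, Nat.succ_le_of_lt hr] using h4 r hr
    · simpa using ha
  | tel y z c _ hy hz ih =>
    obtain ⟨x, n, tp, φ, rfl, rfl, h1, h2, h3, h4⟩ := ih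
    refine ⟨fun r => if r ≤ n then x r else z, n + 1, fun r => r < n → tp r,
      fun r => if r ≤ n then φ r else φ n + ltT f Λ s Q (x n) z, by simp, by simp, by simpa,
      by simpa, by simpa, fun r hr => ?_⟩
    rcases Nat.lt_succ_iff_lt_or_eq.1 hr with hr | rfl
    · simpa [hr, hr.le, Nat.succ_le_of_lt hr] using h4 r hr
    · simpa using ⟨hy, hz⟩

/-- A cheapest route. -/
structure LtP (G : SimpleGraph V) (δ f : V → ℕ) (W Λ s Q m : ℕ) (x : ℕ → V) (n : ℕ)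
    (tp : ℕ → Prop) (φ : ℕ → ℕ) : Prop where
  d0 : δ (x 0) = W
  f0 : f (x 0) ≤ Λ
  dn : δ (x n) = W
  fn : m ≤ f (x n) + Λ
  tel : ∀ r < n, tp r → δ (x r) = W ∧ δ (x (r + 1)) = W ∧
    φ (r + 1) = φ r + ltT f Λ s Q (x r) (x (r + 1))
  step : ∀ r < n, ¬ tp r → G.Adj (x r) (x (r + 1)) ∧ φ (r + 1) = φ r + ltC δ W Λ s (x (r + 1))
  le : ∀ r ≤ n, LtLe G δ f W Λ s Q (x r) (φ r)
  opt : ∀ r ≤ n, ∀ c, LtLe G δ f W Λ s Q (x r) c → φ r ≤ c
  fin : ∀ y c, δ y = W → m ≤ f y + Λ → LtLe G δ f W Λ s Q y c → φ n ≤ c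

theorem LtD.exists_path (H : LtD G δ f W Λ s Q g m) :
    ∃ x n tp φ, LtP G δ f W Λ s Q m x n tp φ := by
  classical
  have hex : ∃ c, ∃ z, δ z = W ∧ m ≤ f z + Λ ∧ LtR G δ f W Λ s Q z c := by
    obtain ⟨y, h1, ⟨c, -, h2⟩, h3⟩ := H.av_iter H.first m
    have : m * 1 ≤ m * g := Nat.mul_le_mul_left _ (by have := H.g2; omega)
    exact ⟨c, y, h1, by omega, h2⟩
  obtain ⟨z, h1, h2, h3⟩ := Nat.find_spec hex
  obtain ⟨x, n, tp, φ, rfl, e2, e3, e4, e5, e6⟩ := h3.path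
  have hfin : ∀ y c, δ y = W → m ≤ f y + Λ → LtLe G δ f W Λ s Q y c → φ n ≤ c := by
    rintro y c a1 a2 ⟨c', a3, a4⟩
    exact e2 ▸ (Nat.find_min' hex ⟨y, a1, a2, a4⟩).trans a3
  have key : ∀ r j, r + j ≤ n → ∀ c, LtLe G δ f W Λ s Q (x r) c →
      ∃ c', LtLe G δ f W Λ s Q (x (r + j)) c' ∧ c' + φ r ≤ c + φ (r + j) := by
    intro r j
    induction j with
    | zero => exact fun _ c hc => ⟨c, hc, le_rfl⟩
    | succ j ih =>
      intro hj c hc
      obtain ⟨c', a1, a2⟩ := ih (by omega) c hc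
      by_cases ht : tp (r + j)
      · obtain ⟨b1, b2, b3⟩ := (e6 (r + j) (by omega)).1 ht
        exact ⟨_, a1.tel b1 b2, by rw [← add_assoc, b3]; omega⟩
      · obtain ⟨b1, b2⟩ := (e6 (r + j) (by omega)).2 ht
        exact ⟨_, a1.step b1, by rw [← add_assoc, b2]; omega⟩
  refine ⟨x, n, tp, φ, e3, e4, h1, h2, fun r hr => (e6 r hr).1, fun r hr => (e6 r hr).2,
    fun r hr => ?_, fun r hr c hc => ?_, hfin⟩
  · obtain ⟨c', a1, a2⟩ := key 0 r (by omega) 0 ⟨0, le_rfl, .start _ e3 e4⟩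
    simp only [zero_add] at a1 a2
    exact a1.mono (by omega)
  · obtain ⟨j, rfl⟩ := Nat.exists_eq_add_of_le hr
    obtain ⟨c', a1, a2⟩ := key r j le_rfl c hc
    have := hfin _ _ h1 h2 a1
    omega

variable {x : ℕ → V} {n : ℕ} {tp : ℕ → Prop} {φ : ℕ → ℕ}

theorem LtP.chain (F : ℕ → ℕ) (F' : ℕ → ℕ) {r r' : ℕ} (h : r ≤ r')
    (hs : ∀ i, r ≤ i → i < r' → F i + F' (i + 1) ≤ F (i + 1) + F' i) :
    F r + F' r' ≤ F r' + F' r := by
  induction h with
  | refl => exact le_rfl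
  | @step r' h ih =>
    have e1 := ih fun i h1 h2 => hs i h1 (by omega)
    have e2 := hs r' h (by omega)
    simp only [Nat.succ_eq_add_one]
    omega

theorem LtP.inc (H : LtD G δ f W Λ s Q g m) (P : LtP G δ f W Λ s Q m x n tp φ) {r r' : ℕ}
    (h : r ≤ r') (h' : r' ≤ n) : φ r + r' ≤ φ r' + r := by
  refine LtP.chain φ id h fun i h1 h2 => ?_
  have hq := H.q1
  have hs := H.s1
  by_cases ht : tp i
  · have := (P.tel i (by omega) ht).2.2
    have : 1 ≤ s * (Λ + 1) * Q := Nat.succ_le_of_lt (by positivity)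
    simp only [ltT, id] at *
    omega
  · have := (P.step i (by omega) ht).2
    have := ltC_pos (δ := δ) (W := W) (Λ := Λ) hs (x (i + 1))
    simp only [id]
    omega

theorem LtP.key (H : LtD G δ f W Λ s Q g m) (P : LtP G δ f W Λ s Q m x n tp φ) {r r' t : ℕ}
    (h1 : r ≤ t) (h2 : t < r') (h' : r' ≤ n) (ht : tp t) :
    Q + (W - δ (x r)) + (W - δ (x r')) ≤ G.dist (x r) (x r') + 1 := by
  set A := s * (Λ + 1) with hA
  obtain ⟨a1, a2, a3⟩ := P.tel t (by omega) ht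
  have e1 : (φ r + A * (W - 1 - δ (x r))) + 0 ≤ (φ t + A * (W - 1 - δ (x t))) + 0 := by
    refine LtP.chain (fun i => φ i + A * (W - 1 - δ (x i))) (fun _ => 0) h1 fun i b1 b2 => ?_
    by_cases hi : tp i
    · obtain ⟨c1, c2, c3⟩ := P.tel i (by omega) hi
      simp only [c1, c2]
      omega
    · obtain ⟨c1, c2⟩ := P.step i (by omega) hi
      have := H.adj c1
      by_cases hm : W ≤ δ (x (i + 1))
      · rw [show W - 1 - δ (x i) = 0 by omega]
        omega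
      · rw [ltC_out (by omega)] at c2
        have := Nat.mul_le_mul_left A (show W - 1 - δ (x i) ≤ W - 1 - δ (x (i + 1)) + 1 by omega)
        rw [Nat.mul_succ] at this
        omega
  have e2 : φ (t + 1) + A * (W - δ (x r')) ≤ φ r' + A * (W - δ (x (t + 1))) := by
    refine LtP.chain φ (fun i => A * (W - δ (x i))) h2 fun i b1 b2 => ?_
    by_cases hi : tp i
    · obtain ⟨c1, c2, c3⟩ := P.tel i (by omega) hi
      simp only [c1, c2]
      omega
    · obtain ⟨c1, c2⟩ := P.step i (by omega) hi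
      have := H.adj c1
      by_cases hm : W ≤ δ (x (i + 1))
      · simp only [show W - δ (x (i + 1)) = 0 by omega]
        omega
      · rw [ltC_out (by omega)] at c2
        have := Nat.mul_le_mul_left A (show W - δ (x (i + 1)) ≤ W - δ (x i) + 1 by omega)
        rw [Nat.mul_succ] at this
        omega
  have e3 := P.opt r' h' _ ((P.le r (by omega)).geo H.s1 (x r'))
  rw [a1, show W - 1 - W = 0 by omega] at e1
  rw [a2, Nat.sub_self] at e2
  have e4 : A * (Q + (W - 1 - δ (x r)) + (W - δ (x r'))) ≤ A * G.dist (x r) (x r') := by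
    simp only [ltT] at a3
    rw [← hA] at a3 e3
    rw [mul_add, mul_add]
    omega
  have := Nat.le_of_mul_le_mul_left e4 (by have := H.s1; positivity)
  omega

theorem LtP.bound (H : LtD G δ f W Λ s Q g m) (P : LtP G δ f W Λ s Q m x n tp φ) {r r' e e' q : ℕ}
    (h : r ≤ n) (h' : r' ≤ n) (he : δ (x r) = W + e) (he' : δ (x r') = W + e') (h1 : e ≤ Λ)
    (h2 : e' ≤ Λ) (hq : f (x r') + 3 * s + e + e' ≤ f (x r) + q * g) :
    φ r' ≤ φ r + e + e' + q * (s * (Λ + 1) * Q + Λ) + s * (Λ + 1) * Q := by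
  obtain ⟨y, a1, a2, -, a3, -⟩ := H.foot e _ he h1
  obtain ⟨y', b1, -, b2, -, b3⟩ := H.foot e' _ he' h2
  obtain ⟨z, c1, c2, c3⟩ := H.av_iter ⟨y, a1, a3 _ (P.le r h), Or.inr le_rfl⟩ q
  rcases c3 with c3 | c3
  · have e1 := P.fin _ _ c1 c3 c2
    have e2 := P.inc H h' le_rfl
    omega
  · have e1 := c2.tel c1 b1
    rw [ltT_free (by omega)] at e1
    have := P.opt r' h' _ (b3 _ e1)
    omega

theorem lt_exc (p : ℕ → Prop) {n r : ℕ} (h0 : p 0) (hn : p n) (hr : r ≤ n) (h : ¬ p r) :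
    ∃ a b, a < r ∧ r < b ∧ b ≤ n ∧ p a ∧ p b ∧ ∀ i, a < i → i < b → ¬ p i := by
  classical
  have hex : ∃ b, r ≤ b ∧ p b := ⟨n, hr, hn⟩
  have e1 := Nat.findGreatest_spec (P := p) (Nat.zero_le r) h0
  have e2 := Nat.findGreatest_le (P := p) r
  have e3 := Nat.find_spec hex
  refine ⟨Nat.findGreatest p r, Nat.find hex, lt_of_le_of_ne e2 fun h' => h (h' ▸ e1),
    lt_of_le_of_ne e3.1 fun h' => h (h' ▸ e3.2), Nat.find_min' hex ⟨hr, hn⟩, e1, e3.2,
    fun i h1 h2 hi => ?_⟩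
  rcases le_total i r with h3 | h3
  · exact Nat.findGreatest_is_greatest h1 h3 hi
  · exact Nat.find_min hex h2 ⟨h3, hi⟩

theorem lt_num {l c c₀ c' Q g : ℕ} (hg : 2 * (Q + 1) ≤ g) (hc : c ≤ c₀ * g)
    (h : ∀ q, l + c ≤ q * g → l ≤ 1 + c' + q * (Q + 1)) : l ≤ 2 + 2 * c' + 2 * ((c₀ + 1) * (Q + 1)) := by
  have e1 := Nat.div_add_mod l g
  have e2 := Nat.mod_lt l (show 0 < g by omega)
  have e3 := h (l / g + (c₀ + 1)) (by nlinarith)
  have e4 := Nat.mul_le_mul_right (l / g) hg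
  rw [add_mul] at e3
  rw [mul_assoc, mul_comm (Q + 1)] at e4
  omega

theorem LtP.exc (H : LtD G δ f W Λ s Q g m) (P : LtP G δ f W Λ s Q m x n tp φ) {a b e e' c₀ : ℕ}
    (hab : a + 2 ≤ b) (hb : b ≤ n) (he : δ (x a) = W + e) (he' : δ (x b) = W + e') (h1 : e ≤ Λ)
    (h2 : e' ≤ Λ) (hc : 3 * s + e + e' ≤ c₀ * g)
    (hi : ∀ i, a < i → i < b → ¬ (W ≤ δ (x i) ∧ δ (x i) ≤ W + Λ)) :
    (∀ i, a ≤ i → i < b → G.Adj (x i) (x (i + 1))) ∧
      b - a ≤ 2 + 2 * (e + e' + Q) + 2 * ((c₀ + 1) * (Q + 1)) := by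
  have hnt : ∀ i, a ≤ i → i < b → ¬ tp i := by
    intro i a1 a2 ht
    obtain ⟨c1, c2, -⟩ := P.tel i (by omega) ht
    by_cases hi' : i = a
    · exact hi (i + 1) (by omega) (by omega) (by omega)
    · exact hi i (by omega) a2 (by omega)
  have hadj : ∀ i, a ≤ i → i < b → G.Adj (x i) (x (i + 1)) :=
    fun i a1 a2 => (P.step i (by omega) (hnt i a1 a2)).1
  refine ⟨hadj, lt_num H.g2 hc fun q hq => ?_⟩
  set A := s * (Λ + 1) with hA
  have e1 : f (x b) + a ≤ f (x a) + b := by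
    have := LtP.chain id (fun i => f (x i)) (show a ≤ b by omega) fun i a1 a2 => by
      have := H.adj (hadj i a1 a2)
      simp only [id]
      omega
    simp only [id] at this
    omega
  have e2 : φ a + A * (b - 1) ≤ φ (b - 1) + A * a := by
    refine LtP.chain φ (fun i => A * i) (by omega) fun i a1 a2 => ?_
    have := (P.step i (by omega) (hnt i a1 (by omega))).2
    rw [ltC_out (hi _ (by omega) (by omega))] at this
    rw [Nat.mul_succ]
    omega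
  have e3 := P.inc H (show b - 1 ≤ b by omega) hb
  have e4 := P.bound H (show a ≤ n by omega) hb he he' h1 h2 (q := q) (by omega)
  have hA1 : Λ + 1 ≤ A := Nat.le_mul_of_pos_left _ H.s1
  have e5 : A * (b - a) ≤ A * (1 + (e + e' + Q) + q * (Q + 1)) := by
    obtain ⟨l, rfl⟩ : ∃ l, b = a + 1 + l := ⟨b - (a + 1), by omega⟩
    rw [show a + 1 + l - 1 = a + l by omega] at e2 e3
    rw [show a + 1 + l - a = l + 1 by omega]
    have e6 : q * (A * Q + Λ) ≤ q * (A * Q + A) := Nat.mul_le_mul_left _ (by omega)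
    have e7 : 1 * (e + e') ≤ A * (e + e') := Nat.mul_le_mul_right _ (by omega)
    rw [← hA] at e4
    nlinarith
  exact Nat.le_of_mul_le_mul_left e5 (by omega)

theorem LtP.shallow (H : LtD G δ f W Λ s Q g m) (P : LtP G δ f W Λ s Q m x n tp φ) {r : ℕ}
    (hr : r ≤ n) : W ≤ δ (x r) + (6 * Q + 6) := by
  by_contra hcon
  obtain ⟨a, b, h1, h2, h3, h4, h5, h6⟩ :=
    lt_exc (fun i => W ≤ δ (x i)) P.d0.ge P.dn.ge hr (by omega)
  have hnt : ∀ i, a ≤ i → i < b → G.Adj (x i) (x (i + 1)) := by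
    intro i a1 a2
    refine (P.step i (by omega) fun ht => ?_).1
    obtain ⟨c1, c2, -⟩ := P.tel i (by omega) ht
    by_cases hi' : i = a
    · exact h6 (i + 1) (by omega) (by omega) c2.ge
    · exact h6 i (by omega) a2 c1.ge
  have e1 := H.adj (hnt a le_rfl (by omega))
  have e2 := h6 (a + 1) (by omega) (by omega)
  have e3 := H.adj (hnt (b - 1) (by omega) (by omega))
  have e4 := h6 (b - 1) (by omega) (by omega)
  rw [show b - 1 + 1 = b by omega] at e3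
  obtain ⟨-, e5⟩ := P.exc H (a := a) (b := b) (e := 0) (e' := 0) (c₀ := 1) (by omega) h3 (by omega)
    (by omega) (Nat.zero_le _) (Nat.zero_le _) (by have := H.g1; omega)
    fun i a1 a2 hi => h6 i a1 a2 hi.1
  have e6 : δ (x a) + a ≤ δ (x r) + r := by
    have := LtP.chain (fun i => δ (x i) + i) (fun _ => 0) h1.le fun i a1 a2 => by
      have := H.adj (hnt i a1 (by omega))
      omega
    omega
  omega

/-- The bound for the length of the parts of the route outside the cheap zone. -/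
def ltH (Λ s Q : ℕ) : ℕ := 2 + 2 * (2 * Λ + Q) + 2 * ((3 * s + 2 * Λ + 1) * (Q + 1))

theorem LtP.mid (H : LtD G δ f W Λ s Q g m) (P : LtP G δ f W Λ s Q m x n tp φ) {r : ℕ}
    (hr : r ≤ n) : ∃ a b, a ≤ r ∧ r ≤ b ∧ b ≤ n ∧ b - a ≤ ltH Λ s Q ∧
      (W ≤ δ (x a) ∧ δ (x a) ≤ W + Λ) ∧ (W ≤ δ (x b) ∧ δ (x b) ≤ W + Λ) ∧
      ∀ i, a ≤ i → i < b → G.Adj (x i) (x (i + 1)) := by
  by_cases hm : W ≤ δ (x r) ∧ δ (x r) ≤ W + Λ
  · exact ⟨r, r, le_rfl, le_rfl, hr, by simp, hm, hm, fun i a1 a2 => by omega⟩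
  obtain ⟨a, b, h1, h2, h3, h4, h5, h6⟩ := lt_exc (fun i => W ≤ δ (x i) ∧ δ (x i) ≤ W + Λ)
    ⟨P.d0.ge, by have := P.d0; omega⟩ ⟨P.dn.ge, by have := P.dn; omega⟩ hr hm
  have hg : 1 * (3 * s + 2 * Λ) ≤ g * (3 * s + 2 * Λ) :=
    Nat.mul_le_mul_right _ (by have := H.g2; omega)
  obtain ⟨e1, e2⟩ := P.exc H (a := a) (b := b) (e := δ (x a) - W) (e' := δ (x b) - W)
    (c₀ := 3 * s + 2 * Λ) (by omega) h3 (by omega) (by omega) (by omega) (by omega)
    (by rw [mul_comm _ g]; omega) h6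
  exact ⟨a, b, h1.le, h2.le, h3, by unfold ltH; omega, h4, h5, e1⟩

theorem lt_dist {a b : ℕ} (hab : a ≤ b) (h : ∀ i, a ≤ i → i < b → G.Adj (x i) (x (i + 1))) :
    G.dist (x a) (x b) ≤ b - a := by
  induction hab with
  | refl => simp
  | @step b hab ih =>
    have e1 := ih fun i a1 a2 => h i a1 (by omega)
    have e2 := tri (G := G) (x a) (x b) (x (b + 1))
    rw [dist_adj (h b hab (by omega))] at e2
    have : a ≤ b := hab
    simp only [Nat.succ_eq_add_one]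
    omega

/-- The bound for the depth and the backtracking of the route. -/
def ltB (W Λ s Q : ℕ) : ℕ := W + 4 * Λ + 3 * s + s * (Λ + 1) * Q + 2 * ltH Λ s Q

theorem LtP.deep (H : LtD G δ f W Λ s Q g m) (P : LtP G δ f W Λ s Q m x n tp φ) {r : ℕ}
    (hr : r ≤ n) : δ (x r) ≤ ltB W Λ s Q := by
  obtain ⟨a, b, h1, h2, h3, h4, h5, -, h7⟩ := P.mid H hr
  have e1 := lt_dist h1 fun i a1 a2 => h7 i a1 (by omega)
  have e2 := H.dl (x r) (x a)
  rw [dcomm] at e2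
  unfold ltB
  omega

theorem LtP.back (H : LtD G δ f W Λ s Q g m) (P : LtP G δ f W Λ s Q m x n tp φ) {r r' : ℕ}
    (h : r ≤ r') (hr : r' ≤ n) (ha : ∀ i, r ≤ i → i < r' → G.Adj (x i) (x (i + 1))) :
    f (x r) ≤ f (x r') + ltB W Λ s Q := by
  by_contra hcon
  obtain ⟨a, b, h1, h2, -, h4, h5, -, h7⟩ := P.mid H (h.trans hr)
  obtain ⟨a', b', k1, k2, k3, k4, -, k6, k7⟩ := P.mid H hr
  have e1 := lt_dist h1 fun i a1 a2 => h7 i a1 (by omega)
  have e2 := lt_dist k2 fun i a1 a2 => k7 i (by omega) a2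
  have e3 := lt_dist h ha
  have e4 := H.fl (x r) (x a)
  have e5 := H.fl (x b') (x r')
  have e6 := H.fl (x r) (x r')
  rw [dcomm] at e4 e5
  unfold ltB at hcon
  have e7 := P.bound H (r := a) (r' := b') (e := δ (x a) - W) (e' := δ (x b') - W) (q := 0)
    (by omega) k3 (by omega) (by omega) (by omega) (by omega) (by omega)
  have e8 := P.inc H (show a ≤ b' by omega) k3
  omega

theorem LtP.over (H : LtD G δ f W Λ s Q g m) (P : LtP G δ f W Λ s Q m x n tp φ) {r : ℕ}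
    (hr : r < n) (ht : tp r) : f (x (r + 1)) + s ≤ f (x r) := by
  obtain ⟨c1, c2, c3⟩ := P.tel r hr ht
  have hs := H.s1
  have hq := H.q1
  have hg := H.g1
  set d := 3 * s + f (x (r + 1)) - f (x r) with hd
  have e1 := Nat.div_add_mod d g
  have e2 := Nat.mod_lt d (show 0 < g by omega)
  have e3 := P.bound H (r := r) (r' := r + 1) (e := 0) (e' := 0) (q := d / g + 1) hr.le hr c1 c2
    (Nat.zero_le _) (Nat.zero_le _) (by rw [add_mul, one_mul, mul_comm (d / g) g]; omega)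
  simp only [ltT] at c3
  rw [← hd] at c3
  have e4 : (Λ + 1) * (Q * d) ≤ (Λ + 1) * ((d / g + 1) * (s * Q + 1)) := by nlinarith
  have e5 := Nat.le_of_mul_le_mul_left e4 (by omega)
  have e6 : d ≤ s + 1 := by
    rcases Nat.eq_zero_or_pos (d / g) with h0 | h0
    · rw [h0] at e5
      by_contra hc
      have := Nat.mul_le_mul_left Q (show s + 2 ≤ d by omega)
      nlinarith
    · exfalso
      have a1 := Nat.mul_le_mul_right (d / g) hg
      have a2 := Nat.mul_le_mul_left Q (show 5 * s * (d / g) ≤ d by omega)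
      have a3 : 1 ≤ s * Q := Nat.succ_le_of_lt (by positivity)
      have a4 := Nat.mul_le_mul (show d / g + 1 ≤ 2 * (d / g) by omega)
        (show s * Q + 1 ≤ 2 * (s * Q) by omega)
      have a5 : 1 ≤ s * Q * (d / g) := Nat.succ_le_of_lt (by positivity)
      nlinarith
  omega

theorem LtP.two (H : LtD G δ f W Λ s Q g m) (P : LtP G δ f W Λ s Q m x n tp φ) {r r' : ℕ}
    (h : r < r') (hr : r' < n) (ht : tp r) (ht' : tp r') :
    f (x r) ≤ f (x (r' + 1)) + 2 * s ∧ f (x (r + 1)) + s ≤ f (x (r' + 1)) ∧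
      f (x r) + s ≤ f (x r') := by
  obtain ⟨c1, -, c3⟩ := P.tel r (by omega) ht
  obtain ⟨-, d2, d3⟩ := P.tel r' hr ht'
  have e1 := P.opt (r' + 1) hr _ ((P.le r (by omega)).tel c1 d2)
  have e2 := P.inc H (show r + 1 ≤ r' from h) hr.le
  simp only [ltT] at c3 d3 e1
  have e3 : (Λ + 1) * Q * (s + (3 * s + f (x (r + 1)) - f (x r)) +
      (3 * s + f (x (r' + 1)) - f (x r'))) ≤ (Λ + 1) * Q * (3 * s + f (x (r' + 1)) - f (x r)) := by
    rw [mul_add, mul_add, mul_comm _ s, ← mul_assoc]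
    omega
  have := Nat.le_of_mul_le_mul_left e3 (by have := H.q1; positivity)
  have := H.s1
  omega

theorem LtP.three (H : LtD G δ f W Λ s Q g m) (P : LtP G δ f W Λ s Q m x n tp φ) {r r' r'' : ℕ}
    (h : r < r') (h' : r' < r'') (hr : r'' < n) (ht : tp r) (ht' : tp r') (ht'' : tp r'') :
    f (x r) + s ≤ f (x (r'' + 1)) := by
  by_contra hcon
  obtain ⟨c1, -, c3⟩ := P.tel r (by omega) ht
  obtain ⟨-, -, d3⟩ := P.tel r' (by omega) ht'
  obtain ⟨-, k2, k3⟩ := P.tel r'' hr ht''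
  have e1 := P.bound H (r := r) (r' := r'' + 1) (e := 0) (e' := 0) (q := 1) (by omega) hr c1 k2
    (Nat.zero_le _) (Nat.zero_le _) (by have := H.g1; omega)
  have e2 := P.inc H (show r + 1 ≤ r' from h) (by omega)
  have e3 := P.inc H (show r' + 1 ≤ r'' from h') hr.le
  have e4 : Λ + 1 ≤ s * (Λ + 1) * Q :=
    (Nat.le_mul_of_pos_left _ H.s1).trans (Nat.le_mul_of_pos_right _ H.q1)
  simp only [ltT] at c3 d3 k3
  omega

theorem lt_enum (tp : ℕ → Prop) (n : ℕ) : ∃ (N : ℕ) (st en : ℕ → ℕ), 1 ≤ N ∧ st 1 = 0 ∧ en N = n ∧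
    (∀ i, 1 ≤ i → i ≤ N → st i ≤ en i ∧ ∀ r, st i ≤ r → r < en i → ¬ tp r) ∧
    ∀ i, 1 ≤ i → i < N → tp (en i) ∧ st (i + 1) = en i + 1 := by
  induction n with
  | zero => exact ⟨1, fun _ => 0, fun _ => 0, le_rfl, rfl, rfl, by simp, by omega⟩
  | succ n ih =>
    obtain ⟨N, st, en, h1, h2, h3, h4, h5⟩ := ih
    by_cases ht : tp n
    · refine ⟨N + 1, fun i => if i ≤ N then st i else n + 1, fun i => if i ≤ N then en i else n + 1,
        by omega, by simp [h1, h2], by simp, fun i a1 a2 => ?_, fun i a1 a2 => ?_⟩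
      · by_cases hi : i ≤ N
        · simpa [hi] using h4 i a1 hi
        · simp only [hi, if_false]
          exact ⟨le_rfl, by omega⟩
      · by_cases hi : i < N
        · simpa [hi.le, Nat.succ_le_of_lt hi] using h5 i a1 hi
        · obtain rfl : i = N := by omega
          simp [h3, ht]
    · refine ⟨N, st, fun i => if i = N then n + 1 else en i, h1, h2, by simp, fun i a1 a2 => ?_,
        fun i a1 a2 => by simpa [a2.ne] using h5 i a1 a2⟩
      by_cases hi : i = N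
      · subst hi
        obtain ⟨b1, b2⟩ := h4 i a1 a2
        simp only [if_true]
        refine ⟨by omega, fun r c1 c2 => ?_⟩
        rcases Nat.lt_succ_iff_lt_or_eq.1 c2 with c2 | rfl
        · exact b2 r c1 (by omega)
        · exact ht
      · simpa [hi] using h4 i a1 a2

/-- The walks of a cheapest route. -/
structure LtJ (G : SimpleGraph V) (δ f : V → ℕ) (W Λ s Q m : ℕ) (x : ℕ → V) (N : ℕ)
    (st en : ℕ → ℕ) : Prop where
  n1 : 1 ≤ N
  f0 : f (x (st 1)) ≤ Λ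
  fn : m ≤ f (x (en N)) + Λ
  le : ∀ i, 1 ≤ i → i ≤ N → st i ≤ en i
  adj : ∀ i, 1 ≤ i → i ≤ N → ∀ r, st i ≤ r → r < en i → G.Adj (x r) (x (r + 1))
  ds : ∀ i, 1 ≤ i → i ≤ N → δ (x (st i)) = W
  de : ∀ i, 1 ≤ i → i ≤ N → δ (x (en i)) = W
  dep : ∀ i, 1 ≤ i → i ≤ N → ∀ r, st i ≤ r → r ≤ en i →
    W ≤ δ (x r) + (6 * Q + 6) ∧ δ (x r) ≤ ltB W Λ s Q
  back : ∀ i, 1 ≤ i → i ≤ N → ∀ r r', st i ≤ r → r ≤ r' → r' ≤ en i →
    f (x r) ≤ f (x r') + ltB W Λ s Q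
  key : ∀ i, 1 ≤ i → i ≤ N → ∀ i', 1 ≤ i' → i' ≤ N → i ≠ i' → ∀ r r', st i ≤ r → r ≤ en i →
    st i' ≤ r' → r' ≤ en i' → Q + (W - δ (x r)) + (W - δ (x r')) ≤ G.dist (x r) (x r') + 1
  ov : ∀ i, 1 ≤ i → i < N → f (x (st (i + 1))) + s ≤ f (x (en i))
  two : ∀ i i', 1 ≤ i → i < i' → i' < N → f (x (en i)) ≤ f (x (st (i' + 1))) + 2 * s ∧
    f (x (st (i + 1))) + s ≤ f (x (st (i' + 1))) ∧ f (x (en i)) + s ≤ f (x (en i'))
  three : ∀ i i', 1 ≤ i → i + 2 ≤ i' → i' < N → f (x (en i)) + s ≤ f (x (st (i' + 1)))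

theorem LtD.jumps (H : LtD G δ f W Λ s Q g m) : ∃ x N st en, LtJ G δ f W Λ s Q m x N st en := by
  obtain ⟨x, n, tp, φ, P⟩ := H.exists_path
  obtain ⟨N, st, en, h1, h2, h3, h4, h5⟩ := lt_enum tp n
  have hm : ∀ i i', 1 ≤ i → i < i' → i' ≤ N → en i < st i' := by
    intro i i' a1 a2
    induction a2 with
    | refl => exact fun a3 => by rw [(h5 i a1 a3).2]; omega
    | @step j a2 ih =>
      intro a3
      have a2 : i + 1 ≤ j := a2
      have := ih (by omega)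
      have := (h4 j (by omega) (by omega)).1
      rw [(h5 j (by omega) a3).2]
      omega
  have hn : ∀ i, 1 ≤ i → i < N → en i < n := fun i a1 a2 => by
    have := hm i N a1 a2 le_rfl
    have := (h4 N h1 le_rfl).1
    omega
  have hn' : ∀ i, 1 ≤ i → i ≤ N → en i ≤ n := fun i a1 a2 => by
    rcases a2.lt_or_eq with a2 | rfl
    · exact (hn i a1 a2).le
    · exact h3.le
  have hadj : ∀ i, 1 ≤ i → i ≤ N → ∀ r, st i ≤ r → r < en i → G.Adj (x r) (x (r + 1)) :=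
    fun i a1 a2 r a3 a4 => (P.step r (a4.trans_le (hn' i a1 a2)) ((h4 i a1 a2).2 r a3 a4)).1
  have hee : ∀ i i', 1 ≤ i → i < i' → i' ≤ N → en i < en i' := fun i i' a1 a2 a3 =>
    (hm i i' a1 a2 a3).trans_le (h4 i' (by omega) a3).1
  refine ⟨x, N, st, en, h1, h2 ▸ P.f0, h3 ▸ P.fn, fun i a1 a2 => (h4 i a1 a2).1, hadj,
    fun i a1 a2 => ?_, fun i a1 a2 => ?_, fun i a1 a2 r a3 a4 => ?_,
    fun i a1 a2 r r' a3 a4 a5 => ?_, fun i a1 a2 i' b1 b2 hne r r' c1 c2 c3 c4 => ?_,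
    fun i a1 a2 => ?_, fun i i' a1 a2 a3 => ?_, fun i i' a1 a2 a3 => ?_⟩
  · rcases a1.lt_or_eq with a1 | rfl
    · obtain ⟨j, rfl⟩ : ∃ j, i = j + 1 := ⟨i - 1, by omega⟩
      obtain ⟨b1, b2⟩ := h5 j (by omega) a2
      exact b2 ▸ (P.tel _ (hn j (by omega) a2) b1).2.1
    · exact h2 ▸ P.d0
  · rcases a2.lt_or_eq with a2 | rfl
    · exact (P.tel _ (hn i a1 a2) (h5 i a1 a2).1).1
    · exact h3 ▸ P.dn
  · exact ⟨P.shallow H (a4.trans (hn' i a1 a2)), P.deep H (a4.trans (hn' i a1 a2))⟩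
  · exact P.back H a4 (a5.trans (hn' i a1 a2)) fun j b1 b2 => hadj i a1 a2 j (by omega) (by omega)
  · rcases lt_or_gt_of_ne hne with hlt | hlt
    · exact P.key H c2 ((hm i i' a1 hlt b2).trans_le c3) (c4.trans (hn' i' b1 b2))
        (h5 i a1 (by omega)).1
    · have := P.key H c4 ((hm i' i b1 hlt a2).trans_le c1) (c2.trans (hn' i a1 a2))
        (h5 i' b1 (by omega)).1
      rw [dcomm]
      omega
  · rw [(h5 i a1 a2).2]
    exact P.over H (hn i a1 a2) (h5 i a1 a2).1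
  · rw [(h5 i a1 (by omega)).2, (h5 i' (by omega) a3).2]
    exact P.two H (hee i i' a1 a2 a3.le) (hn i' (by omega) a3) (h5 i a1 (by omega)).1
      (h5 i' (by omega) a3).1
  · rw [(h5 i' (by omega) a3).2]
    exact P.three H (hee i (i + 1) a1 (by omega) (by omega)) (hee (i + 1) i' (by omega) a2 a3.le)
      (hn i' (by omega) a3) (h5 i a1 (by omega)).1 (h5 (i + 1) (by omega) (by omega)).1
      (h5 i' (by omega) a3).1

end Pool.Agent.MP_77f003_co.H49
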