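import Pool.Agent.MP_77f003_co.H4.LT

/-!
The lane theorem in vertex-transitive graphs: far double rays between two ends that no ball
separates.
-/

namespace Pool.Agent.MP_77f003_co.H49

open SimpleGraph Filter

variable {V : Type} {G : SimpleGraph V} [Fact G.Connected] [G.LocallyFinite]

theorem lt_local (ht : VT G) (r : ℕ) : ∃ R, r + 1 ≤ R ∧ ∀ z u v, G.dist z u ≤ r + 1 →
    G.dist z v ≤ r + 1 → Lk G {y | r < G.dist z y} u v → ∃ (w : ℕ → V) (n : ℕ), n ≤ R ∧ w 0 = u ∧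
      w n = v ∧ (∀ i < n, G.Adj (w i) (w (i + 1))) ∧ ∀ i, r < G.dist z (w i) := by
  obtain ⟨o⟩ := (Fact.out : G.Connected).nonempty
  have : ∀ q : V × V, ∃ n : ℕ, Lk G {y | r < G.dist o y} q.1 q.2 → ∃ w : ℕ → V, w 0 = q.1 ∧
      w n = q.2 ∧ (∀ i < n, G.Adj (w i) (w (i + 1))) ∧ ∀ i, r < G.dist o (w i) := by
    intro q
    by_cases h : Lk G {y | r < G.dist o y} q.1 q.2
    · obtain ⟨w, n, h⟩ := h.exists_seq
      exact ⟨n, fun _ => ⟨w, h⟩⟩
    · exact ⟨0, fun h' => absurd h' h⟩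
  choose c hc using this
  refine ⟨(ball G o (r + 1) ×ˢ ball G o (r + 1)).sup c + (r + 1), by omega,
    fun z u v hu hv h => ?_⟩
  obtain ⟨φ, rfl⟩ := ht z o
  obtain ⟨w, h1, h2, h3, h4⟩ := hc (φ u, φ v) ((h.map φ).mono (by
    rintro _ ⟨y, hy, rfl⟩
    simpa [dist_iso] using hy))
  refine ⟨fun i => φ.symm (w i), c (φ u, φ v), le_trans (Finset.le_sup (f := c) ?_)
    (Nat.le_add_right _ _), by simp [h1], by simp [h2],
    fun i hi => φ.symm.map_adj_iff.2 (h3 i hi), fun i => ?_⟩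
  · simp [mem_ball, dist_iso, hu, hv]
  · have := h4 i
    rwa [← dist_iso φ.symm, RelIso.symm_apply_apply] at this

theorem lt_line (ht : VT G) (S N : ℕ) : ∃ ρ W : ℕ, ∀ P : ℤ → V, IsLine G P →
    (∀ (t : ℤ) (r : ℕ), r ≤ ρ →
      Lk G {y | r < G.dist (P t) y} (P (t - (r + 1))) (P (t + (r + 1)))) →
    ∃ L : ℕ → ℤ → Set V, (∀ j < N, ∀ u, Conn G (L j u) ∧ (∀ x ∈ L j u, G.dist (P u) x ≤ W) ∧
      (L j u ∩ L j (u + 1)).Nonempty) ∧
      ∀ i < N, ∀ j < N, i ≠ j → ∀ u v, Far G S (L i u) (L j v) := by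
  choose R hR hR' using lt_local ht
  obtain ⟨W, ρ, h⟩ := laneSpec N S R
  refine ⟨ρ, W, fun P hP hd => ?_⟩
  have key : ∀ M : ℕ, ∃ L, W ≤ M → LtLanes G (fun u => P (u - M)) (2 * M) N S W L := by
    intro M
    by_cases hM : W ≤ M
    · obtain ⟨L, hL⟩ := h G (fun u => P (u - M)) (2 * M)
        (fun a b h1 h2 => by rw [hP]; omega) (by omega) fun r hr t h1 h2 => by
          have := hR r
          obtain ⟨w, n, a1, a2, a3, a4, a5⟩ := hR' r (P (t - M)) _ _ (by rw [hP]; omega)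
            (by rw [hP]; omega) (hd (t - M) r hr)
          exact ⟨t - (r + 1), t + (r + 1), n, w, by omega, by omega, by omega, a1,
            by rw [a2]; congr 1; omega, by rw [a3]; congr 1; push_cast; omega, a4,
            fun i _ => a5 i⟩
      exact ⟨L, fun _ => hL⟩
    · exact ⟨fun _ _ => ∅, fun h => absurd h hM⟩
  choose L hL using key
  have hev : ∀ n : ℕ, ∀ᶠ M in hyperfilter ℕ, n ≤ M := fun n =>
    Nat.hyperfilter_le_atTop (eventually_ge_atTop n)
  have lim : ∀ (j : ℕ) (u : ℤ), ∃ T : Set V, j < N →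
      ∀ᶠ M in hyperfilter ℕ, L M j (u + M).toNat = T := by
    intro j u
    by_cases hj : j < N
    · obtain ⟨T, -, hT⟩ := (Ultrafilter.eventually_exists_mem_iff (f := hyperfilter ℕ)
        (P := fun T M => L M j (u + M).toNat = T)
        (finite_ball (G := G) (P u) W).finite_subsets).1 (by
          filter_upwards [hev (u.natAbs + W)] with M hM
          refine ⟨_, fun x hx => ?_, rfl⟩
          have := (hL M (by omega)).near j hj _ (by omega) x hx
          rwa [show (((u + M).toNat : ℕ) : ℤ) - M = u by omega] at this)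
      exact ⟨T, fun _ => hT⟩
    · exact ⟨∅, fun h => absurd h hj⟩
  choose T hT using lim
  refine ⟨T, fun j hj u => ?_, fun i hi j hj hne u v => ?_⟩
  · obtain ⟨M, h1, h2, h3⟩ :=
      ((hT j u hj).and ((hT j (u + 1) hj).and (hev (u.natAbs + W + 1)))).exists
    have H := hL M (by omega)
    rw [← h1, ← h2, show (u + 1 + M).toNat = (u + M).toNat + 1 by omega]
    refine ⟨H.conn j hj _ (by omega), fun x hx => ?_, H.meet j hj _ (by omega)⟩
    have := H.near j hj _ (by omega) x hx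
    rwa [show (((u + M).toNat : ℕ) : ℤ) - M = u by omega] at this
  · obtain ⟨M, h1, h2, h3⟩ :=
      ((hT i u hi).and ((hT j v hj).and (hev (u.natAbs + v.natAbs + W)))).exists
    rw [← h1, ← h2]
    exact (hL M (by omega)).far i hi j hj hne _ (by omega) _ (by omega)

theorem lt_lazy (ht : VT G) {P : ℤ → V} {W : ℕ} {L : ℤ → Set V} (h : ∀ u, Conn G (L u) ∧
    (∀ x ∈ L u, G.dist (P u) x ≤ W) ∧ (L u ∩ L (u + 1)).Nonempty) :
    ∃ (l : ℤ → V) (B : ℕ), 0 < B ∧ (∀ n, G.dist (l n) (l (n + 1)) ≤ 1) ∧ ∀ n, l n ∈ L (n / B) := by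
  classical
  choose c hc using fun u => (h u).2.2
  have key : ∀ u, ∃ g : ℕ → V, g 0 = c (u - 1) ∧ g (ball G (P 0) W).card = c u ∧
      (∀ i, G.dist (g i) (g (i + 1)) ≤ 1) ∧ ∀ i, g i ∈ L u := by
    intro u
    obtain ⟨q, hq⟩ := (h u).1 (c (u - 1)) (by simpa using (hc (u - 1)).2) (c u) (hc u).1
    have e1 : q.bypass.support.toFinset ⊆ ball G (P u) W := fun z hz =>
      mem_ball.2 ((h u).2.1 z (hq z (q.support_bypass_subset_support (List.mem_toFinset.1 hz))))
    have e2 := Finset.card_le_card e1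
    rw [List.toFinset_card_of_nodup q.bypass_isPath.support_nodup, Walk.length_support,
      card_ball_eq ht _ (P 0)] at e2
    refine ⟨q.bypass.getVert, q.bypass.getVert_zero, q.bypass.getVert_of_length_le (by omega),
      fun i => ?_, fun i => hq _ (q.support_bypass_subset_support (q.bypass.getVert_mem_support i))⟩
    rcases lt_or_ge i q.bypass.length with hi | hi
    · exact (dist_adj (q.bypass.adj_getVert_succ hi)).le
    · rw [q.bypass.getVert_of_length_le hi, q.bypass.getVert_of_length_le (by omega)]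
      simp
  choose g g0 g1 g2 g3 using key
  have hB : 0 < (ball G (P 0) W).card := Finset.card_pos.2 ⟨_, self_mem_ball _ _⟩
  set B := (ball G (P 0) W).card
  refine ⟨fun n => g (n / B) (n % B).toNat, B, hB, fun n => ?_, fun n => g3 _ _⟩
  have hB' : (0 : ℤ) < B := by exact_mod_cast hB
  have e1 := Int.emod_nonneg n hB'.ne'
  have e2 := Int.emod_lt_of_pos n hB'
  have e3 := Int.emod_add_mul_ediv n B
  have e4 := g2 (n / B) (n % B).toNat
  by_cases hc : n % B + 1 < B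
  · obtain ⟨a1, a2⟩ := (Int.ediv_emod_unique (a := n + 1) (q := n / B) (r := n % B + 1) hB').2
      ⟨by omega, by omega, hc⟩
    simp only [a1, a2]
    rwa [show (n % B + 1).toNat = (n % B).toNat + 1 by omega]
  · obtain ⟨a1, a2⟩ := (Int.ediv_emod_unique (a := n + 1) (q := n / B + 1) (r := 0) hB').2
      ⟨by rw [mul_add]; omega, le_rfl, hB'⟩
    simp only [a1, a2]
    rwa [Int.toNat_zero, g0, add_sub_cancel_right, ← g1,
      show B = (n % B).toNat + 1 by omega, ← show B = (n % B).toNat + 1 by omega,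
      show g (n / B) B = g (n / B) ((n % B).toNat + 1) by congr 1; omega]

theorem lt_exists_line {a b : ℕ → V} (ha : ∀ x t, ∀ᶠ n in atTop, t ≤ G.dist x (a n))
    (hb : ∀ x t, ∀ᶠ n in atTop, t ≤ G.dist x (b n)) {z : V} {r k : ℕ}
    (h : ∀ m n, k ≤ m → k ≤ n → ¬ Lk G {y | r < G.dist z y} (a m) (b n)) :
    ∃ P : ℤ → V, IsLine G P ∧ ∀ i k' : ℕ,
      (∃ n, k' ≤ n ∧ Lk G {y | i ≤ G.dist (P 0) y} (P i) (b n)) ∧
      ∃ n, k' ≤ n ∧ Lk G {y | i ≤ G.dist (P 0) y} (P (-i)) (a n) := by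
  obtain ⟨o, -, ho⟩ := (Ultrafilter.eventually_exists_mem_iff (f := hyperfilter ℕ)
    (P := fun o n => G.dist (a n) o + G.dist o (b n) ≤ G.dist (a n) (b n))
    (finite_ball (G := G) z r)).1 (by
      filter_upwards [Nat.hyperfilter_le_atTop (eventually_ge_atTop k)] with n hn
      by_contra hc
      push Not at hc
      exact h n n hn hn (Lk.geo fun y hy => not_le.1 fun hy' => absurd hy (hc y hy').not_ge))
  have key : ∀ M : ℕ, ∃ (n : ℕ) (l : ℤ → V), M ≤ n ∧ l 0 = o ∧ (∀ i j : ℤ, i.natAbs ≤ M →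
      j.natAbs ≤ M → G.dist (l i) (l j) = (i - j).natAbs) ∧ ∀ i ≤ M,
      Lk G {y | i ≤ G.dist o y} (l i) (b n) ∧ Lk G {y | i ≤ G.dist o y} (l (-i)) (a n) := by
    intro M
    obtain ⟨n, h1, h2, h3, h4⟩ := (ho.and (Nat.hyperfilter_le_atTop
      ((eventually_ge_atTop M).and ((ha o M).and (hb o M))))).exists
    obtain ⟨q, q0, q1, q2⟩ := exists_geo' (G := G) o (b n)
    obtain ⟨q', q0', q1', q2'⟩ := exists_geo' (G := G) o (a n)
    have e0 : ∀ {q : ℕ → V} {y : V}, q 0 = o → q (G.dist o y) = y →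
        (∀ a b, a ≤ b → b ≤ G.dist o y → G.dist (q a) (q b) = b - a) → ∀ i ≤ G.dist o y,
        Lk G {w | i ≤ G.dist o w} (q i) y := by
      intro q y a0 a1 a2 i hi
      refine Lk.geo fun w hw => ?_
      have b1 := a2 i _ hi le_rfl
      have b2 := tri (G := G) o w y
      rw [a1] at b1
      change i ≤ _
      omega
    have e1 : ∀ i j : ℕ, i ≤ M → j ≤ M → G.dist (q' i) (q j) = i + j := by
      intro i j hi hj
      have b1 := q2 0 j (Nat.zero_le _) (by omega)
      have b2 := q2' 0 i (Nat.zero_le _) (by omega)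
      have b3 := q2 j _ (by omega) le_rfl
      have b4 := q2' i _ (by omega) le_rfl
      have b5 := tri (G := G) (q' i) o (q j)
      have b6 := tri (G := G) (a n) (q' i) (b n)
      have b7 := tri (G := G) (q' i) (q j) (b n)
      rw [q0] at b1
      rw [q0', dcomm] at b2
      rw [q1] at b3
      rw [q1', dcomm] at b4
      rw [dcomm (a n) o] at h1
      omega
    refine ⟨n, fun i => if 0 ≤ i then q i.toNat else q' (-i).toNat, h2, by simpa using q0,
      fun i j hi hj => ?_, fun i hi => ⟨by simpa using e0 q0 q1 q2 i (by omega), ?_⟩⟩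
    · beta_reduce
      split_ifs with c1 c2 c2
      · rcases le_total i j with c | c
        · rw [q2 _ _ (by omega) (by omega)]
          omega
        · rw [dcomm, q2 _ _ (by omega) (by omega)]
          omega
      · rw [dcomm, e1 _ _ (by omega) (by omega)]
        omega
      · rw [e1 _ _ (by omega) (by omega)]
        omega
      · rcases le_total i j with c | c
        · rw [dcomm, q2' _ _ (by omega) (by omega)]
          omega
        · rw [q2' _ _ (by omega) (by omega)]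
          omega
    · have := e0 q0' q1' q2' i (by omega)
      rcases Nat.eq_zero_or_pos i with rfl | c
      · simpa [q0, q0'] using this
      · simpa [c.ne'] using this
  choose n l k1 k2 k3 k4 using key
  obtain ⟨P, hP, hl⟩ := limit_line o l k2 k3
  have h0 : P 0 = o := by
    obtain ⟨M, hM⟩ := (hl 0).exists
    rw [← hM, k2]
  refine ⟨P, hP, fun i k' => ?_⟩
  obtain ⟨M, a1, a2, a3⟩ := ((hl i).and ((hl (-i)).and
    (Nat.hyperfilter_le_atTop (eventually_ge_atTop (i + k'))))).exists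
  have := k1 M
  rw [← a1, ← a2, h0]
  exact ⟨⟨n M, by omega, (k4 M i (by omega)).1⟩, n M, by omega, (k4 M i (by omega)).2⟩

omit [G.LocallyFinite] in
theorem lt_tail {P : ℤ → V} (hP : IsLine G P) {b : ℕ → V}
    (hl : ∀ n, G.dist (b n) (b (n + 1)) ≤ 1) (hb : ∀ x t, ∀ᶠ n in atTop, t ≤ G.dist x (b n))
    (h : ∀ i k' : ℕ, ∃ n, k' ≤ n ∧ Lk G {y | i ≤ G.dist (P 0) y} (P i) (b n)) (t : ℤ) (r : ℕ) :
    ∀ᶠ n in atTop, Lk G {y | r < G.dist (P t) y} (P (t + (r + 1))) (b n) := by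
  obtain ⟨k, hk⟩ := eventually_atTop.1 (hb (P t) (r + 1))
  obtain ⟨n, h1, h2⟩ := h (t.natAbs + (r + 1)) k
  filter_upwards [eventually_ge_atTop k] with m hm
  refine (Lk.trans (Lk.geo fun y hy => ?_) (h2.mono fun y hy => ?_)).trans
    (lk_lazy hl fun i a1 _ => hk i (by omega))
  · have e1 := tri (G := G) (P t) y (P (t.natAbs + (r + 1) : ℕ))
    rw [hP] at e1 hy
    change r < _
    omega
  · have e1 := tri (G := G) (P 0) (P t) y
    have e2 : t.natAbs + (r + 1) ≤ G.dist (P 0) y := hy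
    rw [hP] at e1
    change r < _
    omega

omit [G.LocallyFinite] in
theorem lt_end {P : ℤ → V} (hP : IsLine G P) {b l : ℕ → V} {W : ℕ} {u : ℕ → ℕ}
    (h : ∀ i k' : ℕ, ∃ n, k' ≤ n ∧ Lk G {y | i ≤ G.dist (P 0) y} (P i) (b n))
    (hu : Tendsto u atTop atTop) (hl : ∀ n, G.dist (P (u n)) (l n) ≤ W) :
    (∀ x t, ∀ᶠ n in atTop, t ≤ G.dist x (l n)) ∧
      ∀ z r k, ∃ m n, k ≤ m ∧ k ≤ n ∧ Lk G {y | r < G.dist z y} (l m) (b n) := by
  refine ⟨fun x t => ?_, fun z r k => ?_⟩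
  · filter_upwards [hu.eventually_ge_atTop (t + W + G.dist (P 0) x)] with n hn
    have e1 := tri (G := G) (P 0) x (P (u n))
    have e2 := tri (G := G) x (l n) (P (u n))
    have e3 := hl n
    rw [hP] at e1
    rw [dcomm] at e3
    omega
  · obtain ⟨m, a1, a2⟩ := ((eventually_ge_atTop k).and
      (hu.eventually_ge_atTop (r + 1 + W + G.dist (P 0) z))).exists
    obtain ⟨n, a3, a4⟩ := h (u m) k
    refine ⟨m, n, a1, a3, Lk.trans (Lk.ball fun y hy => ?_).symm (a4.mono fun y hy => ?_)⟩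
    · have e1 := tri (G := G) (P 0) z (P (u m))
      have e2 := tri (G := G) z y (P (u m))
      have e3 := hl m
      rw [hP] at e1
      rw [dcomm] at hy
      change r < _
      omega
    · have e1 := tri (G := G) (P 0) z y
      have e2 : u m ≤ G.dist (P 0) y := hy
      change r < _
      omega

/-- Far double rays between two ends that are not separated by a ball of a given radius. -/
theorem lt_double (ht : VT G) (S N : ℕ) : ∃ ρ : ℕ, ∀ a b : ℕ → V,
    (∀ n, G.dist (a n) (a (n + 1)) ≤ 1) → (∀ x t, ∀ᶠ n in atTop, t ≤ G.dist x (a n)) →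
    (∀ n, G.dist (b n) (b (n + 1)) ≤ 1) → (∀ x t, ∀ᶠ n in atTop, t ≤ G.dist x (b n)) →
    (¬ ∀ z r k, ∃ m n, k ≤ m ∧ k ≤ n ∧ Lk G {y | r < G.dist z y} (a m) (b n)) →
    (∀ z k, ∃ m n, k ≤ m ∧ k ≤ n ∧ Lk G {y | ρ < G.dist z y} (a m) (b n)) →
    ∃ l : ℕ → ℤ → V, (∀ j < N, (∀ n, G.dist (l j n) (l j (n + 1)) ≤ 1) ∧
      (∀ x t, ∀ᶠ n : ℕ in atTop, t ≤ G.dist x (l j n)) ∧
      (∀ x t, ∀ᶠ n : ℕ in atTop, t ≤ G.dist x (l j (-n))) ∧
      (∀ z r k, ∃ m n : ℕ, k ≤ m ∧ k ≤ n ∧ Lk G {y | r < G.dist z y} (l j m) (b n)) ∧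
      ∀ z r k, ∃ m n : ℕ, k ≤ m ∧ k ≤ n ∧ Lk G {y | r < G.dist z y} (l j (-m)) (a n)) ∧
      ∀ i < N, ∀ j < N, i ≠ j → ∀ u v, S ≤ G.dist (l i u) (l j v) := by
  obtain ⟨ρ, W, h⟩ := lt_line ht S N
  refine ⟨ρ, fun a b a1 a2 b1 b2 hne hs => ?_⟩
  push Not at hne
  obtain ⟨z, r, k, hne⟩ := hne
  obtain ⟨P, hP, hP'⟩ := lt_exists_line a2 b2 hne
  have hQ : IsLine G fun i => P (-i) := fun i j => by rw [hP]; omega
  obtain ⟨L, hL, hf⟩ := h P hP fun t r hr => by
    obtain ⟨k, hk⟩ := eventually_atTop.1 ((lt_tail hP b1 b2 (fun i k' => (hP' i k').1) t r).and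
      (lt_tail hQ a1 a2 (fun i k' => by simpa using (hP' i k').2) (-t) r))
    obtain ⟨m, n, c1, c2, c3⟩ := hs (P t) k
    have e1 := (hk m c1).2
    simp only [neg_neg] at e1
    rw [show -(-t + (r + 1 : ℤ)) = t - (r + 1) by ring] at e1
    exact (e1.trans (c3.mono fun y hy => lt_of_le_of_lt hr hy)).trans (hk n c2).1.symm
  have key : ∀ j, ∃ (l : ℤ → V) (B : ℕ), j < N → 0 < B ∧ (∀ n, G.dist (l n) (l (n + 1)) ≤ 1) ∧
      ∀ n, l n ∈ L j (n / B) := by
    intro j
    by_cases hj : j < N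
    · obtain ⟨l, B, h⟩ := lt_lazy ht (hL j hj)
      exact ⟨l, B, fun _ => h⟩
    · exact ⟨P, 0, fun h => absurd h hj⟩
  choose l B hl using key
  refine ⟨l, fun j hj => ?_, fun i hi j hj hne u v =>
    hf i hi j hj hne _ _ _ ((hl i hi).2.2 u) _ ((hl j hj).2.2 v)⟩
  obtain ⟨c1, c2, c3⟩ := hl j hj
  have hu : Tendsto (fun n => n / B j) atTop atTop := Nat.tendsto_div_const_atTop c1.ne'
  have e1 := lt_end (l := fun n : ℕ => l j n) (W := W) hP (fun i k' => (hP' i k').1) hu fun n => by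
    simpa using (hL j hj _).2.1 _ (c3 n)
  have e2 := lt_end (l := fun n : ℕ => l j (-n)) (W := W + 1) hQ
    (fun i k' => by simpa using (hP' i k').2) hu fun n => by
      have d1 := (hL j hj _).2.1 _ (c3 (-n))
      have d2 := tri (G := G) (P (-(n / B j : ℕ))) (P (-n / B j)) (l j (-n))
      have hB' : (0 : ℤ) < B j := by exact_mod_cast c1
      have d3 : (-(n : ℤ)) / B j = -((n : ℤ) / B j) ∨ (-(n : ℤ)) / B j = -((n : ℤ) / B j) - 1 := by
        rw [Int.neg_ediv, Int.sign_eq_one_of_pos hB']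
        split_ifs <;> simp
      rw [hP] at d2
      push_cast at d2 ⊢
      omega
  exact ⟨c2, e1.1, e2.1, e1.2, e2.2⟩

end Pool.Agent.MP_77f003_co.H49
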