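import Pool.Agent.MP_77f003_co.H4.LTD
import Pool.Agent.MP_77f003_co.H51.HSpec

/-!
Many far double rays between two ends, in the form used by the last case.
-/

namespace Pool.Agent.MP_77f003_co.H49

open SimpleGraph Filter Set

theorem ltSpec : LTSpec := by
  intro V G _ _ ht S N
  obtain ⟨ρ, hρ⟩ := lt_double ht S N
  refine ⟨ρ, fun a b ha hb hne hns => ?_⟩
  obtain ⟨l, h1, h2⟩ := hρ a b ha.1 ha.2 hb.1 hb.2 (fun h => hne fun x t => by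
    obtain ⟨m, n, -, -, k⟩ := h x t 0
    exact ⟨m, n, k.mono fun _ (hy : t < _) => hy.le⟩) hns
  have hf : ∀ i j : Fin N, i ≠ j → Far G S (range (l i)) (range (l j)) := by
    rintro i j hij _ ⟨u, rfl⟩ _ ⟨v, rfl⟩
    exact h2 i i.2 j j.2 (fun e => hij (Fin.ext e)) u v
  refine ⟨fun j => l j, ⟨fun j => ⟨fun n => ?_, (h1 j j.2).2.2.1⟩, fun j x t => ?_, ?_⟩,
    ⟨fun j => ⟨fun n => ?_, (h1 j j.2).2.1⟩, fun j x t => ?_, ?_⟩, hf⟩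
  · have := (h1 j j.2).1 (-((n + 1 : ℕ) : ℤ))
    rw [show -((n + 1 : ℕ) : ℤ) + 1 = -(n : ℤ) by push_cast; ring, dcomm] at this
    exact this
  · obtain ⟨m, n, -, -, k⟩ := (h1 j j.2).2.2.2.2 x t 0
    exact ⟨m, n, k.mono fun _ (hy : t < _) => hy.le⟩
  · rintro i j hij _ ⟨u, rfl⟩ _ ⟨v, rfl⟩
    exact hf i j hij _ ⟨_, rfl⟩ _ ⟨_, rfl⟩
  · have := (h1 j j.2).1 n
    exact_mod_cast this
  · obtain ⟨m, n, -, -, k⟩ := (h1 j j.2).2.2.2.1 x t 0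
    exact ⟨m, n, k.mono fun _ (hy : t < _) => hy.le⟩
  · rintro i j hij _ ⟨u, rfl⟩ _ ⟨v, rfl⟩
    exact hf i j hij _ ⟨_, rfl⟩ _ ⟨_, rfl⟩

end Pool.Agent.MP_77f003_co.H49
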