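import Pool.Agent.MP_77f003_co.H4.RA

/-!
A cross at a thick end gives all fat cliques.
-/

namespace Pool.Agent.MP_77f003_co.H49

open SimpleGraph Filter Set Function

namespace R

variable {V : Type} {G : SimpleGraph V} {K : ℕ} {ι κ : Type}

theorem rch_dist {H : SimpleGraph κ} {U : Set κ} (hU : U.Finite) {l c : κ} (h : Rch H U l c)
    (hl : l ∈ U) : H.dist l c < U.ncard := by
  classical
  obtain ⟨p, hp⟩ : Lk H U l c := by
    induction h with
    | refl => exact Lk.refl hl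
    | tail _ e ih => exact ih.trans (Lk.adj e.2.2 e.1 e.2.1)
  have e1 := dist_le p.bypass
  have e2 := p.bypass.length_support
  have e3 := List.toFinset_card_of_nodup p.bypass_isPath.support_nodup
  have e4 := ncard_le_ncard (s := (p.bypass.support.toFinset : Set κ))
    (fun z hz => hp z (p.support_bypass_subset_support (by simpa using hz))) hU
  rw [ncard_coe_finset] at e4
  omega

/-- Gadgets can be attached to the family next to any of its rays. -/
def Gd (G : SimpleGraph V) (K : ℕ) (Φ : κ → ℕ → V) : Prop :=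
  ∀ (c₀ : κ) (X₀ : Set V), X₀.Finite → ∃ (S : Fin 4 → Set V) (τ : Fin 4 → κ) (U : Set κ)
    (Ψ : Fin 4 → ℕ → V), Gad G K (fun a => Ψ a 0) S ∧ Injective τ ∧ c₀ ∈ U ∧ U.ncard ≤ 25 ∧
    (∀ l ∈ U, Rch (BG G K Φ) U l c₀) ∧ (∀ a, τ a ∈ U ∧ Far G K X₀ (S a) ∧
      (∀ l ∉ U, Far G K (S a ∪ range (Ψ a)) (range (Φ l))) ∧ LR G (Ψ a) ∧ TE (Ψ a) (Φ (τ a)) ∧
      Far G K (S a ∪ X₀) (range (Ψ a))) ∧ ∀ a b, a ≠ b → Far G K (range (Ψ a)) (range (Ψ b))

variable [Fact G.Connected] {Φ : κ → ℕ → V}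

theorem gadget (hG : GadSpec) (hU : UPSpec) (hR : ReachSpec) [G.LocallyFinite] [Fintype κ]
    {ω : ℕ → V} (ht : VT G) (hK : 1 ≤ K) (hω : LR G ω) (hT : Thk G ω) (hC : Crs G (729 * K) ω)
    (hΦ : RF G (9 * K) ω Φ) (hD : ∀ c d, c ≠ d → Div G (Φ c) (Φ d))
    (hn : 24 ≤ Fintype.card κ) : Gd G K Φ := by
  classical
  intro c₀ X₀ hX
  obtain ⟨t, t1⟩ := hR G K Φ (ω 0) hK (hΦ.le (by omega)).far
  have f1 := hX.union (finite_ball (G := G) (ω 0) (t + K))
  obtain ⟨n₀, n1⟩ := (eventually_all.2 fun l => (hΦ.lr l).tail f1 (9 * K)).exists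
  have f2 := f1.union (finite_iUnion fun l => (finite_Iic n₀).image (Φ l))
  obtain ⟨D, hk⟩ := hG G (9 * K) ω (Φ c₀) _ ht (by omega) hω hT (by rwa [← mul_assoc]) f2
    (hΦ.lr _) (hΦ.se _)
  obtain ⟨k₀, k1⟩ := eventually_atTop.1 (((hΦ.lr c₀).tail f2 (D + 9 * K)).and
    (eventually_all.2 fun l => eventually_all.2 fun e : c₀ ≠ l => hD _ _ e (D + 9 * K)))
  obtain ⟨k, k2, c, S, c1, ⟨g0, g1, g2, g3⟩, c2⟩ := hk k₀
  obtain ⟨k3, k4⟩ := k1 k k2
  have b1 : ∀ z, G.dist (Φ c₀ k) z ≤ D → (∀ x ∈ X₀ ∪ {y | G.dist (ω 0) y ≤ t + K},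
      9 * K ≤ G.dist x z) ∧ ∀ l, l ≠ c₀ → ∀ m, 9 * K ≤ G.dist z (Φ l m) := fun z hz =>
    ⟨fun x hx => by
      have := k3 x (Or.inl hx) _ ⟨k, le_refl k, rfl⟩
      have := tri (G := G) x z (Φ c₀ k)
      rw [dcomm] at hz
      omega, fun l e m => by
      have := k4 l e.symm m
      have := tri (G := G) (Φ c₀ k) z (Φ l m)
      omega⟩
  have b2 := fun a z (hz : z ∈ S a) => b1 z ((c2 a).1 z (Or.inr hz))
  have : ∀ l, ∃ n, n₀ ≤ n ∧ (l ≠ c₀ → n = n₀) ∧ ∀ a, Far G (9 * K) (S a) (Φ l '' Ici n) := fun l => by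
    by_cases e : l = c₀
    · obtain ⟨n, h1, h2⟩ := ((eventually_ge_atTop n₀).and
        (eventually_all.2 fun a => (hΦ.lr l).tail (g0 a) (9 * K))).exists
      exact ⟨n, h1, fun e' => absurd e e', h2⟩
    · exact ⟨n₀, le_rfl, fun _ => rfl, fun a z hz _ ⟨m, _, e'⟩ => e' ▸ (b2 a z hz).2 l e m⟩
  choose n m1 m2 m3 using this
  have r1 : ∀ l, range (fun k => Φ l (n l + k)) ⊆ Φ l '' Ici (n l) := by
    rintro l _ ⟨k, rfl⟩
    exact ⟨_, Nat.le_add_right _ _, rfl⟩
  have r2 := fun l => (r1 l).trans (image_subset_range _ _)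
  obtain ⟨⟨τ, T, Ψ, u1, u2, ⟨u3, u4⟩, u5⟩, -⟩ := hU G K ω c (fun l k => Φ l (n l + k))
    (fun a => S a ∪ (X₀ ∪ {y | G.dist (ω 0) y ≤ t + K}))
    (fun l => {z | l ≠ c₀ ∧ z ∈ Φ l '' Iic n₀}) hK hω c1
    ⟨fun l => (hΦ.lr l).shift _, fun l => ((TE.shift _ _).se ((hΦ.lr l).shift _)).trans (hΦ.se l)
      ((hΦ.lr l).shift _) (hΦ.lr l) hω, fun i j e => (hΦ.far i j e).mono (r2 i) (r2 j)⟩
    (by simpa using hn)
    (fun a => ⟨(g0 a).union f1, (c2 a).2.mono (union_subset_union_right _ subset_union_left) le_rfl,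
      fun l => ((m3 l a).mono le_rfl (r1 l)).union
        ((n1 l).mono le_rfl ((r1 l).trans (image_mono (Ici_subset_Ici.2 (m1 l)))))⟩)
    fun l => ⟨((finite_Iic n₀).image (Φ l)).subset fun _ h => h.2, fun a => (c2 a).2.mono
      (fun z hz => Or.inr (Or.inr (mem_iUnion.2 ⟨l, hz.2⟩))) le_rfl, fun l' e =>
      (hΦ.far l l' e.symm).mono (fun z hz => image_subset_range _ _ hz.2) (r2 l')⟩
  set U := {l | l = c₀ ∨ ∃ a, ¬ Far G K (range (Ψ a)) (range (Φ l))} with hU
  have v1 : ∀ l ∉ U, l ≠ c₀ ∧ ∀ a, Far G K (range (Ψ a)) (range (Φ l)) := fun l hl =>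
    ⟨fun e => hl (Or.inl e), fun a => by_contra fun e => hl (Or.inr ⟨a, e⟩)⟩
  have v2 : ∀ a j, t + K < G.dist (ω 0) (Ψ a j) := fun a j => not_le.1 fun e => by
    have := (u4 a).2.2 _ (Or.inr (Or.inr e)) _ ⟨j, rfl⟩
    rw [SimpleGraph.dist_self] at this
    omega
  have le : ∀ {a b c' d}, Pair G (9 * K) (fun a => c a 0) S a b c' d →
      Pair G K (fun a => Ψ a 0) S a b c' d := fun ⟨L, L', h1, h2, h3, h4⟩ =>
    ⟨L, L', by simpa only [(u4 _).1] using h1, by simpa only [(u4 _).1] using h2,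
      h3.le (by omega), h4⟩
  refine ⟨S, τ, U, Ψ, ⟨g0, le g1, le g2, le g3⟩, u1, Or.inl rfl, ?_, fun l hl => ?_, fun a =>
    ⟨Or.inr ⟨a, fun e => ?_⟩, fun x hx z hz => le_trans (by omega) ((b2 a z hz).1 x (Or.inl hx)),
      fun l hl => Far.union (fun z hz _ ⟨m, e⟩ => e ▸ le_trans (by omega)
        ((b2 a z hz).2 l (v1 l hl).1 m)) ((v1 l hl).2 a), u3.lr a, (u4 a).2.1.trans (TE.shift _ _),
      (u4 a).2.2.mono (union_subset_union_right _ subset_union_left) le_rfl⟩, u3.far⟩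
  · refine (ncard_le_ncard (t := (insert c₀ T : Finset κ)) (fun l hl => ?_) (toFinite _)).trans ?_
    · by_contra e
      simp only [Finset.coe_insert, mem_insert_iff, Finset.mem_coe, not_or] at e
      obtain ⟨a, ha⟩ := hl.resolve_left e.1
      refine ha ((u5 a l e.2).mono le_rfl ?_)
      rintro _ ⟨j, rfl⟩
      rcases le_total j n₀ with e' | e'
      exacts [Or.inl ⟨e.1, j, e', rfl⟩, Or.inr ⟨j - n₀, by rw [m2 l e.1]; simp [e']⟩]
    · rw [ncard_coe_finset]
      exact (Finset.card_insert_le _ _).trans (Nat.succ_le_succ (by simpa using u2))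
  · rcases hl with rfl | ⟨a, ha⟩
    · exact .refl
    simp only [Far, not_forall, not_le] at ha
    obtain ⟨_, ⟨j, rfl⟩, _, ⟨i, rfl⟩, ha⟩ := ha
    have hl : l ∈ U := Or.inr ⟨a, fun e => ha.not_ge (e _ ⟨j, rfl⟩ _ ⟨i, rfl⟩)⟩
    refine t1 U l c₀ i k hl (Or.inl rfl) (Lk.trans (y := Ψ a 0) (Lk.trans (y := Ψ a j)
      (Lk.geo fun z hz => ⟨?_, fun d hd m => ?_⟩) ((u3.lr a).lk fun m _ _ =>
        ⟨(Nat.le_add_right _ _).trans (v2 a m).le, fun d hd m' =>
          (v1 d hd).2 a _ ⟨_, rfl⟩ _ ⟨_, rfl⟩⟩)) (Lk.symm (Lk.ball fun z hz => ?_)))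
    · have := v2 a j
      have := tri (G := G) (ω 0) z (Ψ a j)
      rw [dcomm] at ha
      omega
    · have := hΦ.far l d (fun e => hd (e ▸ hl)) _ ⟨i, rfl⟩ _ ⟨m, rfl⟩
      have := tri (G := G) (Φ l i) z (Φ d m)
      rw [dcomm] at ha
      omega
    · obtain ⟨h1, h2⟩ := b1 z (hz.trans ((u4 a).1 ▸ (c2 a).1 _ (Or.inl rfl)))
      refine ⟨not_lt.1 fun e => ?_, fun d hd m => le_trans (by omega) (h2 d (v1 d hd).1 m)⟩
      have := h1 z (Or.inr (show G.dist (ω 0) z ≤ t + K by omega))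
      rw [SimpleGraph.dist_self] at this
      omega
  · obtain ⟨m, m', h⟩ := (u4 a).2.1
    have := e _ ⟨m + 0, rfl⟩ _ ⟨n (τ a) + (m' + 0), rfl⟩
    rw [h, SimpleGraph.dist_self] at this
    omega

/-- Four gadget tokens are added and slide to four consecutive places of the path. -/
theorem Pth.add (hS : SlideSpec) [Finite ι] [Finite κ] {r : ℕ → κ} {Λ k : ℕ} (P : Pth G K Φ r Λ)
    (hg : Gd G K Φ) {p : ι → ℕ} (p1 : Injective p) (p2 : ∀ i, p i ≤ Λ)
    (p3 : ∀ i, p i ≤ k ∨ k + 60 ≤ p i) (hk : k + 60 ≤ Λ) {X O : ι → Set V}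
    (hO : ∀ i, (O i).Finite) (H : PQ G K X O fun i => Φ (r (p i))) :
    ∃ (y : Fin 4 → V) (S : Fin 4 → Set V), (∀ a, (S a).Finite ∧ Far G K (⋃ i, O i) (S a)) ∧
      Pair G K y S 0 2 3 1 ∧ PQ G K (Sum.elim X fun a => {y a})
        (Sum.elim (fun i => O i ∪ ⋃ a, S a) fun a => S a ∪ ⋃ i, O i)
        fun j => Φ (r (Sum.elim p (fun u : Fin 4 => k + 29 + u) j)) := by
  obtain ⟨Z, n, z1, z2⟩ := H
  obtain ⟨S, τ, U, Ψ, ⟨g0, g1, g2, g3⟩, u1, u2, u3, u4, u5, u6⟩ := hg (r (k + 30)) _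
    ((finite_iUnion hO).union (finite_iUnion fun i => (z1 i).1))
  have q1 : Injective fun u : Fin 4 => r (k + 29 + u) :=
    P.inj' (fun a b e => Fin.ext (by simpa using e)) fun u => by omega
  set T := range fun u : Fin 4 => r (k + 29 + u) with hT
  have q2 : ∀ i, r (p i) ∉ U ∪ T := by
    rintro i (h | ⟨u, h⟩)
    · have := rch_dist (toFinite _) (u4 _ h) h
      rcases p3 i with e | e
      · rw [P.geo _ _ (by omega) (by omega)] at this
        omega
      · rw [SimpleGraph.dist_comm, P.geo _ _ (by omega) (p2 i)] at this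
        omega
    · have := P.inj (by omega) (p2 i) h
      have := p3 i
      omega
  have q3 : ∀ a ∈ U ∪ T, Rch (BG G K Φ) (U ∪ T) a (r (k + 30)) := by
    have m : ∀ u : Fin 4, r (k + 29 + u) ∈ U ∪ T := fun u => Or.inr ⟨u, rfl⟩
    have e2 : Rch (BG G K Φ) (U ∪ T) (r (k + 31)) (r (k + 30)) :=
      .single ⟨m 2, m 1, (P.adj (by omega)).symm⟩
    rintro a (h | ⟨u, rfl⟩)
    · exact Relation.ReflTransGen.trans_induction_on (u4 a h) (fun _ => .refl)
        (fun e => .single ⟨Or.inl e.1, Or.inl e.2.1, e.2.2⟩) fun _ _ e e' => e.trans e'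
    · fin_cases u
      exacts [.single ⟨m 0, m 1, P.adj (by omega)⟩, .refl, e2,
        .head ⟨m 3, m 2, (P.adj (by omega)).symm⟩ e2]
  have q4 : (Sum.elim (fun i => r (p i)) τ) ⁻¹' (U ∪ T) = range Sum.inr := by
    ext (i | a)
    · simpa using q2 i
    · simp [(u5 a).1]
  obtain ⟨f, f1, f2, f3, f4⟩ := hS G K Φ (Sum.elim (fun i => r (p i)) τ) (U ∪ T) T P.lr P.far
    ((P.inj' p1 p2).sumElim u1 fun i a e => q2 i (Or.inl (e ▸ (u5 a).1)))
    (fun a ha b hb => (q3 a ha).trans (q3 b hb).symm) subset_union_right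
    (by rw [q4, ncard_range_of_injective q1, ncard_range_of_injective Sum.inr_injective])
  have : ∀ u : Fin 4, ∃ v, f (Sum.inr v) = r (k + 29 + u) := fun u => by
    obtain ⟨_, ⟨v, rfl⟩, e⟩ : r (k + 29 + u) ∈ f '' range Sum.inr := by
      rw [← q4, f3]
      exact ⟨u, rfl⟩
    exact ⟨v, e⟩
  choose σ hσ using this
  have s1 : Injective σ := fun a b e => q1 ((hσ a).symm.trans (e ▸ hσ b))
  have fS := finite_iUnion g0
  choose m m' hm using fun a => (u5 a).2.2.2.2.1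
  have b1 : ∀ a, Br (Ψ a '' Iic (m a)) (Φ (τ a)) (m' a) ⊆ range (Ψ a) := by
    rintro a _ (⟨j, -, rfl⟩ | ⟨j, hj, rfl⟩)
    exacts [⟨j, rfl⟩, ⟨m a + (j - m' a), by rw [hm, Nat.add_sub_cancel' hj]⟩]
  have b2 : ∀ i a, Far G K (S a ∪ range (Ψ a)) (Br (Z i) (Φ (r (p i))) (n i)) := fun i a =>
    (((u5 a).2.1.union' ((u5 a).2.2.2.2.2.mono subset_union_right le_rfl)).symm.mono le_rfl
      fun z hz => Or.inr (mem_iUnion.2 ⟨i, hz⟩)).union' (((u5 a).2.2.1 _ fun e =>
        q2 i (Or.inl e)).mono le_rfl (image_subset_range _ _))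
  have H2 := f4 (Sum.elim X fun a => {Ψ a 0})
    (Sum.elim (fun i => O i ∪ ⋃ a, S a) fun a => S a ∪ ⋃ i, O i) _ ((finite_iUnion hO).union fS)
    (by
      rintro (i | a) - z (h | h)
      exacts [Or.inl (Or.inl (mem_iUnion.2 ⟨i, h⟩)), Or.inl (Or.inr h),
        Or.inl (Or.inr (mem_iUnion.2 ⟨a, h⟩)), Or.inl (Or.inl h)])
    ⟨Sum.elim Z fun a => Ψ a '' Iic (m a), Sum.elim n m', by
      rintro (i | a)
      · obtain ⟨a, b, c, d, e⟩ := z1 i
        exact ⟨a, b, c, d, e.union fun z hz => let ⟨a, h⟩ := mem_iUnion.1 hz; b2 i a z (Or.inl h)⟩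
      · refine ⟨(finite_Iic _).image _, singleton_subset_iff.2 ⟨0, Nat.zero_le _, rfl⟩,
          ⟨m a, le_refl (m a), hm a 0⟩, ?_, (u5 a).2.2.2.2.2.mono
            (union_subset_union_right _ subset_union_left) (b1 a)⟩
        rintro _ ⟨i, hi, rfl⟩ _ ⟨j, hj, rfl⟩
        exact (u5 a).2.2.2.1.lk fun l _ h => ⟨l, h.trans (max_le hi hj), rfl⟩, by
      rintro (i | a) (j | b) e
      exacts [z2 i j fun c => e (congrArg _ c),
        ((b2 i b).mono ((b1 b).trans subset_union_right) le_rfl).symm,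
        (b2 j a).mono ((b1 a).trans subset_union_right) le_rfl,
        (u6 a b fun c => e (congrArg _ c)).mono (b1 a) (b1 b)]⟩
  refine ⟨fun u => Ψ (σ u) 0, fun u => S (σ u), fun u => ⟨g0 _, (u5 _).2.1.mono subset_union_left
    le_rfl⟩, all_pairs (P := Pair G K (fun a => Ψ a 0) S) Pair.s1 Pair.s2 g1 g2 g3 _ _ _ _
      (s1.ne (by decide)) (s1.ne (by decide)) (s1.ne (by decide)) (s1.ne (by decide))
      (s1.ne (by decide)) (s1.ne (by decide)), ?_⟩
  rw [show (fun j => Φ (r (Sum.elim p (fun u : Fin 4 => k + 29 + u) j))) =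
    fun j => Φ (f (Sum.map id σ j)) from funext fun j => congrArg Φ (by
      rcases j with i | a
      exacts [(f2 (Sum.inl i) (q2 i)).symm, (hσ a).symm])]
  refine pq_comp H2 (injective_id.sumMap s1) ?_ ?_ <;> rintro (i | a)
  exacts [subset_rfl, subset_rfl,
    union_subset_union_right _ (iUnion_subset fun a => subset_iUnion S (σ a)), subset_rfl]

/-- Two tokens in consecutive places of the order are swapped. -/
theorem Pth.swap (hM : MoveSpec) (hE : EdgeSpec) (hS : SlideSpec) [Finite ι] [Finite κ] {r : ℕ → κ}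
    {Λ : ℕ} (P : Pth G K Φ r Λ) (hg : Gd G K Φ) {π π' : ι → ℕ} (p1 : Injective π)
    (p2 : ∀ i, π i + 60 ≤ Λ) {A B : ι} (p3 : π B = π A + 1) (p4 : π' A = π B) (p5 : π' B = π A)
    (p6 : ∀ i, i ≠ A → i ≠ B → π' i = π i) :
    Tr G K (fun i => Φ (r (π i))) fun i => Φ (r (π' i)) := by
  classical
  intro X O hO H
  have AB : A ≠ B := fun e => by rw [e] at p3; omega
  have cs : ∀ i, i = A ∨ i = B ∨ (i ≠ A ∧ i ≠ B) ∧ π i ≠ π A ∧ π i ≠ π B := fun i => by
    by_cases a : i = A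
    · exact Or.inl a
    by_cases b : i = B
    exacts [Or.inr (Or.inl b), Or.inr (Or.inr ⟨⟨a, b⟩, p1.ne a, p1.ne b⟩)]
  obtain ⟨p, hp⟩ : ∃ p : ι → ℕ, ∀ i, π i ≤ π A ∧ p i = π i ∨ π A < π i ∧ p i = π i + 60 :=
    ⟨fun i => if π i ≤ π A then π i else π i + 60, fun i => by dsimp only; split_ifs <;> omega⟩
  obtain ⟨q, hq⟩ : ∃ q : ι → ℕ, ∀ i, π i ≤ π A ∧ q i = π i + 28 ∨ π A < π i ∧ q i = π i + 32 :=
    ⟨fun i => if π i ≤ π A then π i + 28 else π i + 32, fun i => by dsimp only; split_ifs <;> omega⟩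
  have a1 : Injective p := fun i j e => p1 (by have := hp i; have := hp j; omega)
  have a2 : ∀ i, p i ≤ Λ := fun i => by have := hp i; have := p2 i; omega
  have b := p2 B
  obtain ⟨y, S, s1, ⟨L₀, L₀', l1, l2, l3, l4, l5, l6, l7⟩, H⟩ := P.add hS hg a1 a2
    (k := π A) (fun i => by have := hp i; omega) (by omega) hO (P.ord hM p1
      (fun i => by have := p2 i; omega) a2 (fun i j e => by have := hp i; have := hp j; omega) X O hO H)
  have fF := finite_iUnion hO
  have fS := finite_iUnion fun a => (s1 a).1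
  have a3 : ∀ j, Sum.elim q (fun u : Fin 4 => π A + 29 + u) j ≤ Λ := by
    rintro (i | u) <;> dsimp only [Sum.elim]
    · have := hq i; have := p2 i; omega
    · omega
  have a4 : Injective (Sum.elim q fun u : Fin 4 => π A + 29 + u) :=
    Injective.sumElim (fun i j e => p1 (by have := hq i; have := hq j; omega))
      (fun a b e => Fin.ext (by simpa using e)) fun i u => by have := hq i; omega
  replace H := P.ord hM (Injective.sumElim a1 (fun a b e => Fin.ext (by simpa using e))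
    fun i u => by have := hp i; omega) (by
      rintro (i | u)
      exacts [a2 i, a3 (Sum.inr u)]) a3 (by
      rintro (i | u) (j | v) <;> dsimp only [Sum.elim]
      · have := hp i; have := hp j; have := hq i; have := hq j; omega
      · have := hp i; have := hq i; omega
      · have := hp j; have := hq j; omega
      · exact id) _ _ (by
      rintro (i | u)
      exacts [(hO i).union fS, (s1 u).1.union fF]) H
  have qA : q A = π A + 28 := by have := hq A; omega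
  have qB : q B = π A + 33 := by have := hq B; omega
  obtain ⟨E, x, z, e1, e2, e3, e4, e5, H⟩ := hE G K _ _ _ _ (Sum.inl A) (Sum.inr 0)
    (fun _ => P.lr _) (BG.comp (P.inj' a4 a3) (by
      simpa [qA] using P.adj (i := π A + 28) (by omega))) (fF.union fS) H
  obtain ⟨E', x', z', f1, f2, f3, f4, f5, H⟩ := hE G K _ _ _ _ (Sum.inl B) (Sum.inr 3)
    (fun _ => P.lr _) (BG.comp (P.inj' a4 a3) (by
      simpa [qB] using (P.adj (i := π A + 32) (by omega)).symm)) ((fF.union fS).union e1) H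
  obtain ⟨L, m1, m2, m3, m4⟩ := l1.fin
  obtain ⟨L', n1, n2, n3, n4⟩ := l2.fin
  obtain ⟨W, wA, wB, w0⟩ : ∃ W : ι → Set V, W A = E ∪ L ∧ W B = E' ∪ L' ∧
      ∀ i, i ≠ A → i ≠ B → W i = ∅ :=
    ⟨fun i => if i = A then E ∪ L else if i = B then E' ∪ L' else ∅, by simp, by simp [AB.symm],
      fun i a b => by simp [a, b]⟩
  obtain ⟨s, sA, sB, s0⟩ : ∃ s : ι → ι ⊕ Fin 4, s A = Sum.inr 2 ∧ s B = Sum.inr 1 ∧
      ∀ i, i ≠ A → i ≠ B → s i = Sum.inl i :=
    ⟨fun i => if i = A then Sum.inr 2 else if i = B then Sum.inr 1 else Sum.inl i, by simp,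
      by simp [AB.symm], fun i a b => by simp [a, b]⟩
  have sO : ∀ i, O i ⊆ ⋃ i, O i := subset_iUnion O
  have sL : L ⊆ ⋃ a, S a := m2.trans (l4.trans (subset_iUnion S _))
  have sL' : L' ⊆ ⋃ a, S a := n2.trans (l6.trans (subset_iUnion S _))
  have AB' : Far G K (E ∪ L) (E' ∪ L') := Far.union'
    (f5.mono (union_subset subset_union_right fun w hw => Or.inl (Or.inr (sL hw))) le_rfl)
    ((e5.mono (sL'.trans subset_union_right) le_rfl).symm.union (l3.mono m2 n2))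
  have H := merge H (X := X) (O := O) (W := W) (Sum.elim id ![A, B, A, B]) s Sum.inl
    (fun i => by rcases cs i with rfl | rfl | ⟨⟨a, b⟩, -⟩ <;> simp [*])
    (fun i => ⟨rfl, fun w hw => Or.inl (Or.inl hw)⟩) (fun i => by
      rcases cs i with rfl | rfl | ⟨⟨a, b⟩, -⟩
      · exact wA ▸ ⟨e1.union m1, (e5.mono ((sO _).trans subset_union_left) le_rfl).union'
          ((s1 3).2.mono (sO _) (m2.trans l4))⟩
      · exact wB ▸ ⟨f1.union n1, (f5.mono (fun w hw => Or.inl (Or.inl (sO _ hw))) le_rfl).union'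
          ((s1 0).2.mono (sO _) (n2.trans l6))⟩
      · exact w0 i a b ▸ ⟨finite_empty, fun _ _ _ h => h.elim⟩)
    (fun i j e => by
      rcases cs i with rfl | rfl | ⟨⟨a, b⟩, -⟩
      · rcases cs j with rfl | rfl | ⟨⟨a, b⟩, -⟩
        exacts [absurd rfl e, wA ▸ wB ▸ AB', w0 j a b ▸ fun _ _ _ h => h.elim]
      · rcases cs j with rfl | rfl | ⟨⟨a, b⟩, -⟩
        exacts [wA ▸ wB ▸ AB'.symm, absurd rfl e, w0 j a b ▸ fun _ _ _ h => h.elim]
      · exact w0 i a b ▸ fun _ h => h.elim)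
    (fun i j e => by
      rcases cs i with rfl | rfl | ⟨⟨a, b⟩, -⟩
      · rw [wA]
        refine union_subset (fun w hw => Or.inl (Or.inr ⟨?_, ?_, hw⟩)) fun w hw => Or.inl (Or.inl ?_)
        · rintro rfl; exact e rfl
        · rintro rfl; exact e rfl
        rcases j with j | u
        · exact Or.inr (sL hw)
        · fin_cases u
          exacts [absurd rfl e, Or.inl (l5 (m2 hw)), absurd rfl e, Or.inl (l4 (m2 hw))]
      · rw [wB]
        refine union_subset (fun w hw => Or.inr ⟨?_, ?_, hw⟩) fun w hw => Or.inl (Or.inl ?_)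
        · rintro rfl; exact e rfl
        · rintro rfl; exact e rfl
        rcases j with j | u
        · exact Or.inr (sL' hw)
        · fin_cases u
          exacts [Or.inl (l6 (n2 hw)), absurd rfl e, Or.inl (l7 (n2 hw)), absurd rfl e]
      · exact w0 i a b ▸ empty_subset _)
    (by
      rintro (j | u) w hw
      exacts [Or.inl (Or.inl (Or.inl hw)), Or.inl (Or.inl (Or.inr (sO _ hw)))])
    (fun i T Z hT hZ => by
      rcases cs i with rfl | rfl | ⟨⟨a, b⟩, -⟩
      · rw [wA, union_subset_iff] at hT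
        obtain ⟨c1, -, c2⟩ := hZ (Sum.inr 0) rfl
        have k1 := (m4 _ m3).mono hT.2
        have k2 : ∀ w ∈ E, Lk G T w (y 2) := fun w hw => (((e2 w hw z e4).mono hT.1).trans
          (c2 z (c1 (Or.inl (Or.inr (Or.inr ⟨rfl, rfl⟩)))) _ (c1 (Or.inl (Or.inl rfl))))).trans k1
        refine ⟨y 2, wA ▸ fun w hw => hw.elim (k2 w) fun h => (m4 w h).mono hT.2, ?_⟩
        rintro (j | u) e
        · obtain rfl : j = i := e
          exact ⟨x, (hZ (Sum.inl j) rfl).1 (Or.inl (Or.inr (Or.inl ⟨rfl, rfl⟩))), k2 x e3⟩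
        · refine ⟨y u, (hZ _ e).1 (Or.inl (Or.inl rfl)), ?_⟩
          fin_cases u
          exacts [k1, absurd e AB.symm, Lk.refl k1.right, absurd e AB.symm]
      · rw [wB, union_subset_iff] at hT
        obtain ⟨c1, -, c2⟩ := hZ (Sum.inr 3) rfl
        have k1 := (n4 _ n3).mono hT.2
        have k2 : ∀ w ∈ E', Lk G T w (y 1) := fun w hw => (((f2 w hw z' f4).mono hT.1).trans
          (c2 z' (c1 (Or.inr (Or.inr ⟨rfl, rfl⟩))) _ (c1 (Or.inl (Or.inl rfl))))).trans k1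
        refine ⟨y 1, wB ▸ fun w hw => hw.elim (k2 w) fun h => (n4 w h).mono hT.2, ?_⟩
        rintro (j | u) e
        · obtain rfl : j = i := e
          exact ⟨x', (hZ (Sum.inl j) rfl).1 (Or.inr (Or.inl ⟨rfl, rfl⟩)), k2 x' f3⟩
        · refine ⟨y u, (hZ _ e).1 (Or.inl (Or.inl rfl)), ?_⟩
          fin_cases u
          exacts [absurd e AB, Lk.refl k1.right, absurd e AB, k1]
      · obtain ⟨-, ⟨o, c1⟩, c2⟩ := hZ (Sum.inl i) rfl
        refine ⟨o, w0 i a b ▸ fun _ h => h.elim, ?_⟩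
        rintro (j | u) e
        · obtain rfl : j = i := e
          exact ⟨o, c1, c2 o c1 o c1⟩
        · fin_cases u
          exacts [absurd e a.symm, absurd e b.symm, absurd e a.symm, absurd e b.symm])
  have t : ∀ i, Sum.elim q (fun u : Fin 4 => π A + 29 + u) (s i) = π A + 31 ∧ π' i = π A + 1 ∧
      π i = π A ∨ Sum.elim q (fun u : Fin 4 => π A + 29 + u) (s i) = π A + 30 ∧ π' i = π A ∧
      π i = π A + 1 ∨ Sum.elim q (fun u : Fin 4 => π A + 29 + u) (s i) = q i ∧ π' i = π i ∧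
      π i ≠ π A ∧ π i ≠ π B := fun i => by
    rcases cs i with rfl | rfl | ⟨⟨a, b⟩, c⟩
    exacts [Or.inl ⟨by rw [sA]; rfl, p4.trans p3, rfl⟩, Or.inr (Or.inl ⟨by rw [sB]; rfl, p5, p3⟩),
      Or.inr (Or.inr ⟨by rw [s0 i a b]; rfl, p6 i a b, c⟩)]
  refine P.ord hM (p := fun i => Sum.elim q (fun u : Fin 4 => π A + 29 + u) (s i))
    (fun i j e => p1 ?_) (fun i => a3 _) (fun i => ?_) (fun i j e => ?_) X O hO H
  · have := t i; have := t j; have := hq i; have := hq j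
    dsimp only at e
    omega
  · have := t i; have := p2 i; omega
  · have := t i; have := t j; have := hq i; have := hq j
    omega

/-- All placements of the tokens at the start of the path are interchangeable. -/
theorem Pth.perm (hM : MoveSpec) (hE : EdgeSpec) (hS : SlideSpec) [Finite κ] {r : ℕ → κ} {h : ℕ}
    (P : Pth G K Φ r (h + 61)) (hg : Gd G K Φ) (π π' : Equiv.Perm (Fin (h + 1))) :
    Tr G K (fun i => Φ (r (π i))) fun i => Φ (r (π' i)) := by
  have : ∀ σ ∈ Submonoid.closure (range fun k : Fin h => Equiv.swap k.castSucc k.succ),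
      ∀ π : Equiv.Perm (Fin (h + 1)), Tr G K (fun i => Φ (r (π i))) fun i => Φ (r ((σ * π) i)) := by
    intro σ hσ
    induction hσ using Submonoid.closure_induction with
    | mem σ hσ =>
      obtain ⟨k, rfl⟩ := hσ
      exact fun π => P.swap hM hE hS hg (π := fun i => π i) (A := π.symm k.castSucc)
        (B := π.symm k.succ) (Fin.val_injective.comp π.injective) (fun i => by omega) (by simp)
        (by simp) (by simp) fun i a b => by
          rw [Equiv.Perm.mul_apply, Equiv.swap_apply_of_ne_of_ne (fun e => a (by simp [← e]))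
            fun e => b (by simp [← e])]
    | one => exact fun _ _ _ _ H => H
    | mul a b _ _ ha hb => exact fun π => by rw [mul_assoc]; exact (hb _).trans (ha _)
  simpa using this (π' * π⁻¹) (by rw [Equiv.Perm.mclosure_swap_castSucc_succ]; trivial) π

end R

open R

theorem rSpec (hG : GadSpec) (hD : DivSpec) (hU : UPSpec) (hR : ReachSpec) (hM : MoveSpec)
    (hE : EdgeSpec) (hS : SlideSpec) : RSpec := by
  intro V G _ _ K h ω ht hK hω hT hC
  obtain ⟨Φ, f1, f2⟩ := hD G ω hω hT (9 * K) ((h + 2) ^ (h + 62) + 24)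
  have f3 := (f1.le (show K ≤ 9 * K by omega)).far
  suffices H : FatCl G K (h + 2) from let ⟨I, B, E, h1, h2⟩ := H; ⟨I, B, E, by omega, h2⟩
  rcases star_or_path (BG G K Φ) (RF.rch hR hK (f1.le (by omega)) hω) (d := h + 1) (n := h + 62)
    (by simp) with ⟨c, e, e1, e2⟩ | ⟨-, r, hr⟩
  · refine fat hE (fun i => Φ (e i)) (fun i j k => f3 _ _ (e1.ne k)) fun i j k =>
      ⟨_, fun _ => f1.lr _, ⟨k, fun x t => ?_⟩, fun _ _ _ H => H, fun _ _ _ H => H⟩
    obtain ⟨m, n, l⟩ := Rch.lk (s := K) (ρ := Φ) (U := {e i, c, e j}) (i := e i) (j := e j)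
      (.head ⟨by simp, by simp, (e2 i).symm⟩ (.single ⟨by simp, by simp, e2 j⟩)) (by simp)
      f1.lr f3 x t
    exact ⟨m, n, l.mono fun z hz => ⟨hz.1, fun d d1 d2 => hz.2 _ (by
      simp [e1.ne d1, e1.ne d2, (e2 d).ne'])⟩⟩
  · have P : Pth G K Φ r (h + 1 + 61) := ⟨f1.lr, f3, hr⟩
    have hg := gadget hG hU hR ht hK hω hT hC f1 f2 (by simp)
    have inj := fun π : Equiv.Perm (Fin (h + 2)) => P.inj' (p := fun i => π i)
      (Fin.val_injective.comp π.injective) fun i => by omega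
    refine fat hE (fun i => Φ (r i)) (fun i j k => f3 _ _ ((inj 1).ne k)) fun i j k => ?_
    obtain ⟨σ, s0, s1⟩ : ∃ σ : Equiv.Perm (Fin (h + 2)), σ i = 0 ∧ σ j = 1 := by
      refine ⟨Equiv.swap (Equiv.swap i 0 j) 1 * Equiv.swap i 0, ?_, by simp⟩
      rw [Equiv.Perm.mul_apply, Equiv.swap_apply_left, Equiv.swap_apply_of_ne_of_ne]
      · exact fun e => k ((Equiv.swap i 0).injective (by rw [← e, Equiv.swap_apply_left]))
      · simp
    exact ⟨fun i => Φ (r (σ i)), fun _ => f1.lr _, BG.comp (inj σ) (by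
      simpa [s0, s1] using P.adj (i := 0) (by omega)), P.perm hM hE hS hg 1 σ,
      P.perm hM hE hS hg σ 1⟩

end Pool.Agent.MP_77f003_co.H49
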