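import Pool.Agent.MP_77f003_co.H51.HBasic

/-!
Tokens on far rays: reindexing, merging, building a clique and moving along a path.
-/

namespace Pool.Agent.MP_77f003_co.H49

open SimpleGraph Filter Set Function

namespace R

variable {V : Type} {G : SimpleGraph V} {K : ℕ} {ι ι' κ : Type}

/-- Every state with finite obstacles can be carried from `ρ` to `ρ'`. -/
def Tr (G : SimpleGraph V) (K : ℕ) (ρ ρ' : ι → ℕ → V) : Prop :=
  ∀ X O : ι → Set V, (∀ i, (O i).Finite) → PQ G K X O ρ → PQ G K X O ρ'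

theorem Tr.trans {ρ ρ' ρ'' : ι → ℕ → V} (h : Tr G K ρ ρ') (h' : Tr G K ρ' ρ'') : Tr G K ρ ρ'' :=
  fun X O k p => h' X O k (h X O k p)

theorem pq_comp {X O : ι → Set V} {ρ : ι → ℕ → V} (h : PQ G K X O ρ) {e : ι' → ι}
    (he : Injective e) {X' O' : ι' → Set V} (hX : ∀ i, X' i ⊆ X (e i))
    (hO : ∀ i, O' i ⊆ O (e i)) : PQ G K X' O' fun i => ρ (e i) := by
  obtain ⟨Z, n, h1, h2⟩ := h
  exact ⟨fun i => Z (e i), fun i => n (e i), fun i => let ⟨a, b, c, d, f⟩ := h1 (e i)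
    ⟨a, (hX i).trans b, c, d, f.mono (hO i) le_rfl⟩, fun i j k => h2 _ _ (he.ne k)⟩

/-- Groups of tokens joined by far connectors become single tokens. -/
theorem merge [Finite ι'] {X' O' : ι' → Set V} {ρ' : ι' → ℕ → V} (h : PQ G K X' O' ρ')
    {X O W : ι → Set V} (g : ι' → ι) (s t : ι → ι') (hs : ∀ i, g (s i) = i)
    (ht : ∀ i, g (t i) = i ∧ X i ⊆ X' (t i)) (hW : ∀ i, (W i).Finite ∧ Far G K (O i) (W i))
    (ww : ∀ i j, i ≠ j → Far G K (W i) (W j)) (wo : ∀ i j, g j ≠ i → W i ⊆ O' j)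
    (oo : ∀ j, O (g j) ⊆ O' j)
    (hc : ∀ (i : ι) (T : Set V) (Z : ι' → Set V), W i ⊆ T → (∀ j, g j = i → X' j ⊆ Z j ∧
      (Z j).Nonempty ∧ ∀ u ∈ Z j, ∀ v ∈ Z j, Lk G T u v) →
      ∃ o, (∀ w ∈ W i, Lk G T w o) ∧ ∀ j, g j = i → ∃ u ∈ Z j, Lk G T u o) :
    PQ G K X O fun i => ρ' (s i) := by
  obtain ⟨Z, n, h1, h2⟩ := h
  have sub : ∀ i, ∀ z ∈ Br (W i ∪ {z | ∃ j, g j = i ∧ z ∈ Z j}) (ρ' (s i)) (n (s i)),
      z ∈ W i ∨ ∃ j, g j = i ∧ z ∈ Br (Z j) (ρ' j) (n j) := by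
    rintro i z ((k | ⟨j, k1, k2⟩) | k)
    exacts [Or.inl k, Or.inr ⟨j, k1, Or.inl k2⟩, Or.inr ⟨s i, hs i, Or.inr k⟩]
  refine ⟨fun i => W i ∪ {z | ∃ j, g j = i ∧ z ∈ Z j}, fun i => n (s i), fun i =>
    ⟨(hW i).1.union ((finite_iUnion fun j => (h1 j).1).subset fun z ⟨j, _, k⟩ => mem_iUnion.2 ⟨j, k⟩),
      fun z hz => Or.inr ⟨t i, (ht i).1, (h1 _).2.1 ((ht i).2 hz)⟩,
      Or.inr ⟨s i, hs i, (h1 _).2.2.1⟩, ?_, fun u hu v hv => ?_⟩, fun i j e u hu v hv => ?_⟩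
  · have k : ∀ j, g j = i → ∀ u ∈ Z j, ∀ v ∈ Z j,
        Lk G (W i ∪ {z | ∃ j, g j = i ∧ z ∈ Z j}) u v := fun j e u hu v hv =>
      ((h1 j).2.2.2.1 u hu v hv).mono fun z hz => Or.inr ⟨j, e, hz⟩
    obtain ⟨o, o1, o2⟩ := hc i _ Z subset_union_left fun j e =>
      ⟨(h1 j).2.1, ⟨_, (h1 j).2.2.1⟩, k j e⟩
    have k' : ∀ z ∈ W i ∪ {z | ∃ j, g j = i ∧ z ∈ Z j},
        Lk G (W i ∪ {z | ∃ j, g j = i ∧ z ∈ Z j}) z o := by
      rintro z (hz | ⟨j, e, hz⟩)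
      exacts [o1 z hz, let ⟨u, u1, u2⟩ := o2 j e; (k j e z hz u u1).trans u2]
    exact fun u hu v hv => (k' u hu).trans (k' v hv).symm
  · rcases sub i v hv with k | ⟨j, rfl, k⟩
    exacts [(hW i).2 u hu v k, (h1 j).2.2.2.2 u (oo j hu) v k]
  · rcases sub i u hu with k | ⟨a, rfl, k⟩ <;> rcases sub j v hv with k' | ⟨b, rfl, k'⟩
    exacts [ww i j e u k v k', (h1 b).2.2.2.2 u (wo i b e.symm k) v k',
      (h1 a).2.2.2.2.symm u k v (wo j a e k'), h2 a b (fun c => e (congrArg g c)) u k v k']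

variable [Fact G.Connected]

/-- If any two tokens can be made adjacent there is a fat clique. -/
theorem fat (hE : EdgeSpec) {h : ℕ} (ρ : Fin h → ℕ → V)
    (h2 : ∀ i j, i ≠ j → Far G K (range (ρ i)) (range (ρ j)))
    (H : ∀ i j, i ≠ j → ∃ ρ' : Fin h → ℕ → V, (∀ c, LR G (ρ' c)) ∧ (BG G K ρ').Adj i j ∧
      Tr G K ρ ρ' ∧ Tr G K ρ' ρ) : FatCl G K h := by
  classical
  have key : ∀ D : Finset (Fin h × Fin h), (∀ e ∈ D, e.1 ≠ e.2) → ∃ X O : Fin h → Set V,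
      (∀ i, (O i).Finite) ∧ PQ G K X O ρ ∧ ∃ E : Fin h × Fin h → Set V, ∀ e ∈ D, (E e).Finite ∧
        (∃ x ∈ X e.1, ∃ y ∈ X e.2, Lk G (E e) x y) ∧ (∀ k, k ≠ e.1 → k ≠ e.2 → E e ⊆ O k) ∧
        ∀ e' ∈ D, e ≠ e' → Far G K (E e) (E e') := by
    intro D
    induction D using Finset.induction_on with
    | empty =>
      have : ∀ i, Br {ρ i 0} (ρ i) 0 ⊆ range (ρ i) := by
        rintro i _ (rfl | ⟨k, -, rfl⟩) <;> exact ⟨_, rfl⟩
      exact fun _ => ⟨fun _ => ∅, fun _ => ∅, fun _ => finite_empty, ⟨fun i => {ρ i 0}, fun _ => 0,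
        fun i => ⟨finite_singleton _, empty_subset _, rfl, by rintro _ rfl _ rfl; exact Lk.refl rfl,
          fun _ k => k.elim⟩, fun i j e => (h2 i j e).mono (this i) (this j)⟩, fun _ => ∅, by simp⟩
    | insert e D he ih =>
      intro hD
      obtain ⟨X, O, o1, o2, E, o3⟩ := ih fun f hf => hD f (by simp [hf])
      obtain ⟨ρ', r1, r2, r3, r4⟩ := H _ _ (hD e (by simp))
      obtain ⟨E₀, x, y, e1, e2, e3, e4, e5, e6⟩ := hE G K ρ' X O (⋃ f ∈ D, E f) e.1 e.2 r1 r2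
        (D.finite_toSet.biUnion fun f hf => (o3 f hf).1) (r3 X O o1 o2)
      have o4 := fun k => (o1 k).union (e1.subset fun z (hz : k ≠ e.1 ∧ k ≠ e.2 ∧ z ∈ E₀) => hz.2.2)
      have u : ∀ f ∈ D, update E e E₀ f = E f := fun f hf => update_of_ne (ne_of_mem_of_not_mem hf he) _ _
      have v : ∀ f ∈ D, Far G K (E f) E₀ := fun f hf => e5.mono (subset_biUnion_of_mem (u := E) hf) le_rfl
      refine ⟨_, _, o4, r4 _ _ o4 e6, update E e E₀, fun f hf => ?_⟩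
      rcases Finset.mem_insert.1 hf with rfl | hg
      · rw [update_self]
        refine ⟨e1, ⟨x, Or.inr (Or.inl ⟨rfl, rfl⟩), y, Or.inr (Or.inr ⟨rfl, rfl⟩), e2 x e3 y e4⟩,
          fun k k1 k2 z hz => Or.inr ⟨k1, k2, hz⟩, fun f' hf' k => ?_⟩
        have := (Finset.mem_insert.1 hf').resolve_left k.symm
        rw [u f' this]
        exact (v f' this).symm
      · obtain ⟨a1, ⟨a, a2, b, a3, a4⟩, a5, a6⟩ := o3 f hg
        rw [u f hg]
        refine ⟨a1, ⟨a, Or.inl a2, b, Or.inl a3, a4⟩,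
          fun k k1 k2 => (a5 k k1 k2).trans subset_union_left, fun f' hf' k => ?_⟩
        rcases Finset.mem_insert.1 hf' with rfl | hf'
        · rw [update_self]
          exact v f hg
        · rw [u f' hf']
          exact a6 f' hf' k
  obtain ⟨X, O, -, ⟨Z, n, z1, z2⟩, E, H⟩ := key (Finset.univ.filter fun e => e.1 ≠ e.2) (by simp)
  have hD : ∀ i j : Fin h, i < j → (i, j) ∈ Finset.univ.filter fun e : Fin h × Fin h => e.1 ≠ e.2 :=
    fun i j k => by simpa using k.ne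
  refine ⟨Finset.range h, fun i => if hi : i < h then Z ⟨i, hi⟩ else ∅,
    fun i j => if hi : i < h ∧ j < h then E (⟨i, hi.1⟩, ⟨j, hi.2⟩) else ∅, by simp, ?_, ?_, ?_,
    ?_, ?_⟩ <;> simp only [Finset.mem_range]
  · intro i hi
    rw [dif_pos hi]
    exact ⟨⟨_, (z1 _).2.2.1⟩, (z1 _).2.2.2.1⟩
  · intro i hi j hj hij
    rw [dif_pos hi, dif_pos hj, dif_pos ⟨hi, hj⟩]
    obtain ⟨a, a1, b, a2, a3⟩ := (H _ (hD ⟨i, hi⟩ ⟨j, hj⟩ hij)).2.1
    exact ⟨a, (z1 _).2.1 a1, b, (z1 _).2.1 a2, a3⟩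
  · intro i hi j hj hij
    rw [dif_pos hi, dif_pos hj]
    exact (z2 _ _ (by simpa using hij)).mono subset_union_left subset_union_left
  · intro i hi j hj k hk l hl hij hkl hne
    rw [dif_pos ⟨hi, hj⟩, dif_pos ⟨hk, hl⟩]
    exact (H _ (hD ⟨i, hi⟩ ⟨j, hj⟩ hij)).2.2.2 _ (hD ⟨k, hk⟩ ⟨l, hl⟩ hkl)
      (by simpa [Prod.ext_iff, ← imp_iff_not_or] using hne)
  · intro i hi j hj k hk hij k1 k2
    rw [dif_pos ⟨hi, hj⟩, dif_pos hk]
    exact (z1 ⟨k, hk⟩).2.2.2.2.mono ((H _ (hD ⟨i, hi⟩ ⟨j, hj⟩ hij)).2.2.1 _ (by simpa using k1)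
      (by simpa using k2)) subset_union_left

/-- A far family of rays with a long geodesic in its graph. -/
structure Pth (G : SimpleGraph V) (K : ℕ) (Φ : κ → ℕ → V) (r : ℕ → κ) (Λ : ℕ) : Prop where
  lr : ∀ c, LR G (Φ c)
  far : ∀ c d, c ≠ d → Far G K (range (Φ c)) (range (Φ d))
  geo : ∀ i j, i ≤ j → j ≤ Λ → (BG G K Φ).dist (r i) (r j) = j - i

variable {Φ : κ → ℕ → V} {r : ℕ → κ} {Λ : ℕ}

omit [Fact G.Connected] in
theorem Pth.inj (P : Pth G K Φ r Λ) {i j : ℕ} (hi : i ≤ Λ) (hj : j ≤ Λ) (e : r i = r j) : i = j := by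
  rcases le_total i j with k | k
  · have := P.geo i j k hj
    rw [e, SimpleGraph.dist_self] at this
    omega
  · have := P.geo j i k hi
    rw [e, SimpleGraph.dist_self] at this
    omega

omit [Fact G.Connected] in
theorem Pth.adj (P : Pth G K Φ r Λ) {i : ℕ} (hi : i + 1 ≤ Λ) :
    (BG G K Φ).Adj (r i) (r (i + 1)) :=
  dist_eq_one_iff_adj.1 (by rw [P.geo _ _ i.le_succ hi]; omega)

omit [Fact G.Connected] in
theorem Pth.inj' (P : Pth G K Φ r Λ) {p : ι → ℕ} (h1 : Injective p) (h2 : ∀ i, p i ≤ Λ) :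
    Injective fun i => r (p i) := fun i j e => h1 (P.inj (h2 i) (h2 j) e)

variable [Finite ι]

theorem Pth.step (P : Pth G K Φ r Λ) (hM : MoveSpec) {p p' : ι → ℕ} (h1 : Injective p)
    (h2 : ∀ i, p i ≤ Λ) (i : ι) (h3 : ∀ j, j ≠ i → p' j = p j) (h4 : ∀ j, p j ≠ p' i)
    (h5 : p' i ≤ Λ) (h6 : p' i + 1 = p i ∨ p i + 1 = p' i) :
    Tr G K (fun i => Φ (r (p i))) fun i => Φ (r (p' i)) := by
  classical
  intro X O hO H
  have := hM G K Φ (fun i => r (p i)) X O (O i) i (r (p' i)) P.lr P.far (P.inj' h1 h2) (by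
    rcases h6 with k | k
    · have := (P.adj (k ▸ h2 i)).symm
      rwa [k] at this
    · have := P.adj (k ▸ h5)
      rwa [k] at this) (fun ⟨j, e⟩ => h4 j (P.inj (h2 j) h5 e)) (hO i) subset_union_left H
  convert this using 3 with j
  by_cases e : j = i
  · rw [e, update_self]
  · rw [update_of_ne e, h3 j e]

theorem Pth.down (P : Pth G K Φ r Λ) (hM : MoveSpec) {q : ι → ℕ} (p : ι → ℕ) (h1 : Injective p)
    (h2 : ∀ i, p i ≤ Λ) (h3 : ∀ i, q i ≤ p i) (h4 : ∀ i j, p i < p j → q i < q j) :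
    Tr G K (fun i => Φ (r (p i))) (fun i => Φ (r (q i))) ∧
      Tr G K (fun i => Φ (r (q i))) fun i => Φ (r (p i)) := by
  classical
  have := Fintype.ofFinite ι
  induction hn : ∑ i, p i using Nat.strong_induction_on generalizing p with
  | _ n ih =>
  by_cases c : ∃ i, q i < p i
  · obtain ⟨i, i1, i2⟩ := exists_min_image {i | q i < p i} p (toFinite _) c
    have i1 : q i < p i := i1
    have fr : ∀ j, p j + 1 ≠ p i := fun j e => by
      have := h4 j i (by omega)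
      have := i2 j (show q j < p j by omega)
      omega
    have ne : ∀ j, j ≠ i → p j ≠ p i := fun j e => h1.ne e
    obtain ⟨p', u1, u2⟩ : ∃ p' : ι → ℕ, p' i + 1 = p i ∧ ∀ j, j ≠ i → p' j = p j :=
      ⟨update p i (p i - 1), by rw [update_self]; omega, fun j e => update_of_ne e _ _⟩
    have u3 : ∀ j, j = i ∨ p' j = p j ∧ p j ≠ p i ∧ p j + 1 ≠ p i := fun j =>
      (em _).imp_right fun e => ⟨u2 j e, ne j e, fr j⟩
    have u4 : Injective p' := fun a b e => h1 (by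
      rcases u3 a with rfl | _ <;> rcases u3 b with rfl | _ <;> omega)
    have u5 : ∀ j, p' j ≤ p j := fun j => by rcases u3 j with rfl | _ <;> omega
    obtain ⟨a, b⟩ := ih _ (hn ▸ Finset.sum_lt_sum (fun j _ => u5 j) ⟨i, by simp, by omega⟩) p' u4
      (fun j => (u5 j).trans (h2 j)) (fun j => by
        have := h3 j
        rcases u3 j with rfl | _ <;> omega) (fun a b e => h4 a b (by
        rcases u3 a with rfl | _ <;> rcases u3 b with rfl | _ <;> omega)) rfl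
    exact ⟨(P.step hM h1 h2 i u2 (fun j e => fr j (by omega)) ((u5 i).trans (h2 i))
      (Or.inl u1)).trans a, b.trans (P.step hM u4 (fun j => (u5 j).trans (h2 j)) i
        (fun j e => (u2 j e).symm) (fun j => by rcases u3 j with rfl | _ <;> omega) (h2 i)
        (Or.inr u1))⟩
  · obtain rfl : p = q := funext fun i => le_antisymm (not_lt.1 fun e => c ⟨i, e⟩) (h3 i)
    exact ⟨fun _ _ _ h => h, fun _ _ _ h => h⟩

/-- Placements on the path in the same order are interchangeable. -/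
theorem Pth.ord (P : Pth G K Φ r Λ) (hM : MoveSpec) {p p' : ι → ℕ} (h1 : Injective p)
    (h2 : ∀ i, p i ≤ Λ) (h3 : ∀ i, p' i ≤ Λ) (h4 : ∀ i j, p i < p j → p' i < p' j) :
    Tr G K (fun i => Φ (r (p i))) fun i => Φ (r (p' i)) := by
  have k : ∀ i j, p' i ≤ p' j → i = j ∨ p i < p j ∧ p' i < p' j := fun i j e => by
    rcases lt_trichotomy (p i) (p j) with c | c | c
    exacts [Or.inr ⟨c, h4 _ _ c⟩, Or.inl (h1 c), absurd (h4 _ _ c) (not_lt.2 e)]
  refine (P.down hM (q := fun i => min (p i) (p' i)) p h1 h2 (fun _ => min_le_left _ _)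
    fun i j e => ?_).1.trans (P.down hM p' (fun i j e => ?_) h3 (fun _ => min_le_right _ _)
      fun i j e => ?_).2
  · have := h4 i j e
    omega
  · exact (k i j e.le).resolve_right fun c => c.2.ne e
  · rcases k i j e.le with rfl | c <;> omega

end R

end Pool.Agent.MP_77f003_co.H49
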